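import Mathlib

set_option autoImplicit false

open scoped Classical

namespace Pool.Agent.H870Z.LM

noncomputable section

/-- A group with the shape of a commensurating HNN extension of an abelian group `L`. -/
structure Pre (G V : Type) [Group G] [NormedAddCommGroup V] [NormedSpace ℂ V] where
  L : Subgroup G
  B : Subgroup G
  t : G
  H : Set G
  h : G → ℤ
  A : V ≃ₗ[ℂ] V
  b : G → V
  comm : ∀ x ∈ L, ∀ y ∈ L, x * y = y * x
  B_le : ∀ x ∈ B, x ∈ L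
  P_le : ∀ x ∈ B, t⁻¹ * x * t ∈ L
  gen : ∀ (p : G → Prop), p 1 → (∀ g z, z ∈ L → p g → p (g * z)) → (∀ g, p g → p (g * t)) →
    (∀ g, p g → p (g * t⁻¹)) → ∀ g, p g
  cms : ∀ g : G, ∃ R : Finset G, (∀ r ∈ R, r ∈ L) ∧ ∀ z ∈ L, ∃ r ∈ R, g⁻¹ * (z * r⁻¹) * g ∈ L
  H_L : ∀ x z, z ∈ L → x ∈ H → x * z ∈ H
  one_nH : (1 : G) ∉ H
  t_H : t ∈ H
  H_t : ∀ x, x ∈ H → x * t ∈ H
  H_exit : ∀ x, x ∈ H → x * t⁻¹ ∉ H → x * t⁻¹ ∈ B
  h_mul : ∀ x y, h (x * y) = h x + h y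
  h_L : ∀ z ∈ L, h z = 0
  h_t : h t = 1
  b_mul : ∀ x y, b (x * y) = b x + (A ^ (h x)) (b y)

/-- The same with the normal subgroup of periodic translations. -/
structure HS (G V : Type) [Group G] [NormedAddCommGroup V] [NormedSpace ℂ V] extends Pre G V where
  N : Subgroup G
  N_normal : N.Normal
  N_le : ∀ x ∈ N, x ∈ L
  M : ℕ
  M_pos : 0 < M
  N_cent : ∀ g, (M : ℤ) ∣ h g → ∀ x ∈ N, g * x = x * g
  per : ∃ F : Set (G ⧸ N), F.Finite ∧ ∀ z ∈ L, ∀ j : ℤ, j ≠ 0 → (A ^ j) (b z) = b z →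
    (QuotientGroup.mk z : G ⧸ N) ∈ F

variable {G V : Type} [Group G] [NormedAddCommGroup V] [NormedSpace ℂ V]

namespace Pre

variable (X : Pre G V)

@[elab_as_elim]
theorem induc {p : G → Prop} (x : G) (one : p 1) (lam : ∀ g z, z ∈ X.L → p g → p (g * z))
    (up : ∀ g, p g → p (g * X.t)) (down : ∀ g, p g → p (g * X.t⁻¹)) : p x :=
  X.gen p one lam up down x

theorem h_one : X.h 1 = 0 := X.h_L 1 X.L.one_mem

theorem h_inv (x : G) : X.h x⁻¹ = - X.h x := by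
  have := X.h_mul x⁻¹ x
  rw [inv_mul_cancel, X.h_one] at this
  omega

theorem h_pow (x : G) (k : ℕ) : X.h (x ^ k) = k * X.h x := by
  induction k with
  | zero => rw [pow_zero, X.h_one]; simp
  | succ k ih => rw [pow_succ, X.h_mul, ih]; push_cast; ring

theorem h_zpow (x : G) (k : ℤ) : X.h (x ^ k) = k * X.h x := by
  rcases Int.eq_nat_or_neg k with ⟨n, rfl | rfl⟩
  · rw [zpow_natCast, X.h_pow]
  · rw [zpow_neg, zpow_natCast, X.h_inv, X.h_pow]; ring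

theorem b_one : X.b 1 = 0 := by
  have := X.b_mul 1 1
  rw [mul_one, X.h_one, zpow_zero] at this
  simpa using this

theorem b_mul0 {x : G} (hx : X.h x = 0) (y : G) : X.b (x * y) = X.b x + X.b y := by
  rw [X.b_mul, hx, zpow_zero]; rfl

theorem b_pow {x : G} (hx : X.h x = 0) (k : ℕ) : X.b (x ^ k) = (k : ℂ) • X.b x := by
  induction k with
  | zero => rw [pow_zero, X.b_one]; simp
  | succ k ih =>
    rw [pow_succ', X.b_mul0 hx, ih]; push_cast; rw [add_smul, one_smul, add_comm]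

theorem b_conj (d : G) {z : G} (hz : X.h z = 0) : X.b (d * z * d⁻¹) = (X.A ^ X.h d) (X.b z) := by
  have h1 : X.b (d * z * d⁻¹ * d) = X.b (d * z * d⁻¹) + X.b d := by
    apply X.b_mul0
    rw [X.h_mul, X.h_mul, X.h_inv, hz]; ring
  rw [inv_mul_cancel_right, X.b_mul] at h1
  have : X.b (d * z * d⁻¹) + X.b d = (X.A ^ X.h d) (X.b z) + X.b d := by rw [← h1, add_comm]
  exact add_right_cancel this

theorem H_L_iff {x z : G} (hz : z ∈ X.L) : x * z ∈ X.H ↔ x ∈ X.H := by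
  refine ⟨fun h => ?_, X.H_L x z hz⟩
  have := X.H_L _ z⁻¹ (X.L.inv_mem hz) h
  rwa [mul_inv_cancel_right] at this

theorem L_nH {z : G} (hz : z ∈ X.L) : z ∉ X.H := by
  intro h
  have := X.H_L _ z⁻¹ (X.L.inv_mem hz) h
  rw [mul_inv_cancel] at this
  exact X.one_nH this

theorem enter {x : G} (h1 : x ∉ X.H) (h2 : x * X.t ∈ X.H) : x ∈ X.B := by
  have := X.H_exit (x * X.t) h2
  rw [mul_inv_cancel_right] at this
  exact this h1

theorem nH_tinv {x : G} (h1 : x ∉ X.H) : x * X.t⁻¹ ∉ X.H := by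
  intro h
  have := X.H_t _ h
  rw [inv_mul_cancel_right] at this
  exact h1 this

theorem tL_H {z : G} (hz : z ∈ X.L) : X.t * z ∈ X.H := X.H_L _ _ hz X.t_H

theorem Bt_H {x : G} (hx : x ∈ X.B) : x * X.t ∈ X.H := by
  have : x * X.t = X.t * (X.t⁻¹ * x * X.t) := by group
  rw [this]
  exact X.tL_H (X.P_le x hx)

theorem mem_B {z : G} (hz : z ∈ X.L) (h2 : X.t⁻¹ * z * X.t ∈ X.L) : z ∈ X.B := by
  apply X.enter (X.L_nH hz)
  have : z * X.t = X.t * (X.t⁻¹ * z * X.t) := by group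
  rw [this]
  exact X.tL_H h2

theorem B_H {β : G} (hβ : β ∈ X.B) (x : G) : β * x ∈ X.H ↔ x ∈ X.H := by
  induction x using X.induc with
  | one => rw [mul_one]; exact iff_of_false (X.L_nH (X.B_le _ hβ)) X.one_nH
  | lam g z hz ih => rw [← mul_assoc, X.H_L_iff hz, X.H_L_iff hz, ih]
  | up g ih =>
    rw [← mul_assoc]
    by_cases hg : g ∈ X.H
    · exact iff_of_true (X.H_t _ (ih.2 hg)) (X.H_t _ hg)
    · have hg' : β * g ∉ X.H := fun h => hg (ih.1 h)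
      constructor
      · intro h
        have := X.enter hg' h
        exact X.Bt_H ((X.B.mul_mem_cancel_left hβ).1 this)
      · intro h
        exact X.Bt_H (X.B.mul_mem hβ (X.enter hg h))
  | down g ih =>
    rw [← mul_assoc]
    by_cases hg : g ∈ X.H
    · have hg' : β * g ∈ X.H := ih.2 hg
      rw [← not_iff_not]
      constructor
      · intro h
        have := X.H_exit _ hg' h
        rw [mul_assoc] at this
        exact X.L_nH (X.B_le _ ((X.B.mul_mem_cancel_left hβ).1 this))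
      · intro h
        have := X.H_exit _ hg h
        rw [mul_assoc]
        exact X.L_nH (X.B_le _ (X.B.mul_mem hβ this))
    · have hg' : β * g ∉ X.H := fun h => hg (ih.1 h)
      exact iff_of_false (X.nH_tinv hg') (X.nH_tinv hg)

theorem nest {z : G} (hz : z ∈ X.L) (x : G) : x ∈ X.H → X.t * z * x ∈ X.H := by
  induction x using X.induc with
  | one => intro h; exact absurd h X.one_nH
  | lam g w hw ih =>
    intro h
    rw [← mul_assoc]
    exact X.H_L _ _ hw (ih ((X.H_L_iff hw).1 h))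
  | up g ih =>
    intro h
    rw [← mul_assoc]
    by_cases hg : g ∈ X.H
    · exact X.H_t _ (ih hg)
    · have := X.B_le _ (X.enter hg h)
      apply X.H_t
      rw [mul_assoc]
      exact X.tL_H (X.L.mul_mem hz this)
  | down g ih =>
    intro h
    have hg : g ∈ X.H := by
      by_contra hg
      exact X.nH_tinv hg h
    rw [← mul_assoc]
    by_contra hc
    have h1 := X.B_le _ (X.H_exit _ (ih hg) hc)
    have h2 : g * X.t⁻¹ = (z⁻¹ * X.t⁻¹) * (X.t * z * g * X.t⁻¹) := by group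
    rw [h2, X.H_L_iff h1] at h
    exact X.nH_tinv (X.L_nH (X.L.inv_mem hz)) h

theorem disj {z : G} (hz : z ∈ X.L) (hB : z ∉ X.B) (x : G) : x ∈ X.H → z * x ∉ X.H := by
  induction x using X.induc with
  | one => intro h; exact absurd h X.one_nH
  | lam g w hw ih =>
    intro h
    rw [← mul_assoc, X.H_L_iff hw]
    exact ih ((X.H_L_iff hw).1 h)
  | up g ih =>
    intro h hc
    rw [← mul_assoc] at hc
    by_cases hg : g ∈ X.H
    · have h1 := X.B_le _ (X.enter (ih hg) hc)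
      exact X.L_nH ((X.L.mul_mem_cancel_left hz).1 h1) hg
    · have h1 := X.enter hg h
      have h2 : z * g ∉ X.H := X.L_nH (X.L.mul_mem hz (X.B_le _ h1))
      have h3 := X.enter h2 hc
      exact hB ((X.B.mul_mem_cancel_right h1).1 h3)
  | down g ih =>
    intro h
    have hg : g ∈ X.H := by
      by_contra hg
      exact X.nH_tinv hg h
    rw [← mul_assoc]
    exact X.nH_tinv (ih hg)

theorem memB_of {z x : G} (hz : z ∈ X.L) (h1 : x ∈ X.H) (h2 : z * x ∈ X.H) : z ∈ X.B := by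
  by_contra hB
  exact X.disj hz hB x h1 h2

/-- generators -/
def Let (s : G) : Prop := s ∈ X.L ∨ s = X.t ∨ s = X.t⁻¹

theorem enter_let {x s : G} (hs : X.Let s) (h1 : x ∉ X.H) (h2 : x * s ∈ X.H) : x ∈ X.B := by
  rcases hs with hs | rfl | rfl
  · exact absurd ((X.H_L_iff hs).1 h2) h1
  · exact X.enter h1 h2
  · exact absurd h2 (X.nH_tinv h1)

/-- the reversed structure -/
def flip : Pre G V where
  L := X.L
  B := X.B.comap (MulAut.conj X.t).toMonoidHom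
  t := X.t⁻¹
  H := {x | X.t * x ∉ X.H}
  h := fun x => - X.h x
  A := X.A⁻¹
  b := X.b
  comm := X.comm
  B_le := by
    intro x hx
    have h1 : X.t * x * X.t⁻¹ ∈ X.B := hx
    have := X.P_le _ h1
    rwa [show X.t⁻¹ * (X.t * x * X.t⁻¹) * X.t = x by group] at this
  P_le := by
    intro x hx
    have h1 : X.t * x * X.t⁻¹ ∈ X.B := hx
    rw [inv_inv]
    exact X.B_le _ h1
  gen := by
    intro p h1 h2 h3 h4
    exact X.gen p h1 h2 (by simpa using h4) h3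
  cms := X.cms
  H_L := by
    intro x z hz hx
    show X.t * (x * z) ∉ X.H
    rw [← mul_assoc, X.H_L_iff hz]
    exact hx
  one_nH := by
    show ¬ (X.t * 1 ∉ X.H)
    rw [mul_one, not_not]; exact X.t_H
  t_H := by
    show X.t * X.t⁻¹ ∉ X.H
    rw [mul_inv_cancel]; exact X.one_nH
  H_t := by
    intro x hx
    show X.t * (x * X.t⁻¹) ∉ X.H
    rw [← mul_assoc]
    exact X.nH_tinv hx
  H_exit := by
    intro x hx h2
    have h3 : X.t * x * X.t ∈ X.H := by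
      by_contra hc
      apply h2
      show X.t * (x * X.t⁻¹⁻¹) ∉ X.H
      rwa [inv_inv, ← mul_assoc]
    have h4 := X.enter hx h3
    show X.t * (x * X.t⁻¹⁻¹) * X.t⁻¹ ∈ X.B
    rwa [inv_inv, ← mul_assoc, mul_inv_cancel_right]
  h_mul := by intro x y; rw [X.h_mul]; ring
  h_L := by intro z hz; rw [X.h_L z hz]; rfl
  h_t := by rw [X.h_inv, X.h_t]; rfl
  b_mul := by
    intro x y
    rw [X.b_mul, inv_zpow', neg_neg]

theorem flip_let {s : G} (hs : X.Let s) : X.flip.Let s := by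
  rcases hs with hs | rfl | rfl
  · exact Or.inl hs
  · exact Or.inr (Or.inr (by simp [flip]))
  · exact Or.inr (Or.inl rfl)

/-- elements `m` steps above the base edge -/
def S (X : Pre G V) : ℕ → Set G
  | 0 => X.B
  | m + 1 => {g | ∃ z ∈ X.L, ∃ g' ∈ X.S m, g = X.t * z * g'}

theorem S_zero (g : G) : g ∈ X.S 0 ↔ g ∈ X.B := Iff.rfl

theorem S_succ (m : ℕ) (g : G) :
    g ∈ X.S (m + 1) ↔ ∃ z ∈ X.L, ∃ g' ∈ X.S m, g = X.t * z * g' := Iff.rfl

theorem S_B {β : G} (hβ : β ∈ X.B) {m : ℕ} {g : G} (hg : g ∈ X.S m) : β * g ∈ X.S m := by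
  cases m with
  | zero => exact X.B.mul_mem hβ hg
  | succ m =>
    obtain ⟨z, hz, g', hg', rfl⟩ := hg
    exact ⟨X.t⁻¹ * β * X.t * z, X.L.mul_mem (X.P_le β hβ) hz, g', hg', by group⟩

theorem S_h {m : ℕ} {g : G} (hg : g ∈ X.S m) : X.h g = m := by
  induction m generalizing g with
  | zero => exact X.h_L _ (X.B_le _ hg)
  | succ m ih =>
    obtain ⟨z, hz, g', hg', rfl⟩ := hg
    rw [X.h_mul, X.h_mul, X.h_t, X.h_L z hz, ih hg']; push_cast; ring

theorem S_H {m : ℕ} {g : G} (hg : g ∈ X.S (m + 1)) : g ∈ X.H := by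
  induction m generalizing g with
  | zero =>
    obtain ⟨z, hz, g', hg', rfl⟩ := hg
    rw [mul_assoc]
    exact X.tL_H (X.L.mul_mem hz (X.B_le _ hg'))
  | succ m ih =>
    obtain ⟨z, hz, g', hg', rfl⟩ := hg
    exact X.nest hz _ (ih hg')

theorem S_up {m : ℕ} {g z : G} (hg : g ∈ X.S m) (hz : z ∈ X.L) : g * X.t * z ∈ X.S (m + 1) := by
  induction m generalizing g with
  | zero =>
    exact ⟨X.t⁻¹ * g * X.t * z, X.L.mul_mem (X.P_le g hg) hz, 1, X.B.one_mem, by group⟩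
  | succ m ih =>
    obtain ⟨w, hw, g', hg', rfl⟩ := hg
    exact ⟨w, hw, g' * X.t * z, ih hg', by group⟩

theorem S_down {m : ℕ} {g : G} (hg : g ∈ X.S (m + 1)) :
    ∃ g' ∈ X.S m, ∃ z ∈ X.L, g = g' * X.t * z := by
  induction m generalizing g with
  | zero =>
    obtain ⟨z, hz, g', hg', rfl⟩ := hg
    exact ⟨1, X.B.one_mem, z * g', X.L.mul_mem hz (X.B_le _ hg'), by group⟩
  | succ m ih =>
    obtain ⟨w, hw, g', hg', rfl⟩ := hg
    obtain ⟨g'', h1, z, hz, rfl⟩ := ih hg'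
    exact ⟨X.t * w * g'', ⟨w, hw, g'', h1, rfl⟩, z, hz, by group⟩

theorem S_L {m : ℕ} {g z : G} (hg : g ∈ X.S (m + 1)) (hz : z ∈ X.L) : g * z ∈ X.S (m + 1) := by
  obtain ⟨g', h1, w, hw, rfl⟩ := X.S_down hg
  rw [mul_assoc]
  exact X.S_up h1 (X.L.mul_mem hw hz)

theorem S_Br {m : ℕ} {g β : G} (hg : g ∈ X.S m) (hβ : β ∈ X.B) : g * β ∈ X.S m := by
  cases m with
  | zero => exact X.B.mul_mem hg hβ
  | succ m => exact X.S_L hg (X.B_le _ hβ)

theorem S_add {m k : ℕ} {g g' : G} (hg : g ∈ X.S m) (hg' : g' ∈ X.S k) : g * g' ∈ X.S (m + k) := by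
  induction m generalizing g with
  | zero => rw [Nat.zero_add]; exact X.S_B hg hg'
  | succ m ih =>
    obtain ⟨w, hw, g1, h1, rfl⟩ := hg
    rw [Nat.add_right_comm]
    exact ⟨w, hw, g1 * g', ih h1, by group⟩

/-- uniqueness of the parent -/
theorem S_parent {m : ℕ} {g g' z z' : G} (hg : g ∈ X.S m) (hg' : g' ∈ X.S m) (hz : z ∈ X.L)
    (hz' : z' ∈ X.L) (he : g * X.t * z = g' * X.t * z') : g'⁻¹ * g ∈ X.B := by
  induction m generalizing g g' with
  | zero => exact X.B.mul_mem (X.B.inv_mem hg') hg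
  | succ m ih =>
    obtain ⟨w, hw, g1, h1, rfl⟩ := hg
    obtain ⟨w', hw', g1', h1', rfl⟩ := hg'
    have k1 : g1 * X.t * z ∈ X.H := X.S_H (X.S_up h1 hz)
    have k2 : g1' * X.t * z' ∈ X.H := X.S_H (X.S_up h1' hz')
    have e : w'⁻¹ * w * (g1 * X.t * z) = g1' * X.t * z' := by
      have : g1' * X.t * z' = (X.t * w')⁻¹ * (X.t * w' * g1' * X.t * z') := by group
      rw [this, ← he]; group
    have k3 : w'⁻¹ * w ∈ X.B :=
      X.memB_of (X.L.mul_mem (X.L.inv_mem hw') hw) k1 (by rw [e]; exact k2)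
    have := ih (X.S_B k3 h1) h1' (by rw [← e]; group)
    rwa [show (X.t * w' * g1')⁻¹ * (X.t * w * g1) = g1'⁻¹ * (w'⁻¹ * w * g1) by group]

end Pre

/-- exact transversals -/
theorem exists_transv (Γ Λ : Subgroup G) (hle : ∀ x ∈ Γ, x ∈ Λ) (R : Finset G)
    (h1 : ∀ r ∈ R, r ∈ Λ) (h2 : ∀ z ∈ Λ, ∃ r ∈ R, z * r⁻¹ ∈ Γ) :
    ∃ R' : Finset G, (∀ r ∈ R', r ∈ Λ) ∧ (∀ z ∈ Λ, ∃ r ∈ R', z * r⁻¹ ∈ Γ) ∧
      ∀ r ∈ R', ∀ r' ∈ R', r * r'⁻¹ ∈ Γ → r = r' := by
  let rep : G → G := fun z => (Quotient.mk (QuotientGroup.rightRel Γ) z).out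
  have hrep : ∀ z, z * (rep z)⁻¹ ∈ Γ := by
    intro z
    have : (QuotientGroup.rightRel Γ) (rep z) z := Quotient.exact (Quotient.out_eq _)
    exact QuotientGroup.rightRel_apply.1 this
  have hrep2 : ∀ z z', z * z'⁻¹ ∈ Γ → rep z = rep z' := by
    intro z z' h
    have : Quotient.mk (QuotientGroup.rightRel Γ) z' = Quotient.mk (QuotientGroup.rightRel Γ) z :=
      Quotient.sound (QuotientGroup.rightRel_apply.2 h)
    simp only [rep, this]
  refine ⟨R.image rep, ?_, ?_, ?_⟩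
  · intro r hr
    obtain ⟨r0, hr0, rfl⟩ := Finset.mem_image.1 hr
    have := Λ.mul_mem (Λ.inv_mem (hle _ (hrep r0))) (h1 r0 hr0)
    rwa [show (r0 * (rep r0)⁻¹)⁻¹ * r0 = rep r0 by group] at this
  · intro z hz
    obtain ⟨r, hr, h⟩ := h2 z hz
    refine ⟨rep r, Finset.mem_image_of_mem _ hr, ?_⟩
    have := Γ.mul_mem h (hrep r)
    rwa [show z * r⁻¹ * (r * (rep r)⁻¹) = z * (rep r)⁻¹ by group] at this
  · intro r hr r' hr' h
    obtain ⟨r0, -, rfl⟩ := Finset.mem_image.1 hr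
    obtain ⟨r1, -, rfl⟩ := Finset.mem_image.1 hr'
    apply hrep2
    have := Γ.mul_mem (Γ.mul_mem (hrep r0) h) (Γ.inv_mem (hrep r1))
    rwa [show r0 * (rep r0)⁻¹ * (rep r0 * (rep r1)⁻¹) * (r1 * (rep r1)⁻¹)⁻¹ = r0 * r1⁻¹ by group]
      at this

/-- the subgroup `L ∩ g L g⁻¹` -/
def Pre.Gam (X : Pre G V) (g : G) : Subgroup G :=
  X.L ⊓ X.L.comap (MulAut.conj g⁻¹).toMonoidHom

theorem Pre.mem_Gam (X : Pre G V) (g z : G) : z ∈ X.Gam g ↔ z ∈ X.L ∧ g⁻¹ * z * g ∈ X.L := by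
  simp [Pre.Gam, Subgroup.mem_inf, Subgroup.mem_comap]

theorem Pre.transv (X : Pre G V) (g : G) :
    ∃ R : Finset G, (∀ r ∈ R, r ∈ X.L) ∧ (∀ z ∈ X.L, ∃ r ∈ R, z * r⁻¹ ∈ X.Gam g) ∧
      ∀ r ∈ R, ∀ r' ∈ R, r * r'⁻¹ ∈ X.Gam g → r = r' := by
  obtain ⟨R, h1, h2⟩ := X.cms g
  refine exists_transv (X.Gam g) X.L (fun x hx => ((X.mem_Gam g x).1 hx).1) R h1 ?_
  intro z hz
  obtain ⟨r, hr, h⟩ := h2 z hz
  exact ⟨r, hr, (X.mem_Gam _ _).2 ⟨X.L.mul_mem hz (X.L.inv_mem (h1 r hr)), h⟩⟩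

namespace HS

variable (X : HS G V)

instance : X.N.Normal := X.N_normal

/-- class modulo `N` -/
def cl (g : G) : G ⧸ X.N := QuotientGroup.mk g

theorem cl_mul (x y : G) : X.cl (x * y) = X.cl x * X.cl y := rfl
theorem cl_inv (x : G) : X.cl x⁻¹ = (X.cl x)⁻¹ := rfl
theorem cl_one : X.cl 1 = 1 := rfl
theorem cl_eq {x y : G} : X.cl x = X.cl y ↔ x⁻¹ * y ∈ X.N := QuotientGroup.eq
theorem cl_N {x : G} (hx : x ∈ X.N) : X.cl x = 1 := (QuotientGroup.eq_one_iff x).2 hx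

theorem N_B {x : G} (hx : x ∈ X.N) : x ∈ X.B := by
  apply X.mem_B (X.N_le x hx)
  apply X.N_le
  have := X.N_normal.conj_mem x hx X.t⁻¹
  rwa [inv_inv] at this

theorem N_H {x : G} (hx : x ∈ X.N) (g : G) : x * g ∈ X.H ↔ g ∈ X.H := X.B_H (X.N_B hx) g

theorem fin_bound (F : Set (G ⧸ X.N)) (hF : F.Finite) (f : G → ℝ)
    (hf : ∀ x y, y ∈ X.N → f (x * y) = f x) : ∃ C : ℝ, 0 ≤ C ∧ ∀ x, X.cl x ∈ F → f x ≤ C := by
  obtain ⟨C, hC⟩ := (hF.image (fun q => f q.out)).bddAbove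
  refine ⟨max C 0, le_max_right _ _, fun x hx => ?_⟩
  have h1 : f (X.cl x).out ≤ C := hC ⟨_, hx, rfl⟩
  have h2 : (X.cl x).out⁻¹ * x ∈ X.N := by
    rw [← X.cl_eq]; exact Quotient.out_eq _
  have h3 := hf (X.cl x).out _ h2
  rw [mul_inv_cancel_left] at h3
  rw [h3]
  exact h1.trans (le_max_left _ _)

theorem h_bound (F : Set (G ⧸ X.N)) (hF : F.Finite) :
    ∃ C : ℕ, ∀ x, X.cl x ∈ F → |X.h x| ≤ C := by
  obtain ⟨C, -, hC⟩ := X.fin_bound F hF (fun x => ((|X.h x| : ℤ) : ℝ)) (by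
    intro x y hy
    rw [X.h_mul, X.h_L y (X.N_le y hy), add_zero])
  refine ⟨⌈C⌉₊, fun x hx => ?_⟩
  have h1 := (hC x hx).trans (Nat.le_ceil C)
  exact_mod_cast h1

theorem conj_fin (F : Set (G ⧸ X.N)) (hF : F.Finite) (κ : G) (hκ : (X.M : ℤ) ∣ X.h κ) :
    {g | ∃ q, X.cl q ∈ F ∧ g = q⁻¹ * κ * q}.Finite := by
  refine (hF.image (fun c => c.out⁻¹ * κ * c.out)).subset ?_
  rintro g ⟨q, hq, rfl⟩
  refine ⟨X.cl q, hq, ?_⟩
  have h2 : (X.cl q).out⁻¹ * q ∈ X.N := by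
    rw [← X.cl_eq]; exact Quotient.out_eq _
  show (X.cl q).out⁻¹ * κ * (X.cl q).out = q⁻¹ * κ * q
  generalize (X.cl q).out = f at h2 ⊢
  have h3 := X.N_cent (f⁻¹ * κ * f) (by
    rw [X.h_mul, X.h_mul, X.h_inv]
    rwa [show -X.h f + X.h κ + X.h f = X.h κ by ring]) _ h2
  have h4 : q = f * (f⁻¹ * q) := by group
  generalize f⁻¹ * q = n at h2 h3 h4
  rw [h4]
  calc f⁻¹ * κ * f = n⁻¹ * (n * (f⁻¹ * κ * f)) := by group
    _ = n⁻¹ * (f⁻¹ * κ * f * n) := by rw [h3]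
    _ = (f * n)⁻¹ * κ * (f * n) := by group

/-- the reversed structure -/
def flip : HS G V where
  toPre := X.toPre.flip
  N := X.N
  N_normal := X.N_normal
  N_le := X.N_le
  M := X.M
  M_pos := X.M_pos
  N_cent := by
    intro g hg
    exact X.N_cent g ((dvd_neg).1 hg)
  per := by
    obtain ⟨F, hF, h⟩ := X.per
    refine ⟨F, hF, fun z hz j hj he => h z hz (-j) (neg_ne_zero.2 hj) ?_⟩
    have : (X.A⁻¹ ^ j) (X.b z) = X.b z := he
    rwa [inv_zpow'] at this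

end HS

end

end Pool.Agent.H870Z.LM
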