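import Mathlib
import Pool.Agent.Helper378.PD.A1
import Pool.Agent.H870Z.LM.Basic

set_option autoImplicit false

open scoped Classical
open Filter Topology

namespace Pool.Agent.H870Z.LM

noncomputable section

/-- bounded functions supported in a member of the ideal -/
def BS {Ω : Type} (I : Set Ω → Prop) (f : Ω → ℝ) : Prop :=
  (∃ C : ℝ, ∀ x, |f x| ≤ C) ∧ I {x | f x ≠ 0}

/-- indicator -/
def ind {Ω : Type} (A : Set Ω) (x : Ω) : ℝ := if x ∈ A then 1 else 0

theorem ind_mem {Ω : Type} {A : Set Ω} {x : Ω} (h : x ∈ A) : ind A x = 1 := if_pos h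
theorem ind_nmem {Ω : Type} {A : Set Ω} {x : Ω} (h : x ∉ A) : ind A x = 0 := if_neg h
theorem ind_nonneg {Ω : Type} (A : Set Ω) (x : Ω) : 0 ≤ ind A x := by
  unfold ind; split_ifs <;> norm_num
theorem ind_abs {Ω : Type} (A : Set Ω) (x : Ω) : |ind A x| ≤ 1 := by
  unfold ind; split_ifs <;> norm_num

/-- positive functionals -/
structure PF (Ω : Type) where
  I : Set Ω → Prop
  I_empty : I ∅
  I_mono : ∀ A B, A ⊆ B → I B → I A
  I_union : ∀ A B, I A → I B → I (A ∪ B)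
  J : (Ω → ℝ) → ℝ
  add : ∀ f g, BS I f → BS I g → J (fun x => f x + g x) = J f + J g
  smul : ∀ (c : ℝ) f, BS I f → J (fun x => c * f x) = c * J f
  nonneg : ∀ f, BS I f → (∀ x, 0 ≤ f x) → 0 ≤ J f

namespace PF

variable {Ω : Type} (P : PF Ω)

theorem bs_of {f : Ω → ℝ} {A : Set Ω} (hA : P.I A) (C : ℝ) (h : ∀ x, |f x| ≤ C * ind A x) :
    BS P.I f := by
  refine ⟨⟨|C|, fun x => (h x).trans ?_⟩, P.I_mono _ _ (fun x hx => ?_) hA⟩
  · calc C * ind A x ≤ |C * ind A x| := le_abs_self _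
      _ = |C| * |ind A x| := abs_mul _ _
      _ ≤ |C| * 1 := mul_le_mul_of_nonneg_left (ind_abs A x) (abs_nonneg _)
      _ = |C| := mul_one _
  · by_contra hc
    have := h x
    rw [ind_nmem hc, mul_zero] at this
    exact hx (abs_nonpos_iff.1 this)

theorem bs_ind {A : Set Ω} (hA : P.I A) : BS P.I (ind A) :=
  P.bs_of hA 1 fun x => by rw [one_mul, abs_of_nonneg (ind_nonneg A x)]

theorem bs_zero : BS P.I (fun _ => 0) := ⟨⟨0, by simp⟩, by simpa using P.I_empty⟩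

theorem bs_add {f g : Ω → ℝ} (hf : BS P.I f) (hg : BS P.I g) : BS P.I (fun x => f x + g x) := by
  obtain ⟨⟨C, hC⟩, h1⟩ := hf
  obtain ⟨⟨D, hD⟩, h2⟩ := hg
  refine ⟨⟨C + D, fun x => (abs_add_le _ _).trans (add_le_add (hC x) (hD x))⟩,
    P.I_mono _ _ (fun x hx => ?_) (P.I_union _ _ h1 h2)⟩
  by_contra hc
  simp only [Set.mem_union, Set.mem_ofPred_eq, not_or, not_not] at hc
  exact hx (by simp [hc.1, hc.2])

theorem bs_mul {f g : Ω → ℝ} (hg : ∃ C : ℝ, ∀ x, |g x| ≤ C) (hf : BS P.I f) :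
    BS P.I (fun x => g x * f x) := by
  obtain ⟨⟨C, hC⟩, h1⟩ := hf
  obtain ⟨D, hD⟩ := hg
  refine ⟨⟨D * C, fun x => ?_⟩, P.I_mono _ _ (fun x hx => ?_) h1⟩
  · rw [abs_mul]
    exact mul_le_mul (hD x) (hC x) (abs_nonneg _) ((abs_nonneg _).trans (hD x))
  · intro h0
    exact hx (by simp [show f x = 0 from h0])

theorem bs_smul {f : Ω → ℝ} (c : ℝ) (hf : BS P.I f) : BS P.I (fun x => c * f x) :=
  P.bs_mul (g := fun _ => c) ⟨|c|, fun _ => le_rfl⟩ hf

theorem bs_sub {f g : Ω → ℝ} (hf : BS P.I f) (hg : BS P.I g) : BS P.I (fun x => f x - g x) := by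
  have := P.bs_add hf (P.bs_smul (-1) hg)
  simpa [sub_eq_add_neg] using this

theorem bs_sum {ι : Type} (s : Finset ι) {f : ι → Ω → ℝ} (hf : ∀ i ∈ s, BS P.I (f i)) :
    BS P.I (fun x => ∑ i ∈ s, f i x) := by
  induction s using Finset.induction_on with
  | empty => simpa using P.bs_zero
  | insert a s ha ih =>
    simp only [Finset.sum_insert ha]
    exact P.bs_add (hf a (Finset.mem_insert_self _ _))
      (ih fun i hi => hf i (Finset.mem_insert_of_mem hi))

theorem J_zero : P.J (fun _ => 0) = 0 := by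
  have := P.smul 0 _ P.bs_zero
  simpa using this

theorem J_sub {f g : Ω → ℝ} (hf : BS P.I f) (hg : BS P.I g) :
    P.J (fun x => f x - g x) = P.J f - P.J g := by
  have h1 := P.add _ _ hf (P.bs_smul (-1) hg)
  rw [P.smul _ _ hg] at h1
  simpa [sub_eq_add_neg] using h1

theorem J_mono {f g : Ω → ℝ} (hf : BS P.I f) (hg : BS P.I g) (h : ∀ x, f x ≤ g x) :
    P.J f ≤ P.J g := by
  have := P.nonneg _ (P.bs_sub hg hf) (fun x => sub_nonneg.2 (h x))
  rw [P.J_sub hg hf] at this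
  linarith

theorem J_sum {ι : Type} (s : Finset ι) {f : ι → Ω → ℝ} (hf : ∀ i ∈ s, BS P.I (f i)) :
    P.J (fun x => ∑ i ∈ s, f i x) = ∑ i ∈ s, P.J (f i) := by
  induction s using Finset.induction_on with
  | empty => simpa using P.J_zero
  | insert a s ha ih =>
    simp only [Finset.sum_insert ha]
    rw [P.add _ _ (hf a (Finset.mem_insert_self _ _))
      (P.bs_sum s fun i hi => hf i (Finset.mem_insert_of_mem hi)),
      ih fun i hi => hf i (Finset.mem_insert_of_mem hi)]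

/-- the mass of a set -/
def mu (A : Set Ω) : ℝ := P.J (ind A)

theorem mu_nonneg {A : Set Ω} (hA : P.I A) : 0 ≤ P.mu A :=
  P.nonneg _ (P.bs_ind hA) (ind_nonneg A)

theorem J_abs_le {f : Ω → ℝ} {A : Set Ω} (hA : P.I A) (C : ℝ) (h : ∀ x, |f x| ≤ C * ind A x) :
    |P.J f| ≤ C * P.mu A := by
  have hf := P.bs_of hA C h
  have h1 : P.J (fun x => C * ind A x) = C * P.mu A := P.smul C _ (P.bs_ind hA)
  have h2 := P.bs_smul C (P.bs_ind hA)
  rw [abs_le]
  constructor
  · have h3 := P.J_mono (P.bs_smul (-1) h2) hf (fun x => by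
      have := (abs_le.1 (h x)).1; linarith)
    rw [P.smul _ _ h2, h1] at h3
    linarith
  · rw [← h1]
    exact P.J_mono hf h2 fun x => (le_abs_self _).trans (h x)

theorem mu_empty : P.mu ∅ = 0 := by
  have : ind (∅ : Set Ω) = fun _ => 0 := by funext x; exact ind_nmem (Set.notMem_empty x)
  unfold mu; rw [this, P.J_zero]

theorem mu_mono {A B : Set Ω} (h : A ⊆ B) (hB : P.I B) : P.mu A ≤ P.mu B := by
  refine P.J_mono (P.bs_ind (P.I_mono _ _ h hB)) (P.bs_ind hB) fun x => ?_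
  by_cases hx : x ∈ A
  · rw [ind_mem hx, ind_mem (h hx)]
  · rw [ind_nmem hx]; exact ind_nonneg _ _

theorem I_biUnion {ι : Type} (s : Finset ι) {A : ι → Set Ω} (hA : ∀ i ∈ s, P.I (A i)) :
    P.I (⋃ i ∈ s, A i) := by
  induction s using Finset.induction_on with
  | empty => simpa using P.I_empty
  | insert a s ha ih =>
    rw [Finset.set_biUnion_insert]
    exact P.I_union _ _ (hA a (Finset.mem_insert_self _ _))
      (ih fun i hi => hA i (Finset.mem_insert_of_mem hi))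

/-- covering bound -/
theorem mu_le_sum {ι : Type} (s : Finset ι) {A : ι → Set Ω} {B : Set Ω} (hA : ∀ i ∈ s, P.I (A i))
    (h : ∀ x ∈ B, ∃ i ∈ s, x ∈ A i) : P.mu B ≤ ∑ i ∈ s, P.mu (A i) := by
  have hB : P.I B := P.I_mono _ _ (fun x hx => by
    obtain ⟨i, hi, h2⟩ := h x hx
    exact Set.mem_biUnion hi h2) (P.I_biUnion s hA)
  unfold mu
  rw [← P.J_sum s fun i hi => P.bs_ind (hA i hi)]
  refine P.J_mono (P.bs_ind hB) (P.bs_sum s fun i hi => P.bs_ind (hA i hi)) fun x => ?_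
  by_cases hx : x ∈ B
  · obtain ⟨i, hi, h2⟩ := h x hx
    rw [ind_mem hx, ← ind_mem h2]
    exact Finset.single_le_sum (f := fun i => ind (A i) x) (fun j _ => ind_nonneg _ _) hi
  · rw [ind_nmem hx]
    exact Finset.sum_nonneg fun j _ => ind_nonneg _ _

/-- packing bound with multiplicity -/
theorem sum_mu_le {ι : Type} (s : Finset ι) {A : ι → Set Ω} {B : Set Ω} (hB : P.I B)
    (h1 : ∀ i ∈ s, A i ⊆ B) (C : ℝ) (h2 : ∀ x ∈ B, ((s.filter fun i => x ∈ A i).card : ℝ) ≤ C) :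
    ∑ i ∈ s, P.mu (A i) ≤ C * P.mu B := by
  have hA : ∀ i ∈ s, P.I (A i) := fun i hi => P.I_mono _ _ (h1 i hi) hB
  unfold mu
  rw [← P.J_sum s fun i hi => P.bs_ind (hA i hi), ← P.smul C _ (P.bs_ind hB)]
  refine P.J_mono (P.bs_sum s fun i hi => P.bs_ind (hA i hi)) (P.bs_smul C (P.bs_ind hB))
    fun x => ?_
  have e : ∑ i ∈ s, ind (A i) x = ((s.filter fun i => x ∈ A i).card : ℝ) := by
    unfold ind
    rw [Finset.sum_boole]
  rw [e]
  by_cases hx : x ∈ B
  · rw [ind_mem hx, mul_one]; exact h2 x hx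
  · rw [ind_nmem hx, mul_zero, Finset.filter_eq_empty_iff.2 fun i hi h => hx (h1 i hi h)]
    simp

theorem sum_mu_le_one {ι : Type} (s : Finset ι) {A : ι → Set Ω} {B : Set Ω} (hB : P.I B)
    (h1 : ∀ i ∈ s, A i ⊆ B) (h2 : ∀ i ∈ s, ∀ j ∈ s, ∀ x, x ∈ A i → x ∈ A j → i = j) :
    ∑ i ∈ s, P.mu (A i) ≤ P.mu B := by
  have := P.sum_mu_le s hB h1 1 (fun x _ => by
    have : (s.filter fun i => x ∈ A i).card ≤ 1 := by
      rw [Finset.card_le_one]
      intro i hi j hj
      rw [Finset.mem_filter] at hi hj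
      exact h2 i hi.1 j hj.1 x hi.2 hj.2
    exact_mod_cast this)
  rwa [one_mul] at this

/-- exact partitions -/
theorem mu_eq_sum {ι : Type} (s : Finset ι) {A : ι → Set Ω} {B : Set Ω} (hB : P.I B)
    (h1 : ∀ i ∈ s, A i ⊆ B) (h2 : ∀ i ∈ s, ∀ j ∈ s, ∀ x, x ∈ A i → x ∈ A j → i = j)
    (h3 : ∀ x ∈ B, ∃ i ∈ s, x ∈ A i) : P.mu B = ∑ i ∈ s, P.mu (A i) :=
  le_antisymm (P.mu_le_sum s (fun i hi => P.I_mono _ _ (h1 i hi) hB) h3)
    (P.sum_mu_le_one s hB h1 h2)

theorem mu_le_add {A B C : Set Ω} (hA : P.I A) (hB : P.I B) (h : C ⊆ A ∪ B) :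
    P.mu C ≤ P.mu A + P.mu B := by
  have := P.mu_le_sum (Finset.univ : Finset Bool) (A := fun b => if b then A else B) (B := C)
    (fun b _ => by cases b <;> simpa) (fun x hx => by
      rcases h hx with h1 | h1
      · exact ⟨true, Finset.mem_univ _, by simpa⟩
      · exact ⟨false, Finset.mem_univ _, by simpa⟩)
  simpa using this

theorem mu_diff {A B : Set Ω} (hB : P.I B) (h : A ⊆ B) : P.mu (B \ A) = P.mu B - P.mu A := by
  unfold mu
  rw [← P.J_sub (P.bs_ind hB) (P.bs_ind (P.I_mono _ _ h hB))]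
  congr 1
  funext x
  by_cases h1 : x ∈ A
  · rw [ind_mem h1, ind_mem (h h1), ind_nmem (fun hh => hh.2 h1), sub_self]
  · by_cases h2 : x ∈ B
    · rw [ind_nmem h1, ind_mem h2, ind_mem (show x ∈ B \ A from ⟨h2, h1⟩), sub_zero]
    · rw [ind_nmem h1, ind_nmem h2, ind_nmem (fun hh => h2 hh.1), sub_zero]

end PF

/-! ### Banach limit -/

/-- Cesaro average -/
def cav (f : ℕ → ℝ) (N : ℕ) : ℝ := (∑ i ∈ Finset.range (N + 1), f i) / ((N : ℝ) + 1)

theorem cav_abs {f : ℕ → ℝ} {C : ℝ} (h : ∀ n, |f n| ≤ C) (N : ℕ) : |cav f N| ≤ C := by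
  unfold cav
  have hN : (0 : ℝ) < (N : ℝ) + 1 := by positivity
  rw [abs_div, abs_of_pos hN, div_le_iff₀ hN]
  refine (Finset.abs_sum_le_sum_abs _ _).trans ?_
  refine (Finset.sum_le_sum fun i _ => h i).trans ?_
  rw [Finset.sum_const, Finset.card_range, nsmul_eq_mul]
  push_cast
  rw [mul_comm]

/-- Banach limit -/
def blim (f : ℕ → ℝ) : ℝ := limUnder (hyperfilter ℕ : Filter ℕ) (cav f)

theorem tendsto_blim {f : ℕ → ℝ} (h : ∃ C : ℝ, ∀ n, |f n| ≤ C) :
    Tendsto (cav f) (hyperfilter ℕ : Filter ℕ) (𝓝 (blim f)) := by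
  obtain ⟨C, hC⟩ := h
  obtain ⟨a, -, ha⟩ := (isCompact_Icc (a := -C) (b := C)).ultrafilter_le_nhds
    ((hyperfilter ℕ).map (cav f)) (by
      rw [le_principal_iff]
      exact Filter.mem_map.2 (Filter.univ_mem' fun N => abs_le.1 (cav_abs hC N)))
  exact tendsto_nhds_limUnder ⟨a, ha⟩

/-- the Banach limit as a positive functional -/
def BL : PF ℕ where
  I := fun _ => True
  I_empty := trivial
  I_mono := fun _ _ _ _ => trivial
  I_union := fun _ _ _ _ => trivial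
  J := blim
  add := by
    intro f g hf hg
    obtain ⟨C, hC⟩ := hf.1
    obtain ⟨D, hD⟩ := hg.1
    refine tendsto_nhds_unique (tendsto_blim ⟨C + D, fun n =>
      (abs_add_le _ _).trans (add_le_add (hC n) (hD n))⟩) ?_
    have : cav (fun i => f i + g i) = fun N => cav f N + cav g N := by
      funext N; unfold cav; rw [Finset.sum_add_distrib, add_div]
    rw [this]
    exact (tendsto_blim hf.1).add (tendsto_blim hg.1)
  smul := by
    intro c f hf
    obtain ⟨C, hC⟩ := hf.1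
    refine tendsto_nhds_unique (tendsto_blim ⟨|c| * C, fun n => by
      rw [abs_mul]; exact mul_le_mul_of_nonneg_left (hC n) (abs_nonneg _)⟩) ?_
    have : cav (fun i => c * f i) = fun N => c * cav f N := by
      funext N; unfold cav; rw [← Finset.mul_sum, mul_div_assoc]
    rw [this]
    exact (tendsto_blim hf.1).const_mul c
  nonneg := by
    intro f hf h
    refine ge_of_tendsto' (tendsto_blim hf.1) fun N => ?_
    unfold cav
    exact div_nonneg (Finset.sum_nonneg fun i _ => h i) (by positivity)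

theorem bl_bs {f : ℕ → ℝ} (C : ℝ) (h : ∀ n, |f n| ≤ C) : BS BL.I f := ⟨⟨C, h⟩, trivial⟩

theorem bl_const (c : ℝ) : BL.J (fun _ => c) = c := by
  refine tendsto_nhds_unique (tendsto_blim ⟨|c|, fun _ => le_rfl⟩) ?_
  have : cav (fun _ => c) = fun _ => c := by
    funext N; unfold cav
    have hN : (0 : ℝ) < (N : ℝ) + 1 := by positivity
    rw [Finset.sum_const, Finset.card_range, nsmul_eq_mul]
    push_cast
    field_simp
  rw [this]
  exact tendsto_const_nhds

theorem bl_succ {f : ℕ → ℝ} (hf : BS BL.I f) : BL.J (fun n => f (n + 1)) = BL.J f := by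
  obtain ⟨C, hC⟩ := hf.1
  refine tendsto_nhds_unique (tendsto_blim ⟨C, fun n => hC (n + 1)⟩) ?_
  have e : cav (fun i => f (i + 1)) =
      fun N => cav f N + (f (N + 1) - f 0) / ((N : ℝ) + 1) := by
    funext N
    unfold cav
    have h1 := Finset.sum_range_succ' f (N + 1)
    have h2 := Finset.sum_range_succ f (N + 1)
    rw [← add_div]
    congr 1
    linarith
  rw [e]
  have h2 : Tendsto (fun N : ℕ => (f (N + 1) - f 0) / ((N : ℝ) + 1)) atTop (𝓝 0) := by
    have h3 : Tendsto (fun N : ℕ => (2 * C) * (1 / ((N : ℝ) + 1))) atTop (𝓝 (2 * C * 0)) :=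
      tendsto_one_div_add_atTop_nhds_zero_nat.const_mul _
    rw [mul_zero] at h3
    refine squeeze_zero_norm (fun N => ?_) h3
    have hN : (0 : ℝ) < (N : ℝ) + 1 := by positivity
    rw [Real.norm_eq_abs, abs_div, abs_of_pos hN, mul_one_div]
    refine div_le_div_of_nonneg_right ?_ hN.le
    refine (abs_sub _ _).trans ?_
    linarith [hC (N + 1), hC 0]
  have h4 := (tendsto_blim hf.1).add (h2.mono_left Nat.hyperfilter_le_atTop)
  rwa [add_zero] at h4

theorem bl_shift {f : ℕ → ℝ} (hf : BS BL.I f) (k : ℕ) : BL.J (fun n => f (n + k)) = BL.J f := by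
  induction k with
  | zero => rfl
  | succ k ih =>
    obtain ⟨C, hC⟩ := hf.1
    rw [← ih, ← bl_succ (f := fun n => f (n + k)) (bl_bs C fun n => hC _)]
    simp only [add_assoc, add_comm 1 k]

theorem bl_le {f : ℕ → ℝ} (hf : BS BL.I f) (k : ℕ) (c : ℝ) (h : ∀ n, k ≤ n → f n ≤ c) :
    BL.J f ≤ c := by
  obtain ⟨C, hC⟩ := hf.1
  rw [← bl_shift hf k, ← bl_const c]
  exact BL.J_mono (bl_bs C fun n => hC _) (bl_bs |c| fun _ => le_rfl)
    fun n => h _ (Nat.le_add_left _ _)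

theorem bl_ge {f : ℕ → ℝ} (hf : BS BL.I f) (k : ℕ) (c : ℝ) (h : ∀ n, k ≤ n → c ≤ f n) :
    c ≤ BL.J f := by
  obtain ⟨C, hC⟩ := hf.1
  rw [← bl_shift hf k, ← bl_const c]
  exact BL.J_mono (bl_bs |c| fun _ => le_rfl) (bl_bs C fun n => hC _)
    fun n => h _ (Nat.le_add_left _ _)

/-! ### invariant functionals -/

variable {G : Type} [Group G]

/-- right translation -/
def sh {κ : Type} (g : G) (x : κ × G) : κ × G := (x.1, x.2 * g)

theorem sh_sh {κ : Type} (g g' : G) (x : κ × G) : sh g' (sh g x) = sh (g * g') x := by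
  simp [sh, mul_assoc]

theorem sh_one {κ : Type} (x : κ × G) : sh 1 x = x := by simp [sh]

/-- right invariant positive functionals -/
structure IF (κ G : Type) [Group G] extends PF (κ × G) where
  inv : ∀ (f : κ × G → ℝ) (g : G), BS I f → BS I (fun x => f (sh g x)) →
    J (fun x => f (sh g x)) = J f

namespace IF

variable {κ : Type} (P : IF κ G)

theorem mu_sh {A : Set (κ × G)} (g : G) (hA : P.I A) (hA' : P.I {x | sh g x ∈ A}) :
    P.mu {x | sh g x ∈ A} = P.mu A :=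
  P.inv (ind A) g (P.bs_ind hA) (P.bs_ind hA')

/-- invariance under injections of bounded displacement -/
theorem mu_disp {A : Set (κ × G)} (Φ : κ × G → κ × G) (F : Set G) (hF : F.Finite)
    (hA : P.I A) (hA' : P.I (Φ '' A)) (h1 : ∀ x ∈ A, ∃ f ∈ F, Φ x = sh f x)
    (h2 : Set.InjOn Φ A) : P.mu (Φ '' A) = P.mu A := by
  choose! f hf1 hf2 using h1
  have e1 : P.mu A = ∑ c ∈ hF.toFinset, P.mu {x | x ∈ A ∧ f x = c} :=
    P.mu_eq_sum _ hA (fun c _ x hx => hx.1) (fun c _ c' _ x h h' => h.2.symm.trans h'.2)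
      (fun x hx => ⟨f x, hF.mem_toFinset.2 (hf1 x hx), hx, rfl⟩)
  have e2 : P.mu (Φ '' A) = ∑ c ∈ hF.toFinset, P.mu (Φ '' {x | x ∈ A ∧ f x = c}) := by
    refine P.mu_eq_sum _ hA' (fun c _ => Set.image_mono fun x hx => hx.1) ?_ ?_
    · rintro c - c' - y ⟨x, hx, rfl⟩ ⟨x', hx', he⟩
      have := h2 hx'.1 hx.1 he
      subst this
      exact hx.2.symm.trans hx'.2
    · rintro y ⟨x, hx, rfl⟩
      exact ⟨f x, hF.mem_toFinset.2 (hf1 x hx), x, ⟨hx, rfl⟩, rfl⟩
  rw [e1, e2]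
  refine Finset.sum_congr rfl fun c _ => ?_
  have e3 : Φ '' {x | x ∈ A ∧ f x = c} = {y | sh c⁻¹ y ∈ {x | x ∈ A ∧ f x = c}} := by
    ext y
    constructor
    · rintro ⟨x, hx, rfl⟩
      have : sh c⁻¹ (Φ x) = x := by rw [hf2 x hx.1, hx.2, sh_sh, mul_inv_cancel, sh_one]
      show sh c⁻¹ (Φ x) ∈ {x | x ∈ A ∧ f x = c}
      rw [this]; exact hx
    · intro hy
      refine ⟨sh c⁻¹ y, hy, ?_⟩
      rw [hf2 _ hy.1, hy.2, sh_sh, inv_mul_cancel, sh_one]
  have h5 : P.I (Φ '' {x | x ∈ A ∧ f x = c}) :=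
    P.I_mono _ _ (Set.image_mono fun x hx => hx.1) hA'
  rw [e3] at h5 ⊢
  exact P.mu_sh c⁻¹ (P.I_mono _ _ (fun x hx => hx.1) hA) h5

end IF

variable {V : Type} [NormedAddCommGroup V] [NormedSpace ℂ V]

/-- elements `m` levels above the root -/
def Pre.Top (X : Pre G V) {κ : Type} (y : κ → G) (m : ℕ) : Set (κ × G) :=
  {x | (y x.1)⁻¹ * x.2 ∈ X.S m}

theorem Pre.mass (X : Pre G V) : ∃ δ : ℕ, 0 < δ ∧ ∀ {κ : Type} (P : IF κ G) (y : κ → G),
    (∀ m, P.I (X.Top y m)) → ∀ m, P.mu (X.Top y (m + 1)) = δ * P.mu (X.Top y m) := by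
  obtain ⟨R, h1, h2, h3⟩ := X.transv X.t⁻¹
  refine ⟨R.card, ?_, ?_⟩
  · obtain ⟨r, hr, -⟩ := h2 1 X.L.one_mem
    exact Finset.card_pos.2 ⟨r, hr⟩
  intro κ P y hI m
  have hsub : ∀ r ∈ R, {x | sh (X.t * r)⁻¹ x ∈ X.Top y m} ⊆ X.Top y (m + 1) := by
    intro r hr x hx
    have h4 : (y x.1)⁻¹ * (x.2 * (X.t * r)⁻¹) ∈ X.S m := hx
    have := X.S_up h4 (h1 r hr)
    show (y x.1)⁻¹ * x.2 ∈ X.S (m + 1)
    rwa [show (y x.1)⁻¹ * (x.2 * (X.t * r)⁻¹) * X.t * r = (y x.1)⁻¹ * x.2 by group] at this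
  rw [P.mu_eq_sum R (A := fun r => {x | sh (X.t * r)⁻¹ x ∈ X.Top y m}) (hI (m + 1)) hsub]
  · rw [Finset.sum_congr rfl fun r hr =>
      P.mu_sh (X.t * r)⁻¹ (hI m) (P.I_mono _ _ (hsub r hr) (hI (m + 1)))]
    rw [Finset.sum_const, nsmul_eq_mul]
  · intro r hr r' hr' x hx hx'
    have h4 : (y x.1)⁻¹ * (x.2 * (X.t * r)⁻¹) ∈ X.S m := hx
    have h5 : (y x.1)⁻¹ * (x.2 * (X.t * r')⁻¹) ∈ X.S m := hx'
    have h6 := X.S_parent h5 h4 (h1 r' hr') (h1 r hr) (by group)
    apply h3 r hr r' hr'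
    rw [X.mem_Gam]
    refine ⟨X.L.mul_mem (h1 r hr) (X.L.inv_mem (h1 r' hr')), ?_⟩
    have := X.B_le _ h6
    rwa [show ((y x.1)⁻¹ * (x.2 * (X.t * r)⁻¹))⁻¹ * ((y x.1)⁻¹ * (x.2 * (X.t * r')⁻¹)) =
      X.t⁻¹⁻¹ * (r * r'⁻¹) * X.t⁻¹ by group] at this
  · intro x hx
    obtain ⟨g', hg', z, hz, he⟩ := X.S_down hx
    obtain ⟨r, hr, h4⟩ := h2 z hz
    refine ⟨r, hr, ?_⟩
    show (y x.1)⁻¹ * (x.2 * (X.t * r)⁻¹) ∈ X.S m
    rw [X.mem_Gam, inv_inv] at h4
    have h5 : X.t * (z * r⁻¹) * X.t⁻¹ ∈ X.B := by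
      apply X.mem_B h4.2
      rw [show X.t⁻¹ * (X.t * (z * r⁻¹) * X.t⁻¹) * X.t = z * r⁻¹ by group]
      exact h4.1
    have := X.S_Br hg' h5
    rwa [show g' * (X.t * (z * r⁻¹) * X.t⁻¹) = g' * X.t * z * (X.t * r)⁻¹ by group, ← he,
      mul_assoc] at this

/-- left cosets -/
def Pre.Cos (X : Pre G V) (g : G) : Set (Unit × G) := {x | g⁻¹ * x.2 ∈ X.L}

theorem Pre.base (X : Pre G V) : ∃ P : IF Unit G, (∀ A g, P.I A → P.I {x | sh g x ∈ A}) ∧
    (∀ g, P.I (X.Cos g)) ∧ ∀ g, 0 < P.mu (X.Cos g) := by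
  let _ : CommGroup X.L := { (inferInstance : Group X.L) with
    mul_comm := fun a b => Subtype.ext (X.comm a a.2 b b.2) }
  obtain ⟨m, m1, m2, m3, m4, m5⟩ := Pool.Agent.Helper378.PD.exists_mean X.L
  let Q := Quotient (QuotientGroup.rightRel X.L)
  let mk : G → Q := fun g => Quotient.mk _ g
  have hmk : ∀ x y, mk x = mk y ↔ y * x⁻¹ ∈ X.L := fun x y =>
    Quotient.eq.trans QuotientGroup.rightRel_apply
  have hout : ∀ c : Q, mk c.out = c := fun c => Quotient.out_eq c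
  let I : Set (Unit × G) → Prop := fun A => ∃ s : Finset Q, ∀ x ∈ A, mk x.2 ∈ s
  let T : (Unit × G → ℝ) → Q → ℝ := fun f c => m (fun z => f ((), (z : G) * c.out))
  have m0 : m (fun _ => 0) = 0 := by
    have := m2 (fun _ => 0) 0 0 (by simp)
    simpa using this
  have hT : ∀ f (s : Finset Q), (∀ x ∈ {x | f x ≠ 0}, mk x.2 ∈ s) → ∀ c, c ∉ s → T f c = 0 := by
    intro f s hs c hc
    have : (fun z : X.L => f ((), (z : G) * c.out)) = fun _ => 0 := by
      funext z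
      by_contra h0
      apply hc
      have h1 := hs ((), (z : G) * c.out) h0
      have h2 : mk c.out = mk ((z : G) * c.out) := (hmk _ _).2 (by simp)
      rw [← hout c, h2]
      exact h1
    show m _ = 0
    rw [this, m0]
  have hfin : ∀ f, BS I f → (Function.support (T f)).Finite := by
    intro f hf
    obtain ⟨s, hs⟩ := hf.2
    refine s.finite_toSet.subset fun c hc => ?_
    by_contra h0
    exact hc (hT f s hs c h0)
  have hIsh : ∀ A g, I A → I {x | sh g x ∈ A} := by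
    rintro A g ⟨s, hs⟩
    refine ⟨s.image (fun c => mk (c.out * g⁻¹)), fun x hx => ?_⟩
    have h1 := hs _ hx
    refine Finset.mem_image.2 ⟨_, h1, ?_⟩
    rw [hmk]
    have h2 := (hmk _ _).1 (hout (mk (sh g x).2))
    rwa [show x.2 * ((mk (sh g x).2).out * g⁻¹)⁻¹ = (sh g x).2 * ((mk (sh g x).2).out)⁻¹ by
      simp [sh, mul_assoc]]
  let P : IF Unit G :=
    { I := I
      I_empty := ⟨∅, by simp⟩
      I_mono := by
        rintro A B h ⟨s, hs⟩
        exact ⟨s, fun x hx => hs x (h hx)⟩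
      I_union := by
        rintro A B ⟨s, hs⟩ ⟨s', hs'⟩
        refine ⟨s ∪ s', fun x hx => ?_⟩
        rcases hx with hx | hx
        · exact Finset.mem_union_left _ (hs x hx)
        · exact Finset.mem_union_right _ (hs' x hx)
      J := fun f => ∑ᶠ c, T f c
      add := by
        intro f g hf hg
        rw [← finsum_add_distrib (hfin f hf) (hfin g hg)]
        refine finsum_congr fun c => ?_
        obtain ⟨C, hC⟩ := hf.1
        obtain ⟨D, hD⟩ := hg.1
        exact m1 _ _ (max C D) (fun x => (hC _).trans (le_max_left _ _))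
          (fun x => (hD _).trans (le_max_right _ _))
      smul := by
        intro c f hf
        rw [mul_finsum' _ _ (hfin f hf)]
        refine finsum_congr fun d => ?_
        obtain ⟨C, hC⟩ := hf.1
        exact m2 _ C c (fun x => hC _)
      nonneg := by
        intro f hf h
        refine finsum_nonneg fun c => ?_
        obtain ⟨C, hC⟩ := hf.1
        exact m3 _ C (fun x => hC _) (fun x => h _)
      inv := by
        intro f g hf _
        let e : Q ≃ Q :=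
          { toFun := fun c => mk (c.out * g)
            invFun := fun c => mk (c.out * g⁻¹)
            left_inv := by
              intro c
              refine Eq.trans ?_ (hout c)
              show mk ((mk (c.out * g)).out * g⁻¹) = mk c.out
              rw [hmk]
              have h2 := (hmk _ _).1 (hout (mk (c.out * g)))
              rwa [show c.out * ((mk (c.out * g)).out * g⁻¹)⁻¹ =
                c.out * g * ((mk (c.out * g)).out)⁻¹ by simp [mul_assoc]]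
            right_inv := by
              intro c
              refine Eq.trans ?_ (hout c)
              show mk ((mk (c.out * g⁻¹)).out * g) = mk c.out
              rw [hmk]
              have h2 := (hmk _ _).1 (hout (mk (c.out * g⁻¹)))
              rwa [show c.out * ((mk (c.out * g⁻¹)).out * g)⁻¹ =
                c.out * g⁻¹ * ((mk (c.out * g⁻¹)).out)⁻¹ by simp [mul_assoc]] }
        rw [← finsum_comp_equiv e (f := T f)]
        refine finsum_congr fun c => ?_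
        have h2 : c.out * g * ((mk (c.out * g)).out)⁻¹ ∈ X.L := (hmk _ _).1 (hout (mk (c.out * g)))
        obtain ⟨C, hC⟩ := hf.1
        have h3 := m5 (fun z : X.L => f ((), (z : G) * (mk (c.out * g)).out)) C ⟨_, h2⟩
          (fun x => hC _)
        show m (fun z : X.L => f (sh g ((), (z : G) * c.out))) =
          m (fun z : X.L => f ((), (z : G) * (mk (c.out * g)).out))
        rw [← h3]
        congr 1
        funext z
        congr 1
        show ((), (z : G) * c.out * g) = ((), ((⟨_, h2⟩ * z : X.L) : G) * (mk (c.out * g)).out)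
        rw [mul_comm (⟨_, h2⟩ : X.L) z]
        simp [mul_assoc] }
  have hI1 : P.I (X.Cos 1) := ⟨{mk 1}, fun x hx => by
    rw [Finset.mem_singleton, eq_comm, hmk]
    simpa [Pre.Cos] using hx⟩
  have hmu1 : P.mu (X.Cos 1) = 1 := by
    show ∑ᶠ c, T (ind (X.Cos 1)) c = 1
    rw [finsum_eq_single _ (mk 1)]
    · have h2 : (mk 1).out ∈ X.L := by
        have := (hmk _ _).1 (hout (mk 1)).symm
        simpa using this
      have : (fun z : X.L => ind (X.Cos 1) ((), (z : G) * (mk 1).out)) = fun _ => 1 := by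
        funext z
        apply ind_mem
        show (1 : G)⁻¹ * ((z : G) * (mk 1).out) ∈ X.L
        rw [inv_one, one_mul]
        exact X.L.mul_mem z.2 h2
      show m _ = 1
      rw [this, m4]
    · intro c hc
      apply hT _ {mk 1}
      · intro x hx
        have hx' : x ∈ X.Cos 1 := by
          by_contra h0
          exact hx (ind_nmem h0)
        rw [Finset.mem_singleton, eq_comm, hmk]
        simpa [Pre.Cos] using hx'
      · simpa using hc
  have hIg : ∀ g, P.I (X.Cos g) := by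
    intro g
    obtain ⟨R, h1, h2⟩ := X.cms g⁻¹
    refine ⟨R.image (fun r => mk (g * r)), fun x hx => ?_⟩
    obtain ⟨r, hr, h3⟩ := h2 _ hx
    refine Finset.mem_image.2 ⟨r, hr, ?_⟩
    rw [hmk]
    rwa [show x.2 * (g * r)⁻¹ = g⁻¹⁻¹ * (g⁻¹ * x.2 * r⁻¹) * g⁻¹ by group]
  refine ⟨P, hIsh, hIg, fun g => ?_⟩
  obtain ⟨R, h1, h2⟩ := X.cms g
  let Γ : Set (Unit × G) := {x | x.2 ∈ X.Gam g}
  have hΓ : P.I Γ := P.I_mono _ _ (fun x hx => by
    have := ((X.mem_Gam _ _).1 hx).1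
    simpa [Pre.Cos] using this) hI1
  have h3 : P.mu (X.Cos 1) ≤ ∑ r ∈ R, P.mu {x | sh r⁻¹ x ∈ Γ} := by
    refine P.mu_le_sum R (fun r _ => hIsh _ _ hΓ) fun x hx => ?_
    have hx' : x.2 ∈ X.L := by simpa [Pre.Cos] using hx
    obtain ⟨r, hr, h4⟩ := h2 _ hx'
    exact ⟨r, hr, (X.mem_Gam _ _).2 ⟨X.L.mul_mem hx' (X.L.inv_mem (h1 r hr)), h4⟩⟩
  rw [Finset.sum_congr rfl fun r _ => P.mu_sh r⁻¹ hΓ (hIsh _ _ hΓ), Finset.sum_const, hmu1,
    nsmul_eq_mul] at h3
  have h4 : 0 < P.mu Γ := by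
    by_contra h0
    have h5 : P.mu Γ ≤ 0 := not_lt.1 h0
    have := mul_nonpos_of_nonneg_of_nonpos (Nat.cast_nonneg (α := ℝ) R.card) h5
    linarith
  refine h4.trans_le ?_
  rw [← P.mu_sh g⁻¹ hΓ (hIsh _ _ hΓ)]
  refine P.mu_mono (fun x hx => ?_) (hIg g)
  have := ((X.mem_Gam _ _).1 hx).2
  show g⁻¹ * x.2 ∈ X.L
  rwa [show g⁻¹ * (sh g⁻¹ x).2 * g = g⁻¹ * x.2 by simp [sh, mul_assoc]] at this

end

end Pool.Agent.H870Z.LM
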