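import Mathlib
import Pool.Agent.Helper943.LM.Basic
import Pool.Agent.H870Z.LM.Basic

set_option autoImplicit false

open scoped Classical

namespace Pool.Agent.H870Z.LM

open Pool.Agent.Helper943.LM

noncomputable section

variable {G V : Type} [Group G] [NormedAddCommGroup V] [NormedSpace ℂ V]

/-- normal form -/
def nf (U : UA G) (g : G) : List U.A := (U.ev_surj g).choose

theorem nf_mem (U : UA G) (g : G) : nf U g ∈ U.L := (U.ev_surj g).choose_spec.1
theorem nf_ev (U : UA G) (g : G) : U.ev (nf U g) = g := (U.ev_surj g).choose_spec.2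
theorem nf_eq (U : UA G) {w : List U.A} (hw : w ∈ U.L) : nf U (U.ev w) = w :=
  U.ev_inj (nf_mem U _) hw (nf_ev U _)

theorem ev_single (U : UA G) (a : U.A) : U.ev [a] = U.mu a := by simp [UA.ev]

section segs

variable (X : Pre G V) (U : UA G)

/-- all nonempty prefixes end in the half tree -/
def InH (v : List U.A) : Prop := ∀ i, 0 < i → U.ev (v.take i) ∈ X.H

/-- a segment going one level up -/
def Seg (v : List U.A) : Prop := InH X U v ∧ X.t⁻¹ * U.ev v ∈ X.L

/-- decomposition of a normal form over the root `y` -/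
def Dec (y g : G) (p : List U.A) (es : List (List U.A)) : Prop :=
  nf U g = p ++ es.flatten ∧ y⁻¹ * U.ev p ∈ X.B ∧ ∀ v ∈ es, Seg X U v

variable {X U}

theorem InH.ev {v : List U.A} (h : InH X U v) : U.ev v ∈ X.H := by
  have := h (v.length + 1) (Nat.succ_pos _)
  rwa [List.take_of_length_le (Nat.le_succ _)] at this

theorem InH.ne_nil {v : List U.A} (h : InH X U v) : v ≠ [] := by
  rintro rfl
  exact X.one_nH (U.ev_nil ▸ h.ev)

theorem InH.pre {v u : List U.A} (h : InH X U v) (hu : u <+: v) (hne : u ≠ []) :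
    U.ev u ∈ X.H := by
  have := h u.length (List.length_pos_of_ne_nil hne)
  rwa [← List.prefix_iff_eq_take.1 hu] at this

theorem inH_of {v : List U.A} (hne : v ≠ []) (h : ∀ u, u <+: v → u ≠ [] → U.ev u ∈ X.H) :
    InH X U v := by
  intro i hi
  apply h _ (List.take_prefix _ _)
  intro h0
  rcases List.take_eq_nil_iff.1 h0 with h1 | h1
  · omega
  · exact hne h1

theorem InH.left {u v : List U.A} (h : InH X U (u ++ v)) (hne : u ≠ []) : InH X U u :=
  inH_of hne fun _ hw hw' => h.pre (hw.trans (List.prefix_append _ _)) hw'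

theorem Seg.h {v : List U.A} (h : Seg X U v) : X.h (U.ev v) = 1 := by
  have h1 := X.h_L _ h.2
  rw [X.h_mul, X.h_inv, X.h_t] at h1
  omega

theorem inH_append {u v : List U.A} (hu : Seg X U u) (hv : InH X U v) : InH X U (u ++ v) := by
  refine inH_of (by simp [hu.1.ne_nil]) fun w hw hw' => ?_
  rcases List.prefix_or_prefix_of_prefix hw (List.prefix_append u v) with h | h
  · exact hu.1.pre h hw'
  · obtain ⟨r, rfl⟩ := h
    by_cases hr : r = []
    · rw [hr, List.append_nil]; exact hu.1.ev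
    · have h1 := hv.pre ((List.prefix_append_right_inj u).1 hw) hr
      have := X.nest hu.2 _ h1
      rwa [mul_inv_cancel_left, ← U.ev_append] at this

theorem ev_flatten {es : List (List U.A)} (h : ∀ v ∈ es, Seg X U v) :
    U.ev es.flatten ∈ X.S es.length := by
  induction es with
  | nil => rw [List.flatten_nil, U.ev_nil]; exact X.B.one_mem
  | cons v es ih =>
    rw [List.flatten_cons, U.ev_append]
    exact ⟨_, (h v List.mem_cons_self).2, _, ih fun w hw => h w (List.mem_cons_of_mem _ hw),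
      by group⟩

theorem inH_flatten {es : List (List U.A)} (hne : es ≠ []) (h : ∀ v ∈ es, Seg X U v) :
    InH X U es.flatten := by
  induction es with
  | nil => exact absurd rfl hne
  | cons v es ih =>
    rw [List.flatten_cons]
    by_cases h0 : es = []
    · rw [h0, List.flatten_nil, List.append_nil]; exact (h v List.mem_cons_self).1
    · exact inH_append (h v List.mem_cons_self) (ih h0 fun w hw => h w (List.mem_cons_of_mem _ hw))

theorem entr_ex (hL : ∀ a, X.Let (U.mu a)) (W : List U.A) (a : G) (h1 : a⁻¹ ∉ X.H)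
    (h2 : a⁻¹ * U.ev W ∈ X.H) :
    ∃ u v, W = u ++ v ∧ a⁻¹ * U.ev u ∈ X.B ∧ InH X U v := by
  let P : ℕ → Prop := fun i => a⁻¹ * U.ev (W.take i) ∉ X.H
  have h0 : P 0 := by
    show a⁻¹ * U.ev (W.take 0) ∉ X.H
    rwa [List.take_zero, U.ev_nil, mul_one]
  let τ := Nat.findGreatest P W.length
  have hτ : P τ := Nat.findGreatest_spec (Nat.zero_le _) h0
  have hτle : τ ≤ W.length := Nat.findGreatest_le _
  have hgt : ∀ i, τ < i → a⁻¹ * U.ev (W.take i) ∈ X.H := by
    intro i hi
    by_cases hle : i ≤ W.length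
    · have := Nat.findGreatest_is_greatest hi hle
      exact not_not.1 this
    · rw [List.take_of_length_le (by omega)]; exact h2
  have hlt : τ < W.length := by
    rcases hτle.lt_or_eq with h | h
    · exact h
    · exfalso
      apply hτ
      rw [h, List.take_length]; exact h2
  have hB : a⁻¹ * U.ev (W.take τ) ∈ X.B := by
    have h3 := hgt (τ + 1) (Nat.lt_succ_self _)
    rw [List.take_succ_eq_append_getElem hlt, U.ev_append, ev_single, ← mul_assoc] at h3
    exact X.enter_let (hL _) hτ h3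
  refine ⟨W.take τ, W.drop τ, (List.take_append_drop _ _).symm, hB, fun i hi => ?_⟩
  have h3 := hgt (τ + i) (by omega)
  rw [List.take_add, U.ev_append, ← mul_assoc, X.B_H hB] at h3
  exact h3

theorem entr_uniq {u v u' v' : List U.A} (he : u ++ v = u' ++ v') (hv : InH X U v)
    (hv' : InH X U v') (hB : (U.ev u)⁻¹ * U.ev u' ∈ X.B) : u = u' := by
  rcases List.append_eq_append_iff.1 he with ⟨r, h1, h2⟩ | ⟨r, h1, h2⟩
  · by_cases hr : r = []
    · rw [h1, hr, List.append_nil]
    · exfalso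
      have h3 := hv.pre (u := r) ⟨v', h2.symm⟩ hr
      rw [h1, U.ev_append, inv_mul_cancel_left] at hB
      exact X.L_nH (X.B_le _ hB) h3
  · by_cases hr : r = []
    · rw [h1, hr, List.append_nil]
    · exfalso
      have h3 := hv'.pre (u := r) ⟨v, h2.symm⟩ hr
      have h4 := X.B.inv_mem hB
      rw [h1, U.ev_append, mul_inv_rev, inv_inv, inv_mul_cancel_left] at h4
      exact X.L_nH (X.B_le _ h4) h3

theorem seg_split (hL : ∀ a, X.Let (U.mu a)) (m : ℕ) : ∀ q : List U.A, InH X U q →
    U.ev q ∈ X.S (m + 1) →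
    ∃ es : List (List U.A), es.length = m + 1 ∧ q = es.flatten ∧ ∀ v ∈ es, Seg X U v := by
  induction m with
  | zero =>
    intro q hq hS
    obtain ⟨z, hz, g, hg, he⟩ := hS
    refine ⟨[q], rfl, by simp, fun v hv => ?_⟩
    rw [List.mem_singleton.1 hv]
    refine ⟨hq, ?_⟩
    rw [he, mul_assoc, inv_mul_cancel_left]
    exact X.L.mul_mem hz (X.B_le _ hg)
  | succ m ih =>
    intro q hq hS
    obtain ⟨z, hz, g, hg, he⟩ := hS
    obtain ⟨u, v, h1, h2, h3⟩ := entr_ex hL q (X.t * z)
      (by rw [mul_inv_rev]; exact X.nH_tinv (X.L_nH (X.L.inv_mem hz)))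
      (by rw [he, inv_mul_cancel_left]; exact X.S_H hg)
    have h4 : X.t⁻¹ * U.ev u ∈ X.L := by
      have := X.L.mul_mem hz (X.B_le _ h2)
      rwa [show z * ((X.t * z)⁻¹ * U.ev u) = X.t⁻¹ * U.ev u by group] at this
    have hu : u ≠ [] := by
      rintro rfl
      have := X.h_L _ h4
      rw [U.ev_nil, mul_one, X.h_inv, X.h_t] at this
      omega
    have h5 : U.ev v ∈ X.S (m + 1) := by
      have := X.S_B (X.B.inv_mem h2) hg
      have e : U.ev v = (U.ev u)⁻¹ * (X.t * z * g) := by
        rw [← he, h1, U.ev_append, inv_mul_cancel_left]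
      rwa [show ((X.t * z)⁻¹ * U.ev u)⁻¹ * g = (U.ev u)⁻¹ * (X.t * z * g) by group, ← e] at this
    obtain ⟨es, e1, e2, e3⟩ := ih v h3 h5
    refine ⟨u :: es, by simp [e1], by rw [List.flatten_cons, ← e2, h1], fun w hw => ?_⟩
    rcases List.mem_cons.1 hw with rfl | hw
    · exact ⟨(h1 ▸ hq).left hu, h4⟩
    · exact e3 w hw

theorem seg_uniq : ∀ (es es' : List (List U.A)), (∀ v ∈ es, Seg X U v) → (∀ v ∈ es', Seg X U v) →
    es.flatten = es'.flatten → es = es' := by
  intro es
  induction es with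
  | nil =>
    intro es' _ h' he
    by_contra hne
    exact (inH_flatten (Ne.symm hne) h').ne_nil he.symm
  | cons v es ih =>
    intro es' h h' he
    cases es' with
    | nil => exact absurd he (inH_flatten (List.cons_ne_nil _ _) h).ne_nil
    | cons v' es' =>
      have hv := h v List.mem_cons_self
      have hv' := h' v' List.mem_cons_self
      have ht := fun w hw => h w (List.mem_cons_of_mem _ hw)
      have ht' := fun w hw => h' w (List.mem_cons_of_mem _ hw)
      rw [List.flatten_cons, List.flatten_cons] at he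
      have hL : (U.ev v)⁻¹ * U.ev v' ∈ X.L := by
        have := X.L.mul_mem (X.L.inv_mem hv.2) hv'.2
        rwa [show (X.t⁻¹ * U.ev v)⁻¹ * (X.t⁻¹ * U.ev v') = (U.ev v)⁻¹ * U.ev v' by group] at this
      have hev : U.ev es.flatten = (U.ev v)⁻¹ * U.ev v' * U.ev es'.flatten := by
        rw [mul_assoc, ← U.ev_append, ← he, U.ev_append, inv_mul_cancel_left]
      have key : v = v' := by
        by_cases h0 : es = []
        · by_cases h0' : es' = []
          · rw [h0, h0'] at he; simpa using he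
          · exfalso
            have h1 := (inH_flatten h0' ht').ev
            rw [h0, List.flatten_nil, U.ev_nil] at hev
            have h2 : U.ev es'.flatten = ((U.ev v)⁻¹ * U.ev v')⁻¹ := eq_inv_of_mul_eq_one_right hev.symm
            rw [h2] at h1
            exact X.L_nH (X.L.inv_mem hL) h1
        · by_cases h0' : es' = []
          · exfalso
            have h1 := (inH_flatten h0 ht).ev
            rw [h0', List.flatten_nil, U.ev_nil, mul_one] at hev
            rw [hev] at h1
            exact X.L_nH hL h1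
          · refine entr_uniq he (inH_flatten h0 ht) (inH_flatten h0' ht') ?_
            exact X.memB_of hL (inH_flatten h0' ht').ev (hev ▸ (inH_flatten h0 ht).ev)
      subst key
      rw [ih es' ht ht' (List.append_cancel_left he)]

theorem dec_ex (hL : ∀ a, X.Let (U.mu a)) {y g : G} {m : ℕ} (hy : y⁻¹ ∉ X.H)
    (hg : y⁻¹ * g ∈ X.S (m + 1)) : ∃ p es, Dec X U y g p es ∧ es.length = m + 1 := by
  obtain ⟨u, v, h1, h2, h3⟩ := entr_ex hL (nf U g) y hy (by rw [nf_ev]; exact X.S_H hg)
  have h5 : U.ev v ∈ X.S (m + 1) := by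
    have := X.S_B (X.B.inv_mem h2) hg
    have e : U.ev v = (U.ev u)⁻¹ * g := by
      rw [← nf_ev U g, h1, U.ev_append, inv_mul_cancel_left]
    rwa [show (y⁻¹ * U.ev u)⁻¹ * (y⁻¹ * g) = (U.ev u)⁻¹ * g by group, ← e] at this
  obtain ⟨es, e1, e2, e3⟩ := seg_split hL m v h3 h5
  exact ⟨u, es, ⟨by rw [h1, e2], h2, e3⟩, e1⟩

theorem Dec.ev {y g : G} {p : List U.A} {es : List (List U.A)} (h : Dec X U y g p es) :
    g = U.ev p * U.ev es.flatten := by
  rw [← U.ev_append, ← h.1, nf_ev]

theorem Dec.top {y g : G} {p : List U.A} {es : List (List U.A)} (h : Dec X U y g p es) :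
    y⁻¹ * g ∈ X.S es.length := by
  rw [h.ev, ← mul_assoc]
  exact X.S_B h.2.1 (ev_flatten h.2.2)

theorem dec_uniq {y g : G} {p p' : List U.A} {es es' : List (List U.A)} (h : Dec X U y g p es)
    (h' : Dec X U y g p' es') (hne : es ≠ []) : p = p' ∧ es = es' := by
  have hl : es.length = es'.length := by
    have h1 := X.S_h h.top
    have h2 := X.S_h h'.top
    omega
  have hne' : es' ≠ [] := by
    rintro rfl
    exact hne (List.length_eq_zero_iff.1 hl)
  have he : p ++ es.flatten = p' ++ es'.flatten := h.1.symm.trans h'.1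
  have h1 : p = p' := by
    refine entr_uniq he (inH_flatten hne h.2.2) (inH_flatten hne' h'.2.2) ?_
    have := X.B.mul_mem (X.B.inv_mem h.2.1) h'.2.1
    rwa [show (y⁻¹ * U.ev p)⁻¹ * (y⁻¹ * U.ev p') = (U.ev p)⁻¹ * U.ev p' by group] at this
  subst h1
  exact ⟨rfl, seg_uniq _ _ h.2.2 h'.2.2 (List.append_cancel_left he)⟩

theorem Dec.mem {y g : G} {p : List U.A} {es : List (List U.A)} (h : Dec X U y g p es) :
    p ++ es.flatten ∈ U.L := h.1 ▸ nf_mem U g

theorem Dec.replace {y g : G} {p : List U.A} {a r c : List (List U.A)}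
    (h : Dec X U y g p (a ++ r ++ c)) (r' : List (List U.A)) (h1 : ∀ v ∈ r', Seg X U v)
    (h2 : U.run (U.run U.s0 (p ++ a.flatten)) r'.flatten =
      U.run (U.run U.s0 (p ++ a.flatten)) r.flatten) :
    Dec X U y (U.ev (p ++ a.flatten) * U.ev r'.flatten * U.ev c.flatten) p (a ++ r' ++ c) := by
  have hm := h.mem
  have e : ∀ r : List (List U.A),
      p ++ (a ++ r ++ c).flatten = (p ++ a.flatten ++ r.flatten) ++ c.flatten := by
    intro r; simp
  have hm' : p ++ (a ++ r' ++ c).flatten ∈ U.L := by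
    rw [e] at hm ⊢
    refine U.swap hm ?_
    rw [U.run_append U.s0 (p ++ a.flatten), U.run_append U.s0 (p ++ a.flatten), h2]
  refine ⟨?_, h.2.1, fun v hv => ?_⟩
  · have e2 : U.ev (p ++ (a ++ r' ++ c).flatten) =
        U.ev (p ++ a.flatten) * U.ev r'.flatten * U.ev c.flatten := by
      rw [e, U.ev_append, U.ev_append]
    rw [← e2, nf_eq U hm']
  · rcases List.mem_append.1 hv with hv | hv
    · rcases List.mem_append.1 hv with hv | hv
      · exact h.2.2 v (by simp [hv])
      · exact h1 v hv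
    · exact h.2.2 v (by simp [hv])

end segs

section ploops

variable (X : HS G V) (U : UA G)

/-- states with a periodic loop -/
def PS (s : U.S) : Prop := U.live s ∧ ∃ c, c ≠ [] ∧ U.run s c = s ∧ U.ev c ∈ X.N

theorem exists_cyc : ∃ (n : ℕ) (c : U.S → List U.A), 0 < n ∧ ∀ s, PS X U s →
    (c s).length = n ∧ U.run s (c s) = s ∧ U.ev (c s) ∈ X.N := by
  have := U.finS
  have : Fintype U.S := Fintype.ofFinite _
  have h : ∀ s, ∃ c : List U.A, PS X U s → c ≠ [] ∧ U.run s c = s ∧ U.ev c ∈ X.N := by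
    intro s
    by_cases hs : PS X U s
    · obtain ⟨c, hc⟩ := hs.2
      exact ⟨c, fun _ => hc⟩
    · exact ⟨[], fun h => absurd h hs⟩
  choose c hc using h
  let n := ∏ s, if PS X U s then (c s).length else 1
  refine ⟨n, fun s => wpow (c s) (n / (c s).length), ?_, fun s hs => ⟨?_, ?_, ?_⟩⟩
  · refine Finset.prod_pos fun s _ => ?_
    split_ifs with hs
    · exact List.length_pos_of_ne_nil (hc s hs).1
    · exact one_pos
  · rw [wpow_length]
    apply Nat.div_mul_cancel
    have := Finset.dvd_prod_of_mem (fun s => if PS X U s then (c s).length else 1)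
      (Finset.mem_univ s)
    rwa [if_pos hs] at this
  · exact U.run_wpow (hc s hs).2.1 _
  · rw [U.ev_wpow]; exact X.N.pow_mem (hc s hs).2.2 _

/-- common length of the periodic loops -/
def MP : ℕ := (exists_cyc X U).choose

/-- the periodic loop -/
def cyc : U.S → List U.A := (exists_cyc X U).choose_spec.choose

theorem MP_pos : 0 < MP X U := (exists_cyc X U).choose_spec.choose_spec.1

variable {X U}

theorem PS.len {s : U.S} (h : PS X U s) : (cyc X U s).length = MP X U :=
  ((exists_cyc X U).choose_spec.choose_spec.2 s h).1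
theorem PS.run {s : U.S} (h : PS X U s) : U.run s (cyc X U s) = s :=
  ((exists_cyc X U).choose_spec.choose_spec.2 s h).2.1
theorem PS.mem {s : U.S} (h : PS X U s) : U.ev (cyc X U s) ∈ X.N :=
  ((exists_cyc X U).choose_spec.choose_spec.2 s h).2.2

theorem PS.loop_prefix {s : U.S} (h : PS X U s) {Y : List U.A} (hY : U.run s Y = s) :
    ∃ n, Y <+: wpow (cyc X U s) n := by
  set c := cyc X U s
  set Z := wpow Y X.M with hZ
  have hZr : U.run s Z = s := U.run_wpow hY _
  have hc : Z ++ c = c ++ Z := by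
    apply U.closed_inj h.1
    · rw [U.run_append, hZr, h.run]
    · rw [U.run_append, h.run, hZr]
    · rw [U.ev_append, U.ev_append]
      apply X.N_cent _ _ _ h.mem
      rw [hZ, U.ev_wpow, X.h_pow]
      exact Dvd.intro _ rfl
  have hn : ∀ n, Z ++ wpow c n = wpow c n ++ Z := by
    intro n
    induction n with
    | zero => rw [wpow_zero, List.append_nil, List.nil_append]
    | succ n ih =>
      rw [wpow_succ, ← List.append_assoc, hc, List.append_assoc, ih, List.append_assoc]
  refine ⟨Z.length, ?_⟩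
  have h1 : Z <+: wpow c Z.length := by
    refine List.prefix_of_prefix_length_le (l₃ := Z ++ wpow c Z.length) (List.prefix_append _ _)
      (by rw [hn]; exact List.prefix_append _ _) ?_
    rw [wpow_length c, h.len]
    exact Nat.le_mul_of_pos_right _ (MP_pos X U)
  refine List.IsPrefix.trans ?_ h1
  obtain ⟨k, hk⟩ : ∃ k, X.M = k + 1 := ⟨X.M - 1, by have := X.M_pos; omega⟩
  rw [hZ, hk, wpow_succ]
  exact List.prefix_append _ _

theorem PS.cyc_prefix {s : U.S} (h : PS X U s) {Y : List U.A} (hY : U.run s Y = s)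
    (hl : MP X U ≤ Y.length) : cyc X U s <+: Y := by
  obtain ⟨n, hn⟩ := h.loop_prefix hY
  cases n with
  | zero =>
    rw [wpow_zero, List.prefix_nil] at hn
    have := MP_pos X U
    rw [hn] at hl
    simp at hl
    omega
  | succ n =>
    refine List.prefix_of_prefix_length_le (l₃ := wpow (cyc X U s) (n + 1)) ?_ hn (by rwa [h.len])
    rw [wpow_succ]; exact List.prefix_append _ _

theorem PS.pre_val {s : U.S} (h : PS X U s) (n : ℕ) : ∀ Y : List U.A, Y <+: wpow (cyc X U s) n →
    ∃ i, i ≤ MP X U ∧ X.cl (U.ev Y) = X.cl (U.ev ((cyc X U s).take i)) := by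
  induction n with
  | zero =>
    intro Y hY
    rw [wpow_zero, List.prefix_nil] at hY
    exact ⟨0, Nat.zero_le _, by rw [hY, List.take_zero]⟩
  | succ n ih =>
    intro Y hY
    rw [wpow_succ] at hY
    rcases List.prefix_or_prefix_of_prefix hY (List.prefix_append _ _) with h1 | h1
    · refine ⟨Y.length, h.len ▸ h1.length_le, ?_⟩
      rw [← List.prefix_iff_eq_take.1 h1]
    · obtain ⟨r, rfl⟩ := h1
      obtain ⟨i, hi, he⟩ := ih r ((List.prefix_append_right_inj _).1 hY)
      exact ⟨i, hi, by rw [U.ev_append, X.cl_mul, X.cl_N h.mem, one_mul, he]⟩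

theorem loop_h_bound (X : HS G V) (U : UA G) : ∃ C : ℕ, ∀ s, PS X U s → ∀ Y, U.run s Y = s →
    |X.h (U.ev Y)| ≤ C := by
  obtain ⟨C, hC⟩ := X.h_bound ((fun w => X.cl (U.ev w)) '' {w | w.length ≤ MP X U})
    ((U.finite_le _).image _)
  refine ⟨C, fun s hs Y hY => hC _ ?_⟩
  obtain ⟨n, hn⟩ := hs.loop_prefix hY
  obtain ⟨i, hi, he⟩ := hs.pre_val n Y hn
  exact ⟨_, (List.length_take_le _ _).trans hi, he.symm⟩

theorem PS.rot {s : U.S} (h : PS X U s) (i : ℕ) :
    PS X U (U.run s ((cyc X U s).take i)) ∧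
      cyc X U (U.run s ((cyc X U s).take i)) = (cyc X U s).drop i ++ (cyc X U s).take i := by
  set c := cyc X U s
  have hr : U.run (U.run s (c.take i)) (c.drop i) = s := by
    rw [← U.run_append, List.take_append_drop, h.run]
  have hl : (c.drop i ++ c.take i).length = MP X U := by
    rw [List.length_append, Nat.add_comm, ← List.length_append, List.take_append_drop, h.len]
  have hloop : U.run (U.run s (c.take i)) (c.drop i ++ c.take i) = U.run s (c.take i) := by
    rw [U.run_append, hr]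
  have hP : PS X U (U.run s (c.take i)) := by
    refine ⟨⟨?_, ?_⟩, c.drop i ++ c.take i, ?_, hloop, ?_⟩
    · obtain ⟨u, hu⟩ := h.1.1
      exact ⟨u ++ c.take i, by rw [U.run_append, hu]⟩
    · obtain ⟨v, hv⟩ := h.1.2
      exact ⟨c.drop i ++ v, by rw [U.run_append, hr]; exact hv⟩
    · intro h0
      rw [h0] at hl
      have := MP_pos X U
      simp at hl
      omega
    · have := X.N_normal.conj_mem _ h.mem (U.ev (c.take i))⁻¹
      have e : U.ev c = U.ev (c.take i) * U.ev (c.drop i) := by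
        rw [← U.ev_append, List.take_append_drop]
      rw [e] at this
      rw [U.ev_append]
      rwa [show (U.ev (c.take i))⁻¹ * (U.ev (c.take i) * U.ev (c.drop i)) * (U.ev (c.take i))⁻¹⁻¹ =
        U.ev (c.drop i) * U.ev (c.take i) by group] at this
  refine ⟨hP, ?_⟩
  exact (hP.cyc_prefix hloop hl.ge).eq_of_length (by rw [hP.len, hl])

variable (X U)

/-- admissible positions for inserting a periodic loop -/
def Adm (s : U.S) (u : List U.A) : Prop :=
  PS X U (U.run s u) ∧ ∀ i, 0 < i → U.ev (u ++ (cyc X U (U.run s u)).take i) ∈ X.H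

/-- the translation caused by an insertion -/
def vec (s : U.S) (u : List U.A) : G := U.ev u * U.ev (cyc X U (U.run s u)) * (U.ev u)⁻¹

/-- signature -/
def Sig (s : U.S) (w : List U.A) : Set G := {g | ∃ u, u <+: w ∧ Adm X U s u ∧ g = vec X U s u}

/-- trace modulo `N` -/
def Tr (s : U.S) (w : List U.A) : Set (G ⧸ X.N) :=
  {c | ∃ u, u <+: w ∧ (c = X.cl (U.ev u) ∨
    (Adm X U s u ∧ ∃ i, c = X.cl (U.ev (u ++ (cyc X U (U.run s u)).take i))))}

/-- reduced words -/
def Red (s : U.S) (w : List U.A) : Prop :=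
  ¬ ∃ u v, PS X U (U.run s u) ∧ w = u ++ cyc X U (U.run s u) ++ v

variable {X U}

theorem vec_N {s : U.S} {u : List U.A} (h : PS X U (U.run s u)) : vec X U s u ∈ X.N :=
  X.N_normal.conj_mem _ h.mem _

theorem ev_ins (s : U.S) (u v : List U.A) :
    U.ev (u ++ cyc X U (U.run s u) ++ v) = vec X U s u * U.ev (u ++ v) := by
  rw [U.ev_append, U.ev_append, U.ev_append, vec]; group

theorem Adm.all {s : U.S} {u : List U.A} (h : Adm X U s u) (i : ℕ) :
    U.ev (u ++ (cyc X U (U.run s u)).take i) ∈ X.H := by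
  rcases Nat.eq_zero_or_pos i with rfl | hi
  · have h1 := h.2 (MP X U) (MP_pos X U)
    rw [← h.1.len, List.take_length, ← List.append_nil (u ++ _), ev_ins, X.N_H (vec_N h.1)] at h1
    rwa [List.take_zero]
  · exact h.2 i hi

theorem Adm.rot_take {s : U.S} {u : List U.A} (h : Adm X U s u) (i j : ℕ) :
    ∃ k, ∃ ν ∈ X.N, U.ev (u ++ (cyc X U (U.run s u)).take i ++
      ((cyc X U (U.run s u)).drop i ++ (cyc X U (U.run s u)).take i).take j) =
      ν * U.ev (u ++ (cyc X U (U.run s u)).take k) := by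
  set c := cyc X U (U.run s u) with hc
  by_cases hj : j ≤ (c.drop i).length
  · refine ⟨i + j, 1, X.N.one_mem, ?_⟩
    rw [List.take_append_of_le_length hj, one_mul, List.take_add, List.append_assoc]
  · refine ⟨min (j - (c.drop i).length) i, vec X U s u, vec_N h.1, ?_⟩
    rw [List.take_append, List.take_of_length_le (by omega : (c.drop i).length ≤ j),
      List.take_take, ← ev_ins, ← hc]
    congr 1
    simp only [List.append_assoc]
    rw [← List.append_assoc (c.take i), List.take_append_drop]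

theorem Adm.mid {s : U.S} {u : List U.A} (h : Adm X U s u) (i : ℕ) :
    Adm X U s (u ++ (cyc X U (U.run s u)).take i) ∧
      vec X U s (u ++ (cyc X U (U.run s u)).take i) = vec X U s u := by
  obtain ⟨h1, h2⟩ := h.1.rot i
  refine ⟨⟨by rw [U.run_append]; exact h1, fun j _ => ?_⟩, ?_⟩
  · rw [U.run_append, h2]
    obtain ⟨k, ν, hν, he⟩ := h.rot_take i j
    rw [he, X.N_H hν]
    exact h.all k
  · unfold vec
    rw [U.run_append, h2, U.ev_append, U.ev_append]
    have e : U.ev (cyc X U (U.run s u)) =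
        U.ev ((cyc X U (U.run s u)).take i) * U.ev ((cyc X U (U.run s u)).drop i) := by
      rw [← U.ev_append, List.take_append_drop]
    rw [e]; group

theorem run_ins {s : U.S} {u : List U.A} (h : PS X U (U.run s u)) (v : List U.A) :
    U.run s (u ++ cyc X U (U.run s u) ++ v) = U.run s (u ++ v) := by
  rw [U.run_append, U.run_append, h.run, U.run_append]

theorem adm_ins {s : U.S} {u : List U.A} (h : PS X U (U.run s u)) (v : List U.A) :
    Adm X U s (u ++ cyc X U (U.run s u) ++ v) ↔ Adm X U s (u ++ v) := by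
  unfold Adm
  rw [run_ins h]
  refine and_congr Iff.rfl (forall_congr' fun i => imp_congr Iff.rfl ?_)
  rw [List.append_assoc _ v, ev_ins, X.N_H (vec_N h), List.append_assoc]

theorem vec_ins {s : U.S} {u : List U.A} (h : PS X U (U.run s u)) (v : List U.A)
    (h2 : PS X U (U.run s (u ++ v))) :
    vec X U s (u ++ cyc X U (U.run s u) ++ v) = vec X U s (u ++ v) := by
  have h3 := X.comm _ (X.N_le _ (vec_N h)) _ (X.N_le _ (vec_N h2))
  have e : vec X U s (u ++ cyc X U (U.run s u) ++ v) =
      vec X U s u * vec X U s (u ++ v) * (vec X U s u)⁻¹ := by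
    conv_lhs => unfold vec
    rw [run_ins h, ev_ins]
    conv_rhs => rw [vec.eq_1 X U s (u ++ v)]
    group
  rw [e, h3, mul_inv_cancel_right]

theorem prefix_ins {α : Type} {u c v w : List α} (h : w <+: u ++ c ++ v) :
    w <+: u ∨ (∃ i, w = u ++ c.take i) ∨ ∃ v', v' <+: v ∧ w = u ++ c ++ v' := by
  rcases List.prefix_or_prefix_of_prefix h (List.prefix_append _ _) with h1 | ⟨r, rfl⟩
  · rcases List.prefix_or_prefix_of_prefix h1 (List.prefix_append _ _) with h2 | ⟨r, rfl⟩
    · exact Or.inl h2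
    · exact Or.inr (Or.inl ⟨r.length, by
        rw [← List.prefix_iff_eq_take.1 ((List.prefix_append_right_inj _).1 h1)]⟩)
  · exact Or.inr (Or.inr ⟨r, (List.prefix_append_right_inj _).1 h, rfl⟩)

theorem prefix_app {α : Type} {u v w : List α} (h : w <+: u ++ v) :
    w <+: u ∨ ∃ v', v' <+: v ∧ w = u ++ v' := by
  rcases List.prefix_or_prefix_of_prefix h (List.prefix_append _ _) with h1 | ⟨r, rfl⟩
  · exact Or.inl h1
  · exact Or.inr ⟨r, (List.prefix_append_right_inj _).1 h, rfl⟩

theorem sig_ins {s : U.S} {u : List U.A} (h : Adm X U s u) (v : List U.A) :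
    Sig X U s (u ++ cyc X U (U.run s u) ++ v) = Sig X U s (u ++ v) := by
  ext g
  constructor
  · rintro ⟨w, hw, ha, rfl⟩
    rcases prefix_ins hw with h1 | ⟨i, rfl⟩ | ⟨v', h1, rfl⟩
    · exact ⟨w, h1.trans (List.prefix_append _ _), ha, rfl⟩
    · exact ⟨u, List.prefix_append _ _, h, (h.mid i).2⟩
    · have ha' := (adm_ins h.1 v').1 ha
      exact ⟨u ++ v', (List.prefix_append_right_inj _).2 h1, ha', vec_ins h.1 v' ha'.1⟩
  · rintro ⟨w, hw, ha, rfl⟩
    rcases prefix_app hw with h1 | ⟨v', h1, rfl⟩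
    · exact ⟨w, h1.trans (by rw [List.append_assoc]; exact List.prefix_append _ _), ha, rfl⟩
    · exact ⟨_, (List.prefix_append_right_inj _).2 h1, (adm_ins h.1 v').2 ha,
        (vec_ins h.1 v' ha.1).symm⟩

theorem cl_ins {s : U.S} {u : List U.A} (h : PS X U (U.run s u)) (v : List U.A) :
    X.cl (U.ev (u ++ cyc X U (U.run s u) ++ v)) = X.cl (U.ev (u ++ v)) := by
  rw [ev_ins, X.cl_mul, X.cl_N (vec_N h), one_mul]

theorem tr_ins {s : U.S} {u : List U.A} (h : Adm X U s u) (v : List U.A) :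
    Tr X U s (u ++ cyc X U (U.run s u) ++ v) = Tr X U s (u ++ v) := by
  ext g
  constructor
  · rintro ⟨w, hw, ha⟩
    rcases prefix_ins hw with h1 | ⟨i, rfl⟩ | ⟨v', h1, rfl⟩
    · exact ⟨w, h1.trans (List.prefix_append _ _), ha⟩
    · refine ⟨u, List.prefix_append _ _, Or.inr ⟨h, ?_⟩⟩
      rcases ha with rfl | ⟨-, j, rfl⟩
      · exact ⟨i, rfl⟩
      · rw [U.run_append, (h.1.rot i).2]
        obtain ⟨k, ν, hν, he⟩ := h.rot_take i j
        exact ⟨k, by rw [he, X.cl_mul, X.cl_N hν, one_mul]⟩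
    · refine ⟨u ++ v', (List.prefix_append_right_inj _).2 h1, ?_⟩
      rcases ha with rfl | ⟨ha, j, rfl⟩
      · exact Or.inl (cl_ins h.1 v')
      · refine Or.inr ⟨(adm_ins h.1 v').1 ha, j, ?_⟩
        rw [run_ins h.1, List.append_assoc _ v', cl_ins h.1, List.append_assoc]
  · rintro ⟨w, hw, ha⟩
    rcases prefix_app hw with h1 | ⟨v', h1, rfl⟩
    · exact ⟨w, h1.trans (by rw [List.append_assoc]; exact List.prefix_append _ _), ha⟩
    · refine ⟨_, (List.prefix_append_right_inj _).2 h1, ?_⟩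
      rcases ha with rfl | ⟨ha, j, rfl⟩
      · exact Or.inl (cl_ins h.1 v').symm
      · refine Or.inr ⟨(adm_ins h.1 v').2 ha, j, ?_⟩
        rw [run_ins h.1, List.append_assoc (u ++ cyc X U (U.run s u)) v', cl_ins h.1,
          List.append_assoc u v']

theorem seg_ins {s : U.S} {u : List U.A} (h : Adm X U s u) (v : List U.A) :
    Seg X.toPre U (u ++ cyc X U (U.run s u) ++ v) ↔ Seg X.toPre U (u ++ v) := by
  have hu : u ≠ [] := by
    rintro rfl
    have := h.all 0
    rw [List.take_zero, List.append_nil, U.ev_nil] at this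
    exact X.one_nH this
  refine and_congr ⟨fun hw => ?_, fun hw => ?_⟩ ?_
  · refine inH_of (by simp [hu]) fun w h1 h2 => ?_
    rcases prefix_app h1 with h3 | ⟨v', h3, rfl⟩
    · exact hw.pre (h3.trans (by rw [List.append_assoc]; exact List.prefix_append _ _)) h2
    · have := hw.pre ((List.prefix_append_right_inj (u ++ cyc X U (U.run s u))).2 h3) (by simp [hu])
      rwa [ev_ins, X.N_H (vec_N h.1)] at this
  · refine inH_of (by simp [hu]) fun w h1 h2 => ?_
    rcases prefix_ins h1 with h3 | ⟨i, rfl⟩ | ⟨v', h3, rfl⟩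
    · exact hw.pre (h3.trans (List.prefix_append _ _)) h2
    · exact h.all i
    · rw [ev_ins, X.N_H (vec_N h.1)]
      exact hw.pre ((List.prefix_append_right_inj u).2 h3) (by simp [hu])
  · rw [ev_ins]
    have h1 := X.N_le _ (X.N_normal.conj_mem _ (vec_N h.1) X.t⁻¹)
    rw [show X.t⁻¹ * (vec X U s u * U.ev (u ++ v)) =
      X.t⁻¹ * vec X U s u * X.t⁻¹⁻¹ * (X.t⁻¹ * U.ev (u ++ v)) by group]
    exact X.L.mul_mem_cancel_left h1

theorem exists_red (s : U.S) (n : ℕ) : ∀ w : List U.A, w.length = n → Seg X.toPre U w →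
    ∃ w', Seg X.toPre U w' ∧ U.run s w' = U.run s w ∧ Red X U s w' ∧ Tr X U s w' = Tr X U s w ∧
      Sig X U s w' = Sig X U s w ∧ U.ev w * (U.ev w')⁻¹ ∈ Submonoid.closure (Sig X U s w) := by
  induction n using Nat.strong_induction_on with
  | _ n ih =>
    intro w hn hw
    by_cases hr : Red X U s w
    · exact ⟨w, hw, rfl, hr, rfl, rfl, by rw [mul_inv_cancel]; exact Submonoid.one_mem _⟩
    · obtain ⟨u, v, hP, rfl⟩ := not_not.1 hr
      have ha : Adm X U s u := by
        refine ⟨hP, fun i hi => hw.1.pre ?_ ?_⟩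
        · rw [List.append_assoc]
          exact (List.prefix_append_right_inj _).2
            ((List.take_prefix _ _).trans (List.prefix_append _ _))
        · intro h0
          have h1 := congrArg List.length h0
          have h2 := MP_pos X U
          rw [List.length_append, List.length_take, hP.len, List.length_nil] at h1
          omega
      obtain ⟨w', h1, h2, h3, h4, h5, h6⟩ := ih (u ++ v).length (by
        rw [← hn, List.length_append, List.length_append, List.length_append, hP.len]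
        have := MP_pos X U
        omega) (u ++ v) rfl ((seg_ins ha v).1 hw)
      refine ⟨w', h1, by rw [h2, run_ins hP], h3, by rw [h4, tr_ins ha], by rw [h5, sig_ins ha], ?_⟩
      rw [sig_ins ha, ev_ins, mul_assoc]
      exact Submonoid.mul_mem _
        (Submonoid.subset_closure ⟨u, List.prefix_append _ _, ha, rfl⟩) h6

theorem exists_ins (s : U.S) (σ : Set G) {ν : G} (hν : ν ∈ Submonoid.closure σ) :
    ∀ w : List U.A, Seg X.toPre U w → Sig X U s w = σ →
    ∃ w', Seg X.toPre U w' ∧ U.run s w' = U.run s w ∧ Tr X U s w' = Tr X U s w ∧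
      Sig X U s w' = σ ∧ U.ev w' = ν * U.ev w := by
  induction hν using Submonoid.closure_induction with
  | mem x hx =>
    intro w hw hs
    rw [← hs] at hx
    obtain ⟨u, ⟨v, rfl⟩, ha, rfl⟩ := hx
    exact ⟨_, (seg_ins ha v).2 hw, run_ins ha.1 v, tr_ins ha v, by rw [sig_ins ha, hs],
      ev_ins s u v⟩
  | one => intro w hw hs; exact ⟨w, hw, rfl, rfl, hs, by rw [one_mul]⟩
  | mul x y _ _ ihx ihy =>
    intro w hw hs
    obtain ⟨w1, a1, a2, a3, a4, a5⟩ := ihy w hw hs
    obtain ⟨w2, b1, b2, b3, b4, b5⟩ := ihx w1 a1 a4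
    exact ⟨w2, b1, b2.trans a2, b3.trans a3, b4, by rw [b5, a5, mul_assoc]⟩

theorem red_len (X : HS G V) (U : UA G) (F : Set (G ⧸ X.N)) (hF : F.Finite) :
    ∃ Lb : ℕ, ∀ (s : U.S) (w : List U.A), (∃ u0, U.run U.s0 u0 = s) →
      (∃ v, U.run s (w ++ v) ∈ U.acc) → Red X U s w → (∀ u, u <+: w → X.cl (U.ev u) ∈ F) →
      w.length ≤ Lb := by
  have := U.finS
  have := hF.to_subtype
  have : Fintype (U.S × F) := Fintype.ofFinite _
  refine ⟨Fintype.card (U.S × F) * MP X U, fun s w h0 hv hr hp => ?_⟩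
  by_contra hlt
  push Not at hlt
  let f : Fin (Fintype.card (U.S × F) + 1) → U.S × F := fun i =>
    (U.run s (w.take (i * MP X U)), ⟨X.cl (U.ev (w.take (i * MP X U))), hp _ (List.take_prefix _ _)⟩)
  have key : ∀ i j : Fin (Fintype.card (U.S × F) + 1), i < j → f i = f j → False := by
    intro i j hij he
    have h1 : U.run s (w.take (i * MP X U)) = U.run s (w.take (j * MP X U)) := congrArg Prod.fst he
    have h2 : X.cl (U.ev (w.take (i * MP X U))) = X.cl (U.ev (w.take (j * MP X U))) :=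
      congrArg (fun z => (z.2 : G ⧸ X.N)) he
    have hij' : (i : ℕ) + 1 ≤ j := hij
    have hj : (j : ℕ) * MP X U ≤ w.length :=
      (Nat.mul_le_mul_right _ (Nat.lt_succ_iff.1 j.2)).trans hlt.le
    have hi : (i : ℕ) * MP X U + MP X U ≤ j * MP X U := by
      rw [← Nat.succ_mul]; exact Nat.mul_le_mul_right _ hij'
    obtain ⟨d, hd⟩ : ∃ d, (j : ℕ) * MP X U = i * MP X U + d := ⟨j * MP X U - i * MP X U, by omega⟩
    set u := w.take (i * MP X U) with hu
    set Y := (w.drop (i * MP X U)).take d with hY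
    have e1 : w.take (j * MP X U) = u ++ Y := by rw [hd, List.take_add]
    have hYl : Y.length = d := by
      rw [hY, List.length_take, List.length_drop]; omega
    rw [e1, U.run_append] at h1
    rw [e1, U.ev_append, X.cl_eq, inv_mul_cancel_left] at h2
    have hP : PS X U (U.run s u) := by
      refine ⟨⟨?_, ?_⟩, Y, ?_, h1.symm, h2⟩
      · obtain ⟨u0, hu0⟩ := h0
        exact ⟨u0 ++ u, by rw [U.run_append, hu0]⟩
      · obtain ⟨v, hv⟩ := hv
        refine ⟨w.drop (i * MP X U) ++ v, ?_⟩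
        rwa [← U.run_append, ← List.append_assoc, hu, List.take_append_drop]
      · intro h0
        rw [h0] at hYl
        have := MP_pos X U
        simp at hYl
        omega
    obtain ⟨r, hr'⟩ := hP.cyc_prefix h1.symm (by omega)
    apply hr
    refine ⟨u, r ++ w.drop (j * MP X U), hP, ?_⟩
    rw [← List.append_assoc, List.append_assoc u, hr', ← e1, List.take_append_drop]
  obtain ⟨i, j, hij, he⟩ := Fintype.exists_ne_map_eq_of_card_lt f (by simp)
  rcases lt_or_gt_of_ne hij with h | h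
  · exact key i j h he
  · exact key j i h he.symm

theorem sig_fin (X : HS G V) (U : UA G) : ∃ 𝒩 : Set G, 𝒩.Finite ∧ ∀ s w, Sig X U s w ⊆ 𝒩 := by
  have := U.finS
  refine ⟨Set.range (fun z : U.S × Fin X.M =>
    X.t ^ (z.2 : ℕ) * U.ev (cyc X U z.1) * (X.t ^ (z.2 : ℕ))⁻¹), Set.finite_range _, ?_⟩
  rintro s w g ⟨u, -, ha, rfl⟩
  have hM : (0 : ℤ) < X.M := by exact_mod_cast X.M_pos
  have h1 := Int.emod_nonneg (X.h (U.ev u)) hM.ne'
  have h2 := Int.emod_lt_of_pos (X.h (U.ev u)) hM
  obtain ⟨j, hj⟩ := Int.eq_ofNat_of_zero_le h1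
  refine ⟨(U.run s u, ⟨j, by omega⟩), ?_⟩
  show X.t ^ j * U.ev (cyc X U (U.run s u)) * (X.t ^ j)⁻¹ = vec X U s u
  have h3 := X.N_cent (U.ev u * (X.t ^ j)⁻¹) (by
    rw [X.h_mul, X.h_inv, X.h_pow, X.h_t, mul_one, ← hj, ← sub_eq_add_neg]
    exact Int.dvd_self_sub_emod) _ (X.N_normal.conj_mem _ ha.1.mem (X.t ^ j))
  unfold vec
  generalize U.ev (cyc X U (U.run s u)) = c at h3 ⊢
  generalize X.t ^ j = τ at h3 ⊢
  generalize U.ev u = x at h3 ⊢
  calc τ * c * τ⁻¹ = (τ * c * τ⁻¹ * (x * τ⁻¹)) * (x * τ⁻¹)⁻¹ := by group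
    _ = (x * τ⁻¹ * (τ * c * τ⁻¹)) * (x * τ⁻¹)⁻¹ := by rw [h3]
    _ = x * c * x⁻¹ := by group

theorem tr_fin (s : U.S) (w : List U.A) : (Tr X U s w).Finite := by
  refine ((U.finite_le (w.length + MP X U)).image (fun u => X.cl (U.ev u))).subset ?_
  rintro c ⟨u, hu, rfl | ⟨ha, i, rfl⟩⟩
  · exact ⟨u, hu.length_le.trans (Nat.le_add_right _ _), rfl⟩
  · refine ⟨_, ?_, rfl⟩
    show (u ++ (cyc X U (U.run s u)).take i).length ≤ _
    rw [List.length_append, List.length_take, ha.1.len]
    have := hu.length_le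
    omega

variable (X U)

/-- the traces occurring with given end states and signature -/
def Fam (s s' : U.S) (σ : Set G) : Set (Set (G ⧸ X.N)) :=
  {I | ∃ w, Seg X.toPre U w ∧ U.run s w = s' ∧ Sig X U s w = σ ∧ I = Tr X U s w}

theorem exists_F1 : ∃ F : Set (G ⧸ X.N), F.Finite ∧ ∀ s w, Seg X.toPre U w →
    (Fam X U s (U.run s w) (Sig X U s w)).Finite → ∀ u, u <+: w → X.cl (U.ev u) ∈ F := by
  have := U.finS
  obtain ⟨𝒩, h1, h2⟩ := sig_fin X U
  have hfin : (Set.univ ×ˢ (Set.univ ×ˢ {σ | σ ⊆ 𝒩}) : Set (U.S × U.S × Set G)).Finite :=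
    Set.finite_univ.prod (Set.finite_univ.prod h1.finite_subsets)
  refine ⟨⋃ z ∈ (Set.univ ×ˢ (Set.univ ×ˢ {σ | σ ⊆ 𝒩}) : Set (U.S × U.S × Set G)),
    ⋃ I ∈ {I | (Fam X U z.1 z.2.1 z.2.2).Finite ∧ I ∈ Fam X U z.1 z.2.1 z.2.2}, I, ?_, ?_⟩
  · refine hfin.biUnion fun z _ => Set.Finite.biUnion ?_ ?_
    · by_cases h : (Fam X U z.1 z.2.1 z.2.2).Finite
      · exact h.subset fun I hI => hI.2
      · exact Set.finite_empty.subset fun I hI => absurd hI.1 h
    · rintro I ⟨-, w, -, -, -, rfl⟩
      exact tr_fin _ _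
  · intro s w hw hf u hu
    refine Set.mem_biUnion (x := (s, U.run s w, Sig X U s w))
      ⟨trivial, trivial, h2 s w⟩ ?_
    exact Set.mem_biUnion (x := Tr X U s w) ⟨hf, w, hw, rfl, rfl, rfl⟩ ⟨u, hu, Or.inl rfl⟩

end ploops

end

end Pool.Agent.H870Z.LM
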