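import Mathlib
import Pool.Agent.H870Z.LM.Words

set_option autoImplicit false

open scoped Classical Pointwise

namespace Pool.Agent.H870Z.LM

open Pool.Agent.Helper943.LM

noncomputable section

variable {G V : Type} [Group G] [NormedAddCommGroup V] [NormedSpace ℂ V]

theorem colour (X : HS G V) (U : UA G) (F : Set (G ⧸ X.N)) (hF : F.Finite) (C : Type) (n : ℕ) :
    ∃ F' : Set (G ⧸ X.N), F'.Finite ∧ ∀ (S : Finset C) (u : List U.A) (col : ℕ → C), S.card ≤ n →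
      (∀ i, i ≤ u.length → col i ∈ S) →
      (∀ i j, i < j → j ≤ u.length → col i = col j →
        X.cl ((U.ev (u.take i))⁻¹ * U.ev (u.take j)) ∈ F) → X.cl (U.ev u) ∈ F' := by
  have := U.finA
  induction n with
  | zero =>
    refine ⟨∅, Set.finite_empty, fun S u col h1 h2 _ => ?_⟩
    have h3 := h2 0 (Nat.zero_le _)
    rw [Finset.card_eq_zero.1 (Nat.le_zero.1 h1)] at h3
    simp at h3
  | succ n ih =>
    obtain ⟨F', hF', h⟩ := ih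
    refine ⟨insert 1 F ∪ (insert 1 F * Set.range (fun a => X.cl (U.mu a))) * F',
      (hF.insert _).union (((hF.insert _).mul (Set.finite_range _)).mul hF'),
      fun S u col h1 h2 h3 => ?_⟩
    let P : ℕ → Prop := fun j => col 0 = col j
    obtain ⟨j, hj⟩ : ∃ j, j = Nat.findGreatest P u.length := ⟨_, rfl⟩
    have hP : col 0 = col j := by
      rw [hj]; exact Nat.findGreatest_spec (P := P) (Nat.zero_le _) rfl
    have hle : j ≤ u.length := by rw [hj]; exact Nat.findGreatest_le _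
    have hgt : ∀ i, j < i → i ≤ u.length → col 0 ≠ col i := fun i h4 h5 =>
      Nat.findGreatest_is_greatest (P := P) (hj ▸ h4) h5
    have h4 : X.cl (U.ev (u.take j)) ∈ insert 1 F := by
      rcases Nat.eq_zero_or_pos j with h0 | h0
      · rw [h0, List.take_zero, U.ev_nil]; exact Set.mem_insert _ _
      · have := h3 0 j h0 hle hP
        rw [List.take_zero, U.ev_nil, inv_one, one_mul] at this
        exact Set.mem_insert_of_mem _ this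
    rcases hle.lt_or_eq with hlt | heq
    · right
      have e : U.ev u = U.ev (u.take j) * U.mu u[j] * U.ev (u.drop (j + 1)) := by
        rw [← ev_single, ← U.ev_append, ← List.take_succ_eq_append_getElem hlt, ← U.ev_append,
          List.take_append_drop]
      rw [e, X.cl_mul, X.cl_mul]
      refine Set.mul_mem_mul (Set.mul_mem_mul h4 ⟨_, rfl⟩) ?_
      refine h (S.erase (col 0)) _ (fun i => col (j + 1 + i)) ?_ ?_ ?_
      · rw [Finset.card_erase_of_mem (h2 0 (Nat.zero_le _))]; omega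
      · intro i hi
        rw [List.length_drop] at hi
        exact Finset.mem_erase.2 ⟨(hgt _ (by omega) (by omega)).symm, h2 _ (by omega)⟩
      · intro i i' h5 h6 h7
        rw [List.length_drop] at h6
        have := h3 (j + 1 + i) (j + 1 + i') (by omega) (by omega) h7
        rw [List.take_add (i := j + 1), List.take_add (i := j + 1), U.ev_append, U.ev_append,
          mul_inv_rev, mul_assoc, inv_mul_cancel_left] at this
        exact this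
    · left
      rwa [heq, List.take_length] at h4

theorem velocity (X : Pre G V) (U : UA G) {s : U.S} (hs : U.live s) {Y Z : List U.A}
    (h1 : U.run s Y = s) (h2 : U.run s Z = s) (h3 : U.ev Y ∈ X.L) (h4 : U.ev Z ∈ X.L) :
    (Z.length : ℂ) • X.b (U.ev Y) = (Y.length : ℂ) • X.b (U.ev Z) := by
  have e : wpow Y Z.length ++ wpow Z Y.length = wpow Z Y.length ++ wpow Y Z.length := by
    apply U.closed_inj hs
    · rw [U.run_append, U.run_wpow h1, U.run_wpow h2]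
    · rw [U.run_append, U.run_wpow h2, U.run_wpow h1]
    · rw [U.ev_append, U.ev_append, U.ev_wpow, U.ev_wpow]
      exact X.comm _ (X.L.pow_mem h3 _) _ (X.L.pow_mem h4 _)
  have e2 := List.append_inj_left e (by rw [wpow_length, wpow_length, mul_comm])
  have e3 := congrArg (fun w => X.b (U.ev w)) e2
  simp only [U.ev_wpow] at e3
  rwa [X.b_pow (X.h_L _ h3), X.b_pow (X.h_L _ h4)] at e3

theorem zpow_app (A : V ≃ₗ[ℂ] V) (i j : ℤ) (v : V) : (A ^ (i + j)) v = (A ^ i) ((A ^ j) v) := by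
  rw [zpow_add]; rfl

theorem exists_c0 (X : Pre G V) (U : UA G) : ∃ c0 : ℕ, ∀ (s1 s2 : U.S) (Y1 Y2 : List U.A) (j : ℤ),
    U.live s1 → U.live s2 → U.run s1 Y1 = s1 → U.run s2 Y2 = s2 → U.ev Y1 ∈ X.L → U.ev Y2 ∈ X.L →
    Y1.length = Y2.length → X.b (U.ev Y1) = (X.A ^ j) (X.b (U.ev Y2)) → (c0 : ℤ) < |j| →
    ∃ i : ℤ, i ≠ 0 ∧ (X.A ^ i) (X.b (U.ev Y1)) = X.b (U.ev Y1) := by
  have := U.finS
  let Jn : U.S × U.S → Set ℤ := fun z => {j | ∃ Y1 Y2 : List U.A, U.live z.1 ∧ U.live z.2 ∧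
    U.run z.1 Y1 = z.1 ∧ U.run z.2 Y2 = z.2 ∧ U.ev Y1 ∈ X.L ∧ U.ev Y2 ∈ X.L ∧
    Y1.length = Y2.length ∧ X.b (U.ev Y1) = (X.A ^ j) (X.b (U.ev Y2)) ∧
    ¬ ∃ i : ℤ, i ≠ 0 ∧ (X.A ^ i) (X.b (U.ev Y1)) = X.b (U.ev Y1)}
  have hsub : ∀ z, (Jn z).Subsingleton := by
    rintro z j ⟨Y1, Y2, l1, l2, r1, r2, m1, m2, hl, hb, hn⟩ j'
      ⟨Y1', Y2', -, -, r1', r2', m1', m2', hl', hb', hn'⟩
    by_contra hne
    have v1 := velocity X U l1 r1 r1' m1 m1'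
    have v2 := velocity X U l2 r2 r2' m2 m2'
    have hpos : (Y1'.length : ℂ) ≠ 0 := by
      intro h0
      have h1 : Y1' = [] := List.length_eq_zero_iff.1 (by exact_mod_cast h0)
      apply hn'
      refine ⟨1, one_ne_zero, ?_⟩
      rw [h1, U.ev_nil, X.b_one, map_zero]
    rw [← hl, ← hl'] at v2
    have e1 : (Y1'.length : ℂ) • X.b (U.ev Y1) =
        (Y1'.length : ℂ) • (X.A ^ j') (X.b (U.ev Y2)) := by
      rw [v1, hb', ← map_smul, ← v2, map_smul]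
    have e2 := smul_right_injective V hpos e1
    apply hn
    refine ⟨j - j', sub_ne_zero.2 hne, ?_⟩
    conv_lhs => rw [e2]
    rw [← zpow_app, sub_add_cancel, ← hb]
  have hfin : (⋃ z, Jn z).Finite := Set.finite_iUnion fun z => (hsub z).finite
  obtain ⟨C, hC⟩ := (hfin.image (fun j => j.natAbs)).bddAbove
  refine ⟨C, fun s1 s2 Y1 Y2 j l1 l2 r1 r2 m1 m2 hl hb hj => ?_⟩
  by_contra hn
  have h1 : j.natAbs ≤ C :=
    hC ⟨j, Set.mem_iUnion.2 ⟨(s1, s2), Y1, Y2, l1, l2, r1, r2, m1, m2, hl, hb, hn⟩, rfl⟩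
  rw [Int.abs_eq_natAbs] at hj
  omega

theorem exists_mid {α : Type} (w : List α) {t t' : ℕ} (h1 : t ≤ t') (h2 : t' ≤ w.length) :
    ∃ Y : List α, Y.length = t' - t ∧ w.take t' = w.take t ++ Y := by
  obtain ⟨d, rfl⟩ := Nat.exists_eq_add_of_le h1
  refine ⟨(w.drop t).take d, ?_, List.take_add⟩
  rw [List.length_take, List.length_drop]; omega

theorem live_take (U : UA G) {w : List U.A} (hw : w ∈ U.L) (t : ℕ) :
    U.live (U.run U.s0 (w.take t)) :=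
  U.live_of_mem (v := w.drop t) (by rwa [List.take_append_drop])

theorem core (X : HS G V) (U : UA G) : ∃ c0 : ℕ, ∀ (D Rc : Set G), D.Finite → Rc.Finite →
    ∃ F : Set (G ⧸ X.N), F.Finite ∧ ∀ w1 ∈ U.L, ∀ w2 ∈ U.L, ∀ σ : ℕ,
      (∀ t, (U.ev (w1.take t))⁻¹ * U.ev (w2.take t) ∈ D) →
      (∀ t, σ < t → (∃ r ∈ Rc, r⁻¹ * U.ev (w1.take t) ∈ X.L) ∧
        (∃ r ∈ Rc, r⁻¹ * U.ev (w2.take t) ∈ X.L) ∧
        (c0 : ℤ) < |X.h (U.ev (w1.take t)) - X.h (U.ev (w2.take t))|) →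
      X.cl (U.ev (w1.drop σ)) ∈ F := by
  have := U.finS
  obtain ⟨c0, hc0⟩ := exists_c0 X.toPre U
  obtain ⟨Fp, hFp, hper⟩ := X.per
  refine ⟨c0, fun D Rc hD hRc => ?_⟩
  have hS : (({0, 1, 2} : Set ℕ) ×ˢ ((Set.univ : Set U.S) ×ˢ ((Set.univ : Set U.S) ×ˢ
      (D ×ˢ (insert 1 Rc ×ˢ insert 1 Rc))))).Finite :=
    (Set.toFinite _).prod (Set.finite_univ.prod (Set.finite_univ.prod
      (hD.prod ((hRc.insert _).prod (hRc.insert _)))))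
  obtain ⟨F, hF, h⟩ := colour X U (insert 1 Fp) (hFp.insert _) (ℕ × U.S × U.S × G × G × G)
    hS.toFinset.card
  refine ⟨F, hF, fun w1 hw1 w2 hw2 σ hft hh => ?_⟩
  have hr : ∀ t, ∃ r1 r2, r1 ∈ insert 1 Rc ∧ r2 ∈ insert 1 Rc ∧ (σ < t →
      r1⁻¹ * U.ev (w1.take t) ∈ X.L ∧ r2⁻¹ * U.ev (w2.take t) ∈ X.L) := by
    intro t
    by_cases ht : σ < t
    · obtain ⟨⟨r1, a1, a2⟩, ⟨r2, a3, a4⟩, -⟩ := hh t ht
      exact ⟨r1, r2, Set.mem_insert_of_mem _ a1, Set.mem_insert_of_mem _ a3, fun _ => ⟨a2, a4⟩⟩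
    · exact ⟨1, 1, Set.mem_insert _ _, Set.mem_insert _ _, fun h => absurd h ht⟩
  choose r1 r2 hr1 hr2 hr3 using hr
  refine h hS.toFinset _ (fun i => ((if i = 0 then 0 else if σ + i ≤ w2.length then 1 else 2),
    U.run U.s0 (w1.take (σ + i)), U.run U.s0 (w2.take (σ + i)),
    (U.ev (w1.take (σ + i)))⁻¹ * U.ev (w2.take (σ + i)), r1 (σ + i), r2 (σ + i))) le_rfl ?_ ?_
  · intro i _
    rw [Set.Finite.mem_toFinset]
    refine ⟨?_, trivial, trivial, hft _, hr1 _, hr2 _⟩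
    show (if i = 0 then 0 else if σ + i ≤ w2.length then 1 else 2) ∈ ({0, 1, 2} : Set ℕ)
    split_ifs <;> simp
  · intro i j hij hj he
    rw [List.length_drop] at hj
    simp only [Prod.mk.injEq] at he
    obtain ⟨e0, e1, e2, e3, e4, e5⟩ := he
    have hi0 : i ≠ 0 := by
      rintro rfl
      rw [if_pos rfl, if_neg (by omega)] at e0
      split_ifs at e0
    rw [if_neg hi0, if_neg (by omega : j ≠ 0)] at e0
    obtain ⟨Y1, l1, p1⟩ := exists_mid w1 (t := σ + i) (t' := σ + j) (by omega) (by omega)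
    have key : (U.ev ((w1.drop σ).take i))⁻¹ * U.ev ((w1.drop σ).take j) = U.ev Y1 := by
      have := congrArg U.ev p1
      rw [U.ev_append, List.take_add, List.take_add, U.ev_append, U.ev_append, mul_assoc,
        mul_right_inj] at this
      rw [this, inv_mul_cancel_left]
    rw [key]
    by_cases hj2 : σ + j ≤ w2.length
    · right
      obtain ⟨Y2, l2, p2⟩ := exists_mid w2 (t := σ + i) (t' := σ + j) (by omega) hj2
      obtain ⟨a1, a2⟩ := hr3 (σ + i) (by omega)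
      obtain ⟨a3, a4⟩ := hr3 (σ + j) (by omega)
      rw [← e4, p1, U.ev_append, ← mul_assoc, X.L.mul_mem_cancel_left a1] at a3
      rw [← e5, p2, U.ev_append, ← mul_assoc, X.L.mul_mem_cancel_left a2] at a4
      rw [p1, U.run_append] at e1
      rw [p2, U.run_append] at e2
      rw [p1, p2, U.ev_append, U.ev_append] at e3
      have e6 : U.ev Y1 = ((U.ev (w1.take (σ + i)))⁻¹ * U.ev (w2.take (σ + i))) * U.ev Y2 *
          ((U.ev (w1.take (σ + i)))⁻¹ * U.ev (w2.take (σ + i)))⁻¹ := by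
        rw [eq_mul_inv_iff_mul_eq]
        conv_lhs => rw [e3]
        group
      obtain ⟨k, hk, hk'⟩ := hc0 _ _ Y1 Y2
        (X.h ((U.ev (w1.take (σ + i)))⁻¹ * U.ev (w2.take (σ + i)))) (live_take U hw1 _)
        (live_take U hw2 _) e1.symm e2.symm a3 a4 (l1.trans l2.symm)
        (by rw [← X.b_conj _ (X.h_L _ a4), ← e6]) (by
          have := (hh (σ + i) (by omega)).2.2
          rw [X.h_mul, X.h_inv, ← abs_neg]
          convert this using 2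
          ring)
      exact hper _ a3 k hk hk'
    · left
      rw [if_neg hj2] at e0
      have hi2 : ¬ σ + i ≤ w2.length := by
        intro h0
        rw [if_pos h0] at e0
        omega
      rw [List.take_of_length_le (l := w2) (by omega), List.take_of_length_le (l := w2) (by omega),
        mul_left_inj, inv_inj, p1, U.ev_append, left_eq_mul] at e3
      rw [e3]; rfl

theorem Pre.hover1 (X : Pre G V) (d : G) : ∃ E : Set G, E.Finite ∧ ∀ a, ¬ (a ∈ X.H ↔ a * d ∈ X.H) →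
    ∃ e ∈ E, a * e ∈ X.L := by
  induction d using X.induc with
  | one => exact ⟨∅, Set.finite_empty, fun a h => absurd (by rw [mul_one]) h⟩
  | lam g z hz ih =>
    obtain ⟨E, hE, h⟩ := ih
    exact ⟨E, hE, fun a ha => h a (by rwa [← mul_assoc, X.H_L_iff hz] at ha)⟩
  | up g ih =>
    obtain ⟨E, hE, h⟩ := ih
    refine ⟨insert g E, hE.insert _, fun a ha => ?_⟩
    by_cases h1 : a ∈ X.H ↔ a * g ∈ X.H
    · refine ⟨g, Set.mem_insert _ _, X.B_le _ ?_⟩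
      rw [h1, ← mul_assoc] at ha
      have h2 : a * g ∉ X.H := fun h3 => ha (iff_of_true h3 (X.H_t _ h3))
      exact X.enter h2 (by by_contra h3; exact ha (iff_of_false h2 h3))
    · obtain ⟨e, he, h2⟩ := h a h1
      exact ⟨e, Set.mem_insert_of_mem _ he, h2⟩
  | down g ih =>
    obtain ⟨E, hE, h⟩ := ih
    refine ⟨insert (g * X.t⁻¹) E, hE.insert _, fun a ha => ?_⟩
    by_cases h1 : a ∈ X.H ↔ a * g ∈ X.H
    · refine ⟨g * X.t⁻¹, Set.mem_insert _ _, X.B_le _ ?_⟩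
      rw [h1, ← mul_assoc] at ha
      have h2 : a * g ∈ X.H := by
        by_contra h3
        exact ha (iff_of_false h3 (X.nH_tinv h3))
      rw [← mul_assoc]
      exact X.H_exit _ h2 (fun h3 => ha (iff_of_true h2 h3))
    · obtain ⟨e, he, h2⟩ := h a h1
      exact ⟨e, Set.mem_insert_of_mem _ he, h2⟩

theorem Pre.left_cos (X : Pre G V) (E : Set G) (hE : E.Finite) : ∃ Rc : Set G, Rc.Finite ∧
    ∀ a, ∀ e ∈ E, a * e ∈ X.L → ∃ r ∈ Rc, r⁻¹ * a ∈ X.L := by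
  choose R h1 h2 using X.cms
  refine ⟨⋃ e ∈ E, (fun r => r * e⁻¹) '' (R e⁻¹ : Set G),
    hE.biUnion fun e _ => (Finset.finite_toSet _).image _, fun a e he ha => ?_⟩
  obtain ⟨r, hr, h3⟩ := h2 e⁻¹ _ ha
  refine ⟨r * e⁻¹, Set.mem_biUnion he ⟨r, hr, rfl⟩, ?_⟩
  rw [X.comm _ ha _ (X.L.inv_mem (h1 _ r hr))] at h3
  rwa [show e⁻¹⁻¹ * (r⁻¹ * (a * e)) * e⁻¹ = (r * e⁻¹)⁻¹ * a by group] at h3

theorem Pre.hover (X : Pre G V) (D : Set G) (hD : D.Finite) : ∃ Rc : Set G, Rc.Finite ∧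
    ∀ a a', a⁻¹ * a' ∈ D → ¬ (a ∈ X.H ↔ a' ∈ X.H) →
      (∃ r ∈ Rc, r⁻¹ * a ∈ X.L) ∧ ∃ r ∈ Rc, r⁻¹ * a' ∈ X.L := by
  choose E h1 h2 using X.hover1
  obtain ⟨Rc, h3, h4⟩ := X.left_cos (⋃ d ∈ D, E d ∪ (fun e => d⁻¹ * e) '' E d)
    (hD.biUnion fun d _ => (h1 d).union ((h1 d).image _))
  refine ⟨Rc, h3, fun a a' hd hn => ?_⟩
  obtain ⟨e, he, h5⟩ := h2 (a⁻¹ * a') a (by rwa [mul_inv_cancel_left])
  refine ⟨h4 a e (Set.mem_biUnion hd (Or.inl he)) h5,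
    h4 a' ((a⁻¹ * a')⁻¹ * e) (Set.mem_biUnion hd (Or.inr ⟨e, he, rfl⟩)) ?_⟩
  rwa [show a' * ((a⁻¹ * a')⁻¹ * e) = a * e by group]

theorem ftK (U : UA G) (K : Set G) (hK : K.Finite) : ∃ D : Set G, D.Finite ∧ ∀ g g', g⁻¹ * g' ∈ K →
    ∀ t, (U.ev ((nf U g).take t))⁻¹ * U.ev ((nf U g').take t) ∈ D := by
  choose D h1 h2 using U.ft'
  refine ⟨⋃ k ∈ K, D k, hK.biUnion fun k _ => h1 k, fun g g' hk t => Set.mem_biUnion hk ?_⟩
  exact h2 _ _ (nf_mem U g) _ (nf_mem U g') (by rw [nf_ev, nf_ev, mul_inv_cancel_left]) t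

/-- the normal form has a suffix inside the half tree at `y` with class outside `F` -/
def Bad (X : HS G V) (U : UA G) (y : G) (F : Set (G ⧸ X.N)) (g : G) : Prop :=
  ∃ τ, (∀ t, τ < t → y⁻¹ * U.ev ((nf U g).take t) ∈ X.H) ∧ X.cl (U.ev ((nf U g).drop τ)) ∉ F

/-- some neighbour is bad -/
def BadT (X : HS G V) (U : UA G) (y : G) (F : Set (G ⧸ X.N)) (Θ : Set G) (a : G) : Prop :=
  ∃ θ ∈ Θ, Bad X U y F (a * θ)

theorem four_bad (X : HS G V) (U : UA G) {z0 : G} (hz : z0 ∈ X.L) (hB : z0 ∉ X.B) (Θ : Set G)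
    (hΘ : Θ.Finite) : ∃ J : ℕ, ∀ K : Set G, K.Finite → ∃ F : Set (G ⧸ X.N), F.Finite ∧
      ∀ a a', a⁻¹ * a' ∈ K → BadT X U 1 F Θ a → BadT X U z0 F Θ a → BadT X U (X.t ^ J) F Θ a' →
        BadT X U (X.t ^ J * z0) F Θ a' → False := by
  obtain ⟨c0, hc⟩ := core X U
  obtain ⟨D0, hD0, hft0⟩ := ftK U (Θ⁻¹ * Θ) (hΘ.inv.mul hΘ)
  obtain ⟨Rc, hRc, hov⟩ := X.hover D0 hD0
  obtain ⟨R, hR⟩ := (hRc.image (fun r => (X.h r).natAbs)).bddAbove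
  have hRb : ∀ r ∈ Rc, ∀ x, r⁻¹ * x ∈ X.L → -(R : ℤ) ≤ X.h x ∧ X.h x ≤ R := by
    intro r hr x hx
    have h1 : (X.h r).natAbs ≤ R := hR ⟨r, hr, rfl⟩
    have h2 := X.h_L _ hx
    rw [X.h_mul, X.h_inv] at h2
    omega
  refine ⟨2 * R + c0 + 1, fun K hK => ?_⟩
  set κ := X.t ^ (2 * R + c0 + 1) with hκ
  have hκh : X.h κ = 2 * R + c0 + 1 := by rw [hκ, X.h_pow, X.h_t]; push_cast; ring
  obtain ⟨D, hD, hft⟩ := ftK U (Θ⁻¹ * (K ∪ K⁻¹) * Θ) ((hΘ.inv.mul (hK.union hK.inv)).mul hΘ)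
  obtain ⟨F, hF, hcore⟩ := hc D (Rc ∪ (fun r => κ * r) '' Rc) hD (hRc.union (hRc.image _))
  refine ⟨F, hF, ?_⟩
  rintro a a' hk ⟨θ1, t1, τ1, a1, b1⟩ ⟨θ2, t2, τ2, a2, b2⟩ ⟨θ3, t3, τ3, a3, b3⟩ ⟨θ4, t4, τ4, a4, b4⟩
  have hd0 : ∀ (c : G), ∀ θ ∈ Θ, ∀ θ' ∈ Θ, (c * θ)⁻¹ * (c * θ') ∈ Θ⁻¹ * Θ := by
    intro c θ h1 θ' h2
    rw [show (c * θ)⁻¹ * (c * θ') = θ⁻¹ * θ' by group]
    exact Set.mul_mem_mul (Set.inv_mem_inv.2 h1) h2
  have hd1 : ∀ θ ∈ Θ, ∀ θ' ∈ Θ, (a * θ)⁻¹ * (a' * θ') ∈ Θ⁻¹ * (K ∪ K⁻¹) * Θ := by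
    intro θ h1 θ' h2
    rw [show (a * θ)⁻¹ * (a' * θ') = θ⁻¹ * (a⁻¹ * a') * θ' by group]
    exact Set.mul_mem_mul (Set.mul_mem_mul (Set.inv_mem_inv.2 h1) (Or.inl hk)) h2
  have hd2 : ∀ θ ∈ Θ, ∀ θ' ∈ Θ, (a' * θ)⁻¹ * (a * θ') ∈ Θ⁻¹ * (K ∪ K⁻¹) * Θ := by
    intro θ h1 θ' h2
    rw [show (a' * θ)⁻¹ * (a * θ') = θ⁻¹ * (a⁻¹ * a')⁻¹ * θ' by group]
    exact Set.mul_mem_mul (Set.mul_mem_mul (Set.inv_mem_inv.2 h1)
      (Or.inr (Set.inv_mem_inv.2 hk))) h2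
  have hdis : ∀ x x', x ∈ X.H → z0⁻¹ * x' ∈ X.H → ¬ (x ∈ X.H ↔ x' ∈ X.H) := by
    intro x x' h1 h2 h3
    have := X.disj hz hB _ h2
    rw [mul_inv_cancel_left] at this
    exact this (h3.1 h1)
  obtain ⟨σ, hσ⟩ : ∃ σ, σ = max (max τ1 τ2) (max τ3 τ4) := ⟨_, rfl⟩
  let Lo : G → Prop := fun g => ∀ t, σ < t → ∃ r ∈ Rc, r⁻¹ * U.ev ((nf U g).take t) ∈ X.L
  let Hi : G → Prop := fun g => ∀ t, σ < t → ∃ r ∈ Rc, r⁻¹ * (κ⁻¹ * U.ev ((nf U g).take t)) ∈ X.L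
  have low : ∀ t, σ < t → (∃ r ∈ Rc, r⁻¹ * U.ev ((nf U (a * θ1)).take t) ∈ X.L) ∧
      ∃ r ∈ Rc, r⁻¹ * U.ev ((nf U (a * θ2)).take t) ∈ X.L := by
    intro t ht
    refine hov _ _ (hft0 _ _ (hd0 a θ1 t1 θ2 t2) t) (hdis _ _ ?_ (a2 t (by omega)))
    simpa using a1 t (by omega)
  have high : ∀ t, σ < t → (∃ r ∈ Rc, r⁻¹ * (κ⁻¹ * U.ev ((nf U (a' * θ3)).take t)) ∈ X.L) ∧
      ∃ r ∈ Rc, r⁻¹ * (κ⁻¹ * U.ev ((nf U (a' * θ4)).take t)) ∈ X.L := by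
    intro t ht
    refine hov _ _ ?_ (hdis _ _ (a3 t (by omega)) ?_)
    · have := hft0 _ _ (hd0 a' θ3 t3 θ4 t4) t
      rwa [mul_inv_rev, inv_inv, mul_assoc, mul_inv_cancel_left]
    · have := a4 t (by omega)
      rwa [mul_inv_rev, mul_assoc] at this
  have sep : ∀ g g', Lo g → Hi g' → ∀ t, σ < t →
      (∃ r ∈ Rc ∪ (fun r => κ * r) '' Rc, r⁻¹ * U.ev ((nf U g).take t) ∈ X.L) ∧
      (∃ r ∈ Rc ∪ (fun r => κ * r) '' Rc, r⁻¹ * U.ev ((nf U g').take t) ∈ X.L) ∧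
      (c0 : ℤ) < |X.h (U.ev ((nf U g).take t)) - X.h (U.ev ((nf U g').take t))| := by
    intro g g' h1 h2 t ht
    obtain ⟨r, hr, h3⟩ := h1 t ht
    obtain ⟨r', hr', h4⟩ := h2 t ht
    refine ⟨⟨r, Or.inl hr, h3⟩, ⟨κ * r', Or.inr ⟨r', hr', rfl⟩, by rwa [mul_inv_rev, mul_assoc]⟩, ?_⟩
    have h5 := hRb r hr _ h3
    have h6 := hRb r' hr' _ h4
    rw [X.h_mul, X.h_inv, hκh] at h6
    rw [lt_abs]
    right
    omega
  have fin1 : ∀ θ ∈ Θ, ∀ θ' ∈ Θ, Lo (a * θ) → Hi (a' * θ') →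
      X.cl (U.ev ((nf U (a * θ)).drop σ)) ∈ F ∧ X.cl (U.ev ((nf U (a' * θ')).drop σ)) ∈ F := by
    intro θ h1 θ' h2 h3 h4
    refine ⟨hcore _ (nf_mem U _) _ (nf_mem U _) σ (hft _ _ (hd1 θ h1 θ' h2)) (sep _ _ h3 h4),
      hcore _ (nf_mem U _) _ (nf_mem U _) σ (hft _ _ (hd2 θ' h2 θ h1)) fun t ht => ?_⟩
    obtain ⟨k1, k2, k3⟩ := sep _ _ h3 h4 t ht
    exact ⟨k2, k1, by rwa [abs_sub_comm]⟩
  have f1 := fin1 θ1 t1 θ3 t3 (fun t ht => (low t ht).1) (fun t ht => (high t ht).1)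
  have f2 := fin1 θ2 t2 θ4 t4 (fun t ht => (low t ht).2) (fun t ht => (high t ht).2)
  have : σ = τ1 ∨ σ = τ2 ∨ σ = τ3 ∨ σ = τ4 := by omega
  rcases this with h | h | h | h
  · exact b1 (h ▸ f1.1)
  · exact b2 (h ▸ f2.1)
  · exact b3 (h ▸ f1.2)
  · exact b4 (h ▸ f2.2)

theorem Pre.line_H (X : Pre G V) (h1 : ∀ z ∈ X.L, z ∈ X.B) (h2 : ∀ z ∈ X.L, X.t * z * X.t⁻¹ ∈ X.L)
    (x : G) : x ∈ X.H ↔ 1 ≤ X.h x := by
  have key : ∀ g, (X.t ^ X.h g)⁻¹ * g ∈ X.L := by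
    intro g
    induction g using X.induc with
    | one => rw [X.h_one]; simp
    | lam g z hz ih =>
      rw [X.h_mul, X.h_L z hz, add_zero, ← mul_assoc]; exact X.L.mul_mem ih hz
    | up g ih =>
      rw [X.h_mul, X.h_t]
      have := X.P_le _ (h1 _ ih)
      rwa [show X.t⁻¹ * ((X.t ^ X.h g)⁻¹ * g) * X.t = (X.t ^ (X.h g + 1))⁻¹ * (g * X.t) by group]
        at this
    | down g ih =>
      rw [X.h_mul, X.h_inv, X.h_t]
      have := h2 _ ih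
      rwa [show X.t * ((X.t ^ X.h g)⁻¹ * g) * X.t⁻¹ = (X.t ^ (X.h g + -1))⁻¹ * (g * X.t⁻¹) by group]
        at this
  have hp : ∀ n : ℕ, X.t ^ (n + 1) ∈ X.H := by
    intro n
    induction n with
    | zero => simpa using X.t_H
    | succ n ih => rw [pow_succ]; exact X.H_t _ ih
  have hn : ∀ n : ℕ, (X.t ^ n)⁻¹ ∉ X.H := by
    intro n
    induction n with
    | zero => simpa using X.one_nH
    | succ n ih => rw [pow_succ', mul_inv_rev]; exact X.nH_tinv ih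
  have e : x ∈ X.H ↔ X.t ^ X.h x ∈ X.H := by
    rw [← X.H_L_iff (x := X.t ^ X.h x) (key x), mul_inv_cancel_left]
  rw [e]
  by_cases h : 1 ≤ X.h x
  · obtain ⟨n, hn'⟩ : ∃ n : ℕ, X.h x = ((n + 1 : ℕ) : ℤ) := ⟨(X.h x - 1).toNat, by omega⟩
    refine iff_of_true ?_ h
    rw [hn', zpow_natCast]; exact hp n
  · obtain ⟨n, hn'⟩ : ∃ n : ℕ, X.h x = - (n : ℤ) := ⟨(- X.h x).toNat, by omega⟩
    refine iff_of_false ?_ h
    rw [hn', zpow_neg, zpow_natCast]; exact hn n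

theorem two_bad (X : HS G V) (U : UA G) (h1 : ∀ z ∈ X.L, z ∈ X.B)
    (h2 : ∀ z ∈ X.L, X.t * z * X.t⁻¹ ∈ X.L) (Θ : Set G)
    (hΘ : Θ.Finite) : ∃ J : ℕ, ∀ K : Set G, K.Finite → ∃ F : Set (G ⧸ X.N), F.Finite ∧
      ∀ a a', a⁻¹ * a' ∈ K → BadT X.flip U 1 F Θ a → BadT X U (X.t ^ J) F Θ a' → False := by
  obtain ⟨c0, hc⟩ := core X U
  refine ⟨c0, fun K hK => ?_⟩
  obtain ⟨D, hD, hft⟩ := ftK U (Θ⁻¹ * (K ∪ K⁻¹) * Θ) ((hΘ.inv.mul (hK.union hK.inv)).mul hΘ)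
  obtain ⟨Rc, hRc, hov⟩ := X.hover D hD
  obtain ⟨F, hF, hcore⟩ := hc D Rc hD hRc
  refine ⟨F, hF, ?_⟩
  rintro a a' hk ⟨θ1, t1, τ1, a1, b1⟩ ⟨θ3, t3, τ3, a3, b3⟩
  have hd1 : (a * θ1)⁻¹ * (a' * θ3) ∈ Θ⁻¹ * (K ∪ K⁻¹) * Θ := by
    rw [show (a * θ1)⁻¹ * (a' * θ3) = θ1⁻¹ * (a⁻¹ * a') * θ3 by group]
    exact Set.mul_mem_mul (Set.mul_mem_mul (Set.inv_mem_inv.2 t1) (Or.inl hk)) t3
  have hd2 : (a' * θ3)⁻¹ * (a * θ1) ∈ Θ⁻¹ * (K ∪ K⁻¹) * Θ := by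
    rw [show (a' * θ3)⁻¹ * (a * θ1) = θ3⁻¹ * (a⁻¹ * a')⁻¹ * θ1 by group]
    exact Set.mul_mem_mul (Set.mul_mem_mul (Set.inv_mem_inv.2 t3)
      (Or.inr (Set.inv_mem_inv.2 hk))) t1
  obtain ⟨σ, hσ⟩ : ∃ σ, σ = max τ1 τ3 := ⟨_, rfl⟩
  have sep : ∀ t, σ < t →
      (∃ r ∈ Rc, r⁻¹ * U.ev ((nf U (a * θ1)).take t) ∈ X.L) ∧
      (∃ r ∈ Rc, r⁻¹ * U.ev ((nf U (a' * θ3)).take t) ∈ X.L) ∧
      (c0 : ℤ) < |X.h (U.ev ((nf U (a * θ1)).take t)) - X.h (U.ev ((nf U (a' * θ3)).take t))| := by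
    intro t ht
    have k1 : X.t * (1⁻¹ * U.ev ((nf U (a * θ1)).take t)) ∉ X.H := a1 t (by omega)
    have k3 := a3 t (by omega)
    rw [X.line_H h1 h2, X.h_mul, X.h_t, inv_one, one_mul] at k1
    rw [X.line_H h1 h2, X.h_mul, X.h_inv, X.h_pow, X.h_t] at k3
    obtain ⟨k4, k5⟩ := hov _ _ (hft _ _ hd1 t) (by
      rw [X.line_H h1 h2, X.line_H h1 h2]; omega)
    refine ⟨k4, k5, ?_⟩
    rw [lt_abs]
    right
    omega
  have f1 := hcore _ (nf_mem U _) _ (nf_mem U _) σ (hft _ _ hd1) sep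
  have f2 := hcore _ (nf_mem U _) _ (nf_mem U _) σ (hft _ _ hd2) fun t ht => by
    obtain ⟨k1, k2, k3⟩ := sep t ht
    exact ⟨k2, k1, by rwa [abs_sub_comm]⟩
  have : σ = τ1 ∨ σ = τ3 := by omega
  rcases this with h | h
  · exact b1 (h ▸ f1)
  · exact b3 (h ▸ f2)

end

end Pool.Agent.H870Z.LM
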