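import Mathlib
import Pool.Agent.H870Z.LM.Geo
import Pool.Agent.H870Z.LM.Fun

set_option autoImplicit false

open scoped Classical Pointwise

namespace Pool.Agent.H870Z.LM

open Pool.Agent.Helper943.LM

noncomputable section

variable {G V : Type} [Group G] [NormedAddCommGroup V] [NormedSpace ℂ V]

theorem sh_inj {κ : Type} {g : G} {x x' : κ × G} (h : sh g x = sh g x') : x = x' := by
  have := congrArg (sh g⁻¹) h
  rwa [sh_sh, sh_sh, mul_inv_cancel, sh_one, sh_one] at this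

theorem IF.mu_inj {κ : Type} (P : IF κ G) {A A' : Set (κ × G)} (hA : P.I A) (hA' : P.I A')
    (F : Set G) (hF : F.Finite) (Rel : κ × G → κ × G → Prop)
    (h1 : ∀ x ∈ A, ∃ f ∈ F, sh f x ∈ A' ∧ Rel x (sh f x))
    (h3 : ∀ x x' z, Rel x z → Rel x' z → x = x') : P.mu A ≤ P.mu A' := by
  choose! f a1 a2 a3 using h1
  have hsub : (fun x => sh (f x) x) '' A ⊆ A' := by
    rintro _ ⟨x, hx, rfl⟩; exact a2 x hx
  rw [← P.mu_disp (fun x => sh (f x) x) F hF hA (P.I_mono _ _ hsub hA')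
    (fun x hx => ⟨f x, a1 x hx, rfl⟩) (fun x hx x' hx' he => h3 x x' _ (a3 x hx) (by
      have : sh (f x) x = sh (f x') x' := he
      rw [this]; exact a3 x' hx'))]
  exact P.mu_mono hsub hA'

theorem split_uniq {α : Type} {a a' c c' r r' : List α} (h : a ++ r ++ c = a' ++ r' ++ c')
    (h1 : a.length = a'.length) (h2 : r.length = r'.length) : a = a' ∧ r = r' ∧ c = c' := by
  obtain ⟨h3, h4⟩ := List.append_inj h (by rw [List.length_append, List.length_append, h1, h2])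
  obtain ⟨h5, h6⟩ := List.append_inj h3 h1
  exact ⟨h5, h6, h4⟩

/-- good segments -/
def Gd (X : HS G V) (U : UA G) (F : Set (G ⧸ X.N)) (w : List U.A) : Prop :=
  ∀ u, u <+: w → X.cl (U.ev u) ∈ F

/-- all segments are good -/
def GG (X : HS G V) (U : UA G) (F : Set (G ⧸ X.N)) (y g : G) : Prop :=
  ∀ p es, Dec X.toPre U y g p es → ∀ w ∈ es, Gd X U F w

theorem suffix_cl {X : HS G V} {U : UA G} {F : Set (G ⧸ X.N)} {y g : G} {p : List U.A}
    {es : List (List U.A)} (h : Dec X.toPre U y g p es) (hne : es ≠ []) (hb : ¬ Bad X U y F g)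
    {u v : List U.A} (he : es.flatten = u ++ v) : X.cl (U.ev v) ∈ F := by
  by_contra hc
  apply hb
  refine ⟨p.length + u.length, fun t ht => ?_, ?_⟩
  · obtain ⟨d, rfl⟩ := Nat.exists_eq_add_of_le (show p.length ≤ t by omega)
    rw [h.1, List.take_length_add_append, U.ev_append, ← mul_assoc, X.B_H h.2.1]
    exact inH_flatten hne h.2.2 d (by omega)
  · rwa [h.1, he, ← List.append_assoc, ← List.length_append, List.drop_left]

theorem dich (X : HS G V) (U : UA G) (hL : ∀ a, X.Let (U.mu a)) :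
    ∃ F1 : Set (G ⧸ X.N), F1.Finite ∧ ∀ {κ : Type} (P : IF κ G) (y : κ → G)
      (F : Set (G ⧸ X.N)) (m : ℕ), F.Finite → (∀ k, (y k)⁻¹ ∉ X.H) → P.I (X.Top y (m + 1)) →
      P.mu {x | x ∈ X.Top y (m + 1) ∧ ¬ Bad X U (y x.1) F x.2 ∧ ¬ GG X U F1 (y x.1) x.2} ≤ 0 := by
  have := U.finS
  obtain ⟨F1, hF1, hF1'⟩ := exists_F1 X U
  refine ⟨F1, hF1, fun {κ} P y F m hF hy hI => ?_⟩
  obtain ⟨Lb, hLb⟩ := red_len X U (F * F⁻¹ * ((fun w => X.cl (U.ev w)) '' {w | w.length ≤ MP X U}))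
    ((hF.mul hF.inv).mul ((U.finite_le _).image _))
  have hT : (Set.Iio (m + 1) ×ˢ ((Set.univ : Set U.S) ×ˢ {w : List U.A | w.length ≤ Lb})).Finite :=
    (Set.finite_Iio _).prod (Set.finite_univ.prod (U.finite_le _))
  let A : ℕ × U.S × List U.A → Set (κ × G) := fun q => {x | ∃ p a w c,
    Dec X.toPre U (y x.1) x.2 p (a ++ [w] ++ c) ∧ a.length = q.1 ∧ (a ++ [w] ++ c).length = m + 1 ∧
    U.run U.s0 (p ++ a.flatten) = q.2.1 ∧ X.cl (U.ev c.flatten) ∈ F ∧ Seg X.toPre U q.2.2 ∧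
    U.run q.2.1 q.2.2 = U.run q.2.1 w ∧
    U.ev w * (U.ev q.2.2)⁻¹ ∈ Submonoid.closure (Sig X U q.2.1 q.2.2) ∧
    (Fam X U q.2.1 (U.run q.2.1 q.2.2) (Sig X U q.2.1 q.2.2)).Infinite}
  have hAT : ∀ q, A q ⊆ X.Top y (m + 1) := by
    rintro q x ⟨p, a, w, c, h1, -, h2, -⟩
    have := h1.top
    rwa [h2] at this
  have hA0 : ∀ q, P.mu (A q) ≤ 0 := by
    rintro ⟨j, s, wb⟩
    by_cases hne : (A (j, s, wb)).Nonempty
    swap
    · rw [Set.not_nonempty_iff_eq_empty.1 hne, P.mu_empty]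
    obtain ⟨-, -, -, -, -, -, -, -, -, -, hseg, -, -, hinf⟩ := hne
    dsimp only at hseg hinf
    have key : ∀ R : ℕ, (R : ℝ) * P.mu (A (j, s, wb)) ≤ P.mu (X.Top y (m + 1)) := by
      intro R
      obtain ⟨T, hT1, hT2⟩ := hinf.exists_subset_card_eq R
      let A' : Set (G ⧸ X.N) → Set (κ × G) := fun I => {x | x ∈ X.Top y (m + 1) ∧ ∃ p a w c,
        Dec X.toPre U (y x.1) x.2 p (a ++ [w] ++ c) ∧ a.length = j ∧ Tr X U s w = I}
      have h1 : ∀ I ∈ T, P.mu (A (j, s, wb)) ≤ P.mu (A' I) := by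
        intro I hI'
        obtain ⟨w0, b1, b2, b3, b4⟩ := hT1 hI'
        let z := (U.ev wb)⁻¹ * U.ev w0
        have hz : (X.M : ℤ) ∣ X.h z := by
          show (X.M : ℤ) ∣ X.h ((U.ev wb)⁻¹ * U.ev w0)
          rw [X.h_mul, X.h_inv, hseg.h, b1.h]; simp
        refine P.mu_inj (P.I_mono _ _ (hAT _) hI) (P.I_mono _ _ (fun x hx => hx.1) hI) _
          (X.conj_fin F hF z hz) (fun x x2 => ∃ p a w c,
            Dec X.toPre U (y x2.1) x2.2 p (a ++ [w] ++ c) ∧ a.length = j ∧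
              x2 = sh ((U.ev c.flatten)⁻¹ * z * U.ev c.flatten) x) ?_ ?_
        · rintro x ⟨p, a, w, c, c1, c2, c3, c4, c5, -, c7, c8, -⟩
          dsimp only at c2 c4 c7 c8
          obtain ⟨w', d1, d2, d3, -, d5⟩ := exists_ins s _ c8 w0 b1 b3
          have hd := c1.replace [w'] (by simpa using d1) (by
            simp only [List.flatten_singleton]
            rw [c4, d2, b2, c7])
          have he : U.ev (p ++ a.flatten) * U.ev [w'].flatten * U.ev c.flatten =
              x.2 * ((U.ev c.flatten)⁻¹ * z * U.ev c.flatten) := by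
            conv_rhs => rw [c1.ev]
            simp only [List.flatten_append, List.flatten_singleton, U.ev_append, d5, z]
            group
          rw [he] at hd
          refine ⟨_, ⟨_, c5, rfl⟩, ⟨?_, p, a, w', c, hd, c2, by rw [d3, b4]⟩, p, a, w', c, hd, c2, rfl⟩
          have := hd.top
          rw [show (a ++ [w'] ++ c).length = m + 1 by rw [← c3]; simp] at this
          exact this
        · rintro x x' x2 ⟨p, a, w, c, c1, c2, c3⟩ ⟨p', a', w', c', d1, d2, d3⟩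
          obtain ⟨-, e⟩ := dec_uniq c1 d1 (by simp)
          obtain ⟨-, -, e3⟩ := split_uniq e (c2.trans d2.symm) rfl
          subst e3
          exact sh_inj (c3.symm.trans d3)
      have h2 := P.sum_mu_le_one T (A := A') hI (fun I _ x hx => hx.1) (by
        rintro I - I' - x ⟨-, p, a, w, c, c1, c2, c3⟩ ⟨-, p', a', w', c', d1, d2, d3⟩
        obtain ⟨-, e⟩ := dec_uniq c1 d1 (by simp)
        obtain ⟨-, e2, -⟩ := split_uniq e (c2.trans d2.symm) rfl
        rw [← c3, ← d3, List.singleton_inj.1 e2])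
      refine le_trans ?_ h2
      rw [← hT2, ← nsmul_eq_mul, ← Finset.sum_const]
      exact Finset.sum_le_sum h1
    by_contra hpos
    push Not at hpos
    obtain ⟨R, hR⟩ := exists_nat_gt (P.mu (X.Top y (m + 1)) / P.mu (A (j, s, wb)))
    rw [div_lt_iff₀ hpos] at hR
    exact absurd (key R) (not_le.2 hR)
  refine (P.mu_le_sum hT.toFinset (A := A) (fun q _ => P.I_mono _ _ (hAT q) hI) ?_).trans
    (Finset.sum_nonpos fun q _ => hA0 q)
  rintro x ⟨h1, h2, h3⟩
  obtain ⟨p0, es0, hd0, hl0⟩ := dec_ex hL (hy x.1) h1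
  unfold GG at h3
  push Not at h3
  obtain ⟨p, es, hd, w, hw, hng⟩ := h3
  obtain ⟨rfl, rfl⟩ := dec_uniq hd0 hd (by rintro rfl; simp at hl0)
  obtain ⟨a, c, rfl⟩ := List.append_of_mem hw
  have hne : a ++ w :: c ≠ [] := by simp
  have hc : X.cl (U.ev c.flatten) ∈ F :=
    suffix_cl hd hne h2 (u := a.flatten ++ w) (by simp)
  have hpre : ∀ u, u <+: w → X.cl (U.ev u) ∈ F * F⁻¹ := by
    rintro u ⟨v, rfl⟩
    have k1 := suffix_cl hd hne h2 (u := a.flatten) (v := u ++ (v ++ c.flatten)) (by simp)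
    have k2 := suffix_cl hd hne h2 (u := a.flatten ++ u) (v := v ++ c.flatten) (by simp)
    have := Set.mul_mem_mul k1 (Set.inv_mem_inv.2 k2)
    rwa [U.ev_append, X.cl_mul, mul_inv_cancel_right] at this
  have hs := hd.2.2 w hw
  obtain ⟨s, hs0⟩ : ∃ s, s = U.run U.s0 (p0 ++ a.flatten) := ⟨_, rfl⟩
  obtain ⟨wb, b1, b2, b3, b4, b5, b6⟩ := exists_red s _ w rfl hs
  refine ⟨(a.length, s, wb), hT.mem_toFinset.2 ⟨?_, trivial, ?_⟩, p0, a, w, c, by simpa using hd,
    rfl, by simpa using hl0, hs0.symm, hc, b1, b2, by rwa [b5], ?_⟩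
  · show a.length < m + 1
    rw [← hl0]; simp
  · refine hLb s wb ⟨_, hs0.symm⟩ ⟨c.flatten, ?_⟩ b3 fun u hu => ?_
    · have := hd.mem
      rw [U.mem_L] at this
      rw [U.run_append, b2, ← U.run_append, hs0, ← U.run_append]
      simpa using this
    · have : X.cl (U.ev u) ∈ Tr X U s w := b4 ▸ ⟨u, hu, Or.inl rfl⟩
      obtain ⟨u', hu', h | ⟨ha, i, h⟩⟩ := this
      · rw [h, ← mul_one (X.cl (U.ev u'))]
        exact Set.mul_mem_mul (hpre u' hu') ⟨[], Nat.zero_le _, by simp [U.ev_nil, X.cl_one]⟩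
      · rw [h, U.ev_append, X.cl_mul]
        refine Set.mul_mem_mul (hpre u' hu') ⟨_, ?_, rfl⟩
        show ((cyc X U (U.run s u')).take i).length ≤ _
        rw [List.length_take, ha.1.len]; omega
  · intro hfin
    dsimp only at hfin
    rw [b2, b5] at hfin
    exact hng (hF1' s w hs hfin)

end

end Pool.Agent.H870Z.LM
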