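import Mathlib
import Pool.Agent.H870Z.LM.Dich

set_option autoImplicit false

open scoped Classical Pointwise

namespace Pool.Agent.H870Z.LM

open Pool.Agent.Helper943.LM

noncomputable section

variable {G V : Type} [Group G] [NormedAddCommGroup V] [NormedSpace ℂ V]

theorem tile {κ : Type} (P : IF κ G) (hsh : ∀ A g, P.I A → P.I {x | sh g x ∈ A}) (Γ : Subgroup G)
    (hΓ : P.I {x | x.2 ∈ Γ}) (R : Finset G) (C : Set (κ × G)) (hC : P.I C)
    (h2 : ∀ x ∈ C, ∃ r ∈ R, x.2 * r⁻¹ ∈ Γ) (h3 : ∀ r ∈ R, ∀ r' ∈ R, r * r'⁻¹ ∈ Γ → r = r')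
    (Γ1 Y : Set (κ × G)) (h4 : Γ1 ⊆ {x | x.2 ∈ Γ}) (h5 : P.mu {x | x.2 ∈ Γ} ≤ 2 * P.mu Γ1)
    (h6 : ∀ x ∈ Γ1, ∀ r ∈ R, sh r x ∈ C ∩ Y) : P.mu C ≤ 2 * P.mu (C ∩ Y) := by
  have hΓ1 := P.I_mono _ _ h4 hΓ
  have k1 : P.mu C ≤ ∑ r ∈ R, P.mu {x | sh r⁻¹ x ∈ {x : κ × G | x.2 ∈ Γ}} :=
    P.mu_le_sum R (fun r _ => hsh _ _ hΓ) h2
  rw [Finset.sum_congr rfl fun r _ => P.mu_sh r⁻¹ hΓ (hsh _ _ hΓ), Finset.sum_const,
    nsmul_eq_mul] at k1
  have k2 := P.sum_mu_le_one R (A := fun r => {x | sh r⁻¹ x ∈ Γ1}) (B := C ∩ Y)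
    (P.I_mono _ _ Set.inter_subset_left hC) (fun r hr x hx => by
      have := h6 _ hx r hr
      rwa [sh_sh, inv_mul_cancel, sh_one] at this) (fun r hr r' hr' x hx hx' => by
      apply h3 r hr r' hr'
      have a1 : x.2 * r⁻¹ ∈ Γ := h4 hx
      have a2 : x.2 * r'⁻¹ ∈ Γ := h4 hx'
      have := Γ.mul_mem (Γ.inv_mem a1) a2
      rwa [show (x.2 * r⁻¹)⁻¹ * (x.2 * r'⁻¹) = r * r'⁻¹ by group] at this)
  rw [Finset.sum_congr rfl fun r _ => P.mu_sh r⁻¹ hΓ1 (hsh _ _ hΓ1), Finset.sum_const,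
    nsmul_eq_mul] at k2
  have k3 := mul_le_mul_of_nonneg_left h5 (Nat.cast_nonneg (α := ℝ) R.card)
  linarith

theorem coupling (X : Pre G V) (P : IF Unit G) (hsh : ∀ A g, P.I A → P.I {x | sh g x ∈ A})
    (hI : ∀ g, P.I (X.Cos g)) (κ : G) : ∃ K : Set G, K.Finite ∧ ∀ Y Y' : Set (Unit × G),
      (∀ a a' : Unit × G, a.2⁻¹ * a'.2 ∈ K → a ∈ Y ∨ a' ∈ Y') →
      P.mu (X.Cos 1) ≤ 2 * P.mu (X.Cos 1 ∩ Y) ∨ P.mu (X.Cos κ) ≤ 2 * P.mu (X.Cos κ ∩ Y') := by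
  obtain ⟨R, h1, h2, h3⟩ := X.transv κ
  obtain ⟨R', h1', h2', h3'⟩ := X.transv κ⁻¹
  refine ⟨(R : Set G)⁻¹ * (R'.image (fun r => κ * r) : Set G),
    R.finite_toSet.inv.mul (Finset.finite_toSet _), fun Y Y' h => ?_⟩
  have hΓ : P.I {x : Unit × G | x.2 ∈ X.Gam κ} := P.I_mono _ _ (fun x hx => by
    have := ((X.mem_Gam _ _).1 hx).1
    simpa [Pre.Cos] using this) (hI 1)
  let Γ1 : Set (Unit × G) := {x | x.2 ∈ X.Gam κ ∧ ∀ r ∈ R, sh r x ∈ Y}
  let Γ2 : Set (Unit × G) := {x | x.2 ∈ X.Gam κ ∧ ∀ r ∈ R'.image (fun r => κ * r), sh r x ∈ Y'}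
  have k1 : P.mu {x : Unit × G | x.2 ∈ X.Gam κ} ≤ P.mu Γ1 + P.mu Γ2 := by
    refine P.mu_le_add (P.I_mono _ _ (fun x hx => hx.1) hΓ) (P.I_mono _ _ (fun x hx => hx.1) hΓ)
      fun x hx => ?_
    by_cases h4 : ∀ r ∈ R, sh r x ∈ Y
    · exact Or.inl ⟨hx, h4⟩
    · push Not at h4
      obtain ⟨r, hr, h5⟩ := h4
      refine Or.inr ⟨hx, fun r' hr' => (h (sh r x) (sh r' x) ?_).resolve_left h5⟩
      rw [show (sh r x).2⁻¹ * (sh r' x).2 = r⁻¹ * r' by simp [sh]]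
      exact Set.mul_mem_mul (Set.inv_mem_inv.2 hr) hr'
  rcases le_total (P.mu Γ1) (P.mu Γ2) with h4 | h4
  · right
    refine tile P hsh (X.Gam κ) hΓ (R'.image (fun r => κ * r)) _ (hI κ) ?_ ?_ Γ2 Y'
      (fun x hx => hx.1) (by linarith) ?_
    · intro x hx
      obtain ⟨r, hr, h5⟩ := h2' _ hx
      refine ⟨κ * r, Finset.mem_image_of_mem _ hr, ?_⟩
      rw [X.mem_Gam] at h5 ⊢
      constructor
      · have := h5.2
        rwa [show κ⁻¹⁻¹ * (κ⁻¹ * x.2 * r⁻¹) * κ⁻¹ = x.2 * (κ * r)⁻¹ by group] at this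
      · have := h5.1
        rwa [show κ⁻¹ * (x.2 * (κ * r)⁻¹) * κ = κ⁻¹ * x.2 * r⁻¹ by group]
    · intro r hr r' hr' h5
      obtain ⟨q, hq, rfl⟩ := Finset.mem_image.1 hr
      obtain ⟨q', hq', rfl⟩ := Finset.mem_image.1 hr'
      rw [h3' q hq q' hq']
      rw [X.mem_Gam] at h5 ⊢
      constructor
      · have := h5.2
        rwa [show κ⁻¹ * (κ * q * (κ * q')⁻¹) * κ = q * q'⁻¹ by group] at this
      · have := h5.1
        rwa [show κ⁻¹⁻¹ * (q * q'⁻¹) * κ⁻¹ = κ * q * (κ * q')⁻¹ by group]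
    · intro x hx r hr
      refine ⟨?_, hx.2 r hr⟩
      obtain ⟨q, hq, rfl⟩ := Finset.mem_image.1 hr
      show κ⁻¹ * (x.2 * (κ * q)) ∈ X.L
      have := X.L.mul_mem ((X.mem_Gam _ _).1 hx.1).2 (h1' q hq)
      rwa [show κ⁻¹ * x.2 * κ * q = κ⁻¹ * (x.2 * (κ * q)) by group] at this
  · left
    refine tile P hsh (X.Gam κ) hΓ R _ (hI 1) ?_ h3 Γ1 Y (fun x hx => hx.1) (by linarith) ?_
    · intro x hx
      exact h2 _ (by simpa [Pre.Cos] using hx)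
    · intro x hx r hr
      refine ⟨?_, hx.2 r hr⟩
      show 1⁻¹ * (x.2 * r) ∈ X.L
      rw [inv_one, one_mul]
      exact X.L.mul_mem ((X.mem_Gam _ _).1 hx.1).1 (h1 r hr)

/-- a quarter of a coset has only good neighbours -/
def SysHyp (X : HS G V) (U : UA G) (P : IF Unit G) (Θ : Set G) : Prop :=
  ∃ (y : G) (F : Set (G ⧸ X.N)), y⁻¹ ∉ X.H ∧ F.Finite ∧
    P.mu (X.Cos y) ≤ 4 * P.mu (X.Cos y ∩ {x | ¬ BadT X U y F Θ x.2})

theorem SysHyp.mono {X : HS G V} {U : UA G} {P : IF Unit G} (hI : ∀ g, P.I (X.Cos g))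
    {Θ Θ' : Set G} (h : SysHyp X U P Θ') (hs : Θ ⊆ Θ') : SysHyp X U P Θ := by
  obtain ⟨y, F, h1, h2, h3⟩ := h
  refine ⟨y, F, h1, h2, h3.trans (mul_le_mul_of_nonneg_left (P.mu_mono ?_
    (P.I_mono _ _ Set.inter_subset_left (hI y))) (by norm_num))⟩
  rintro x ⟨a, b⟩
  exact ⟨a, fun ⟨θ, c, d⟩ => b ⟨θ, hs c, d⟩⟩

theorem Pre.Cos_mul (X : Pre G V) (g : G) {z : G} (hz : z ∈ X.L) : X.Cos (g * z) = X.Cos g := by
  ext x
  show (g * z)⁻¹ * x.2 ∈ X.L ↔ g⁻¹ * x.2 ∈ X.L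
  rw [mul_inv_rev, mul_assoc, X.L.mul_mem_cancel_left (X.L.inv_mem hz)]

theorem Pre.tpow_nH (X : Pre G V) (n : ℕ) : (X.t ^ n)⁻¹ ∉ X.H := by
  induction n with
  | zero => simpa using X.one_nH
  | succ n ih => rw [pow_succ', mul_inv_rev]; exact X.nH_tinv ih

theorem half_or {Ω : Type} (P : PF Ω) {C Y1 Y2 : Set Ω} (hC : P.I C)
    (h : P.mu C ≤ 2 * P.mu (C ∩ (Y1 ∪ Y2))) :
    P.mu C ≤ 4 * P.mu (C ∩ Y1) ∨ P.mu C ≤ 4 * P.mu (C ∩ Y2) := by
  have := P.mu_le_add (A := C ∩ Y1) (B := C ∩ Y2) (C := C ∩ (Y1 ∪ Y2))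
    (P.I_mono _ _ Set.inter_subset_left hC) (P.I_mono _ _ Set.inter_subset_left hC)
    (by rw [Set.inter_union_distrib_left])
  rcases le_total (P.mu (C ∩ Y1)) (P.mu (C ∩ Y2)) with h1 | h1
  · right; linarith
  · left; linarith

theorem sysHyp_br (X : HS G V) (U : UA G) (P : IF Unit G)
    (hsh : ∀ A g, P.I A → P.I {x | sh g x ∈ A}) (hI : ∀ g, P.I (X.Cos g)) {z0 : G} (hz : z0 ∈ X.L)
    (hB : z0 ∉ X.B) (Θ : Set G) (hΘ : Θ.Finite) : SysHyp X U P Θ := by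
  obtain ⟨J, hJ⟩ := four_bad X U hz hB Θ hΘ
  obtain ⟨K, hK, hc⟩ := coupling X.toPre P hsh hI (X.t ^ J)
  obtain ⟨F, hF, h⟩ := hJ K hK
  rcases hc ({x | ¬ BadT X U 1 F Θ x.2} ∪ {x | ¬ BadT X U z0 F Θ x.2})
    ({x | ¬ BadT X U (X.t ^ J) F Θ x.2} ∪ {x | ¬ BadT X U (X.t ^ J * z0) F Θ x.2}) (by
      intro a a' hk
      by_contra hn
      simp only [Set.mem_union, Set.mem_ofPred_eq, not_or, not_not] at hn
      exact h _ _ hk hn.1.1 hn.1.2 hn.2.1 hn.2.2) with h1 | h1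
  · rcases half_or P.toPF (hI _) h1 with h2 | h2
    · exact ⟨1, F, by simpa using X.one_nH, hF, h2⟩
    · refine ⟨z0, F, X.L_nH (X.L.inv_mem hz), hF, ?_⟩
      have e : X.Cos z0 = X.Cos 1 := by rw [← X.Cos_mul 1 hz, one_mul]
      rw [e]; exact h2
  · rcases half_or P.toPF (hI _) h1 with h2 | h2
    · exact ⟨_, F, X.tpow_nH J, hF, h2⟩
    · refine ⟨X.t ^ J * z0, F, ?_, hF, by rw [X.Cos_mul _ hz]; exact h2⟩
      intro h3
      cases J with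
      | zero =>
        rw [pow_zero, one_mul] at h3
        exact X.L_nH (X.L.inv_mem hz) h3
      | succ J =>
        have key : ∀ n : ℕ, z0⁻¹ * (X.t ^ n)⁻¹ ∉ X.H := by
          intro n
          induction n with
          | zero => simpa using X.L_nH (X.L.inv_mem hz)
          | succ n ih => rw [pow_succ', mul_inv_rev, ← mul_assoc]; exact X.nH_tinv ih
        rw [mul_inv_rev] at h3
        exact key _ h3

theorem sysHyp_line (X : HS G V) (U : UA G) (P : IF Unit G)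
    (hsh : ∀ A g, P.I A → P.I {x | sh g x ∈ A}) (hI : ∀ g, P.I (X.Cos g))
    (h1 : ∀ z ∈ X.L, z ∈ X.B) (h2 : ∀ z ∈ X.L, X.t * z * X.t⁻¹ ∈ X.L) :
    (∀ Θ : Set G, Θ.Finite → SysHyp X U P Θ) ∨ (∀ Θ : Set G, Θ.Finite → SysHyp X.flip U P Θ) := by
  have key : ∀ Θ : Set G, Θ.Finite → SysHyp X U P Θ ∨ SysHyp X.flip U P Θ := by
    intro Θ hΘ
    obtain ⟨J, hJ⟩ := two_bad X U h1 h2 Θ hΘ
    obtain ⟨K, hK, hc⟩ := coupling X.toPre P hsh hI (X.t ^ J)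
    obtain ⟨F, hF, h⟩ := hJ K hK
    rcases hc {x | ¬ BadT X.flip U 1 F Θ x.2} {x | ¬ BadT X U (X.t ^ J) F Θ x.2} (by
      intro a a' hk
      by_contra hn
      simp only [Set.mem_ofPred_eq, not_or, not_not] at hn
      exact h _ _ hk hn.1 hn.2) with h3 | h3
    · right
      refine ⟨1, F, by simpa using X.flip.one_nH, hF, h3.trans ?_⟩
      have := P.mu_nonneg (P.I_mono _ _ (Set.inter_subset_left
        (t := {x : Unit × G | ¬ BadT X.flip U 1 F Θ x.2})) (hI 1))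
      show 2 * P.mu (X.Cos 1 ∩ _) ≤ 4 * P.mu (X.Cos 1 ∩ _)
      linarith
    · left
      refine ⟨_, F, X.tpow_nH J, hF, h3.trans ?_⟩
      have := P.mu_nonneg (P.I_mono _ _ (Set.inter_subset_left
        (t := {x : Unit × G | ¬ BadT X U (X.t ^ J) F Θ x.2})) (hI (X.t ^ J)))
      linarith
  by_contra hn
  push Not at hn
  obtain ⟨⟨Θ1, a1, b1⟩, ⟨Θ2, a2, b2⟩⟩ := hn
  rcases key (Θ1 ∪ Θ2) (a1.union a2) with h | h
  · exact b1 (h.mono hI Set.subset_union_left)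
  · exact b2 (SysHyp.mono (X := X.flip) hI h Set.subset_union_right)

theorem Pre.top_cover (X : Pre G V) : ∃ R : Finset G, ∀ {κ : Type} (y : κ → G) (m : ℕ),
    ∀ x ∈ X.Top y (m + 1), ∃ r ∈ R, sh r x ∈ X.Top y m := by
  obtain ⟨R, h1, h2, -⟩ := X.transv X.t⁻¹
  refine ⟨R.image (fun r => (X.t * r)⁻¹), fun y m x hx => ?_⟩
  obtain ⟨g', hg', z, hz, he⟩ := X.S_down hx
  obtain ⟨r, hr, h4⟩ := h2 z hz
  refine ⟨_, Finset.mem_image_of_mem _ hr, ?_⟩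
  show (y x.1)⁻¹ * (x.2 * (X.t * r)⁻¹) ∈ X.S m
  rw [X.mem_Gam, inv_inv] at h4
  have h5 : X.t * (z * r⁻¹) * X.t⁻¹ ∈ X.B := by
    apply X.mem_B h4.2
    rw [show X.t⁻¹ * (X.t * (z * r⁻¹) * X.t⁻¹) * X.t = z * r⁻¹ by group]
    exact h4.1
  have := X.S_Br hg' h5
  rwa [show g' * (X.t * (z * r⁻¹) * X.t⁻¹) = g' * X.t * z * (X.t * r)⁻¹ by group, ← he,
    mul_assoc] at this

theorem Pre.top_I (X : Pre G V) {κ : Type} (P : IF κ G)
    (hsh : ∀ A g, P.I A → P.I {x | sh g x ∈ A}) (y : κ → G) (h0 : P.I (X.Top y 0)) (m : ℕ) :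
    P.I (X.Top y m) := by
  obtain ⟨R, hR⟩ := X.top_cover
  induction m with
  | zero => exact h0
  | succ m ih =>
    refine P.I_mono _ _ (fun x hx => ?_)
      (P.I_biUnion R (A := fun r => {x | sh r x ∈ X.Top y m}) fun r _ => hsh _ _ ih)
    obtain ⟨r, hr, h⟩ := hR y m x hx
    exact Set.mem_biUnion hr h

theorem bl_zero {f : ℕ → ℝ} (hf : BS BL.I f) (h : ∀ ε : ℝ, 0 < ε → ∃ k, ∀ n, k ≤ n → |f n| ≤ ε) :
    BL.J f = 0 := by
  apply le_antisymm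
  · refine le_of_forall_pos_le_add fun ε hε => ?_
    obtain ⟨k, hk⟩ := h ε hε
    rw [zero_add]
    exact bl_le hf k ε fun n hn => (le_abs_self _).trans (hk n hn)
  · refine le_of_forall_pos_le_add fun ε hε => ?_
    obtain ⟨k, hk⟩ := h ε hε
    have := bl_ge hf k (-ε) fun n hn => (abs_le.1 (hk n hn)).1
    linarith

/-- an invariant functional concentrated on good normal forms -/
structure Sys (X : HS G V) (U : UA G) where
  F1 : Set (G ⧸ X.N)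
  hF1 : F1.Finite
  P : IF ℕ G
  y : ℕ → G
  hy : ∀ k, (y k)⁻¹ ∉ X.H
  hI : ∀ m, P.I (X.Top y m)
  pos : 0 < P.mu (X.Top y 0)
  good : ∀ m, P.mu {x | x ∈ X.Top y (m + 1) ∧ ¬ GG X U F1 (y x.1) x.2} ≤ 0

/-- cut-off weights -/
def cut (Gd : Set G) (E : Set G) (k : ℕ) (g : G) : ℝ :=
  (∑ ρ ∈ Finset.range (k + 1), ind {g | ∀ θ ∈ E ^ ρ, g * θ ∈ Gd} g) / ((k : ℝ) + 1)

theorem cut_nonneg (Gd E : Set G) (k : ℕ) (g : G) : 0 ≤ cut Gd E k g :=
  div_nonneg (Finset.sum_nonneg fun _ _ => ind_nonneg _ _) (by positivity)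

theorem cut_le (Gd E : Set G) (k : ℕ) (g : G) : cut Gd E k g ≤ 1 := by
  unfold cut
  rw [div_le_one (by positivity)]
  refine (Finset.sum_le_sum (g := fun _ => (1 : ℝ))
    fun _ _ => (le_abs_self _).trans (ind_abs _ _)).trans ?_
  simp

theorem cut_abs (Gd E : Set G) (k : ℕ) (g : G) : |cut Gd E k g| ≤ 1 := by
  rw [abs_of_nonneg (cut_nonneg _ _ _ _)]; exact cut_le _ _ _ _

theorem cut_bad {Gd E : Set G} (h1 : (1 : G) ∈ E) (k : ℕ) {g : G} (hg : g ∉ Gd) :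
    cut Gd E k g = 0 := by
  unfold cut
  rw [Finset.sum_eq_zero, zero_div]
  intro ρ _
  apply ind_nmem
  intro h
  have := h 1 (Set.one_mem_pow h1)
  rw [mul_one] at this
  exact hg this

theorem cut_good {Gd E : Set G} (h1 : (1 : G) ∈ E) (k : ℕ) {g : G} (hg : ∀ θ ∈ E ^ k, g * θ ∈ Gd) :
    cut Gd E k g = 1 := by
  unfold cut
  rw [Finset.sum_congr rfl (g := fun _ => (1 : ℝ))]
  · rw [Finset.sum_const, Finset.card_range, nsmul_eq_mul, mul_one]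
    push_cast
    exact div_self (by positivity)
  · intro ρ hρ
    apply ind_mem
    intro θ hθ
    exact hg θ (Set.pow_subset_pow_right h1 (Nat.lt_succ_iff.1 (Finset.mem_range.1 hρ)) hθ)

theorem cut_step {Gd E : Set G} (k : ℕ) (g : G) {s : G} (hs : s ∈ E) :
    cut Gd E k g - 1 / ((k : ℝ) + 1) ≤ cut Gd E k (g * s) := by
  unfold cut
  rw [← sub_div]
  refine div_le_div_of_nonneg_right ?_ (by positivity)
  have h1 : ∀ ρ, ind {g | ∀ θ ∈ E ^ (ρ + 1), g * θ ∈ Gd} g ≤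
      ind {g | ∀ θ ∈ E ^ ρ, g * θ ∈ Gd} (g * s) := by
    intro ρ
    by_cases h : g ∈ {g | ∀ θ ∈ E ^ (ρ + 1), g * θ ∈ Gd}
    · rw [ind_mem h, ind_mem]
      intro θ hθ
      rw [mul_assoc]
      exact h _ (by rw [pow_succ']; exact Set.mul_mem_mul hs hθ)
    · rw [ind_nmem h]; exact ind_nonneg _ _
  rw [Finset.sum_range_succ', Finset.sum_range_succ]
  have h2 := Finset.sum_le_sum (s := Finset.range k) fun ρ _ => h1 ρ
  have h3 := (le_abs_self _).trans (ind_abs {g | ∀ θ ∈ E ^ 0, g * θ ∈ Gd} g)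
  have h4 := ind_nonneg {g | ∀ θ ∈ E ^ k, g * θ ∈ Gd} (g * s)
  linarith

theorem cut_word (U : UA G) {Gd E : Set G} (hE : ∀ a, U.mu a ∈ E ∧ (U.mu a)⁻¹ ∈ E) (k : ℕ)
    (w : List U.A) : ∀ g, |cut Gd E k g - cut Gd E k (g * U.ev w)| ≤ w.length / ((k : ℝ) + 1) := by
  induction w with
  | nil => intro g; simp [U.ev_nil]
  | cons a w ih =>
    intro g
    have e : g * U.ev (a :: w) = g * U.mu a * U.ev w := by
      rw [mul_assoc, ← ev_single, ← U.ev_append]; rfl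
    have h1 := cut_step (Gd := Gd) k g (hE a).1
    have h2 := cut_step (Gd := Gd) k (g * U.mu a) (hE a).2
    rw [mul_inv_cancel_right] at h2
    have h3 := abs_le.1 (ih (g * U.mu a))
    rw [e, List.length_cons, abs_le]
    push_cast
    rw [add_div]
    constructor <;> linarith [h3.1, h3.2]

theorem fin_pow {M : Type} [Monoid M] {E : Set M} (hE : E.Finite) (k : ℕ) : (E ^ k).Finite := by
  induction k with
  | zero => rw [pow_zero]; exact Set.finite_one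
  | succ k ih => rw [pow_succ]; exact ih.mul hE

theorem sys_con (X : HS G V) (U : UA G) (hL : ∀ a, X.Let (U.mu a)) (P : IF Unit G)
    (hsh : ∀ A g, P.I A → P.I {x | sh g x ∈ A}) (hI : ∀ g, P.I (X.Cos g))
    (hpos : ∀ g, 0 < P.mu (X.Cos g)) (h : ∀ Θ : Set G, Θ.Finite → SysHyp X U P Θ) :
    Nonempty (Sys X U) := by
  have := U.finA
  obtain ⟨F1, hF1, hd⟩ := dich X U hL
  let E : Set G := insert 1 (Set.range U.mu ∪ (Set.range U.mu)⁻¹)
  have hE : E.Finite := ((Set.finite_range _).union (Set.finite_range _).inv).insert _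
  have hE1 : (1 : G) ∈ E := Set.mem_insert _ _
  have hE2 : ∀ a, U.mu a ∈ E ∧ (U.mu a)⁻¹ ∈ E := fun a =>
    ⟨Or.inr (Or.inl ⟨a, rfl⟩), Or.inr (Or.inr (Set.inv_mem_inv.2 ⟨a, rfl⟩))⟩
  choose y F h1 h2 h3 using fun k : ℕ => h (E ^ k) (fin_pow hE k)
  let w : ℕ → G → ℝ := fun k => cut {g | ¬ Bad X U (y k) (F k) g} E k
  let n : ℕ → ℝ := fun k => P.mu (X.Cos (y k))
  have hn : ∀ k, 0 < n k := fun k => hpos _
  let sl : ℕ → Set (ℕ × G) → Set (Unit × G) := fun k A => {x | (k, x.2) ∈ A}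
  let I : Set (ℕ × G) → Prop := fun A => ∃ C : ℝ, ∀ k, P.I (sl k A) ∧ P.mu (sl k A) ≤ C * n k
  let T : (ℕ × G → ℝ) → ℕ → ℝ := fun f k => P.J (fun x => w k x.2 * f (k, x.2)) / n k
  have hbs0 : ∀ f, BS I f → ∀ k, BS P.I (fun x : Unit × G => f (k, x.2)) := by
    rintro f ⟨⟨C, hC⟩, D, hD⟩ k
    exact ⟨⟨C, fun x => hC _⟩, (hD k).1⟩
  have hbs : ∀ f, BS I f → ∀ k, BS P.I (fun x : Unit × G => w k x.2 * f (k, x.2)) := fun f hf k =>
    P.bs_mul (g := fun x => w k x.2) ⟨1, fun x => cut_abs _ _ _ _⟩ (hbs0 f hf k)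
  have hbd : ∀ f, BS I f → ∃ C : ℝ, 0 ≤ C ∧ ∀ (k : ℕ) (v : Unit × G → ℝ) (c : ℝ), 0 ≤ c →
      (∀ x, |v x| ≤ c) → |P.J (fun x => v x * f (k, x.2)) / n k| ≤ c * C := by
    rintro f ⟨⟨C, hC⟩, D, hD⟩
    have hC0 : 0 ≤ C := (abs_nonneg _).trans (hC (0, 1))
    have hD0 : 0 ≤ D := by
      have := (P.mu_nonneg (hD 0).1).trans (hD 0).2
      exact nonneg_of_mul_nonneg_left this (hn 0)
    refine ⟨C * D, mul_nonneg hC0 hD0, fun k v c hc hv => ?_⟩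
    rw [abs_div, abs_of_pos (hn k), div_le_iff₀ (hn k)]
    refine (P.J_abs_le (hD k).1 (c * C) fun x => ?_).trans ?_
    · by_cases hx : x ∈ sl k {x | f x ≠ 0}
      · rw [ind_mem hx, mul_one, abs_mul]
        exact mul_le_mul (hv x) (hC _) (abs_nonneg _) hc
      · have : f (k, x.2) = 0 := not_not.1 hx
        rw [ind_nmem hx, this]; simp
    · rw [mul_assoc c (C * D), mul_assoc C D, ← mul_assoc c C]
      exact mul_le_mul_of_nonneg_left (hD k).2 (mul_nonneg hc hC0)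
  have hT : ∀ f, BS I f → BS BL.I (T f) := by
    intro f hf
    obtain ⟨C, -, hC⟩ := hbd f hf
    exact bl_bs (1 * C) fun k => hC k _ 1 zero_le_one fun x => cut_abs _ _ _ _
  have hIsh : ∀ A g, I A → I {x | sh g x ∈ A} := by
    rintro A g ⟨C, hC⟩
    refine ⟨C, fun k => ⟨hsh _ g (hC k).1, ?_⟩⟩
    have := P.mu_sh g (hC k).1 (hsh _ g (hC k).1)
    exact this.le.trans (hC k).2
  let Q : IF ℕ G :=
    { I := I
      I_empty := ⟨0, fun k => ⟨P.I_empty, by rw [zero_mul]; exact P.mu_empty.le⟩⟩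
      I_mono := by
        rintro A B hAB ⟨C, hC⟩
        exact ⟨C, fun k => ⟨P.I_mono _ _ (fun x hx => hAB hx) (hC k).1,
          (P.mu_mono (fun x hx => hAB hx) (hC k).1).trans (hC k).2⟩⟩
      I_union := by
        rintro A B ⟨C, hC⟩ ⟨D, hD⟩
        refine ⟨C + D, fun k => ⟨P.I_union _ _ (hC k).1 (hD k).1, ?_⟩⟩
        have := P.mu_le_add (hC k).1 (hD k).1 (C := sl k (A ∪ B)) (fun x hx => hx)
        rw [add_mul]
        linarith [(hC k).2, (hD k).2]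
      J := fun f => BL.J (T f)
      add := by
        intro f g hf hg
        rw [← BL.add _ _ (hT f hf) (hT g hg)]
        congr 1
        funext k
        show P.J _ / n k = P.J _ / n k + P.J _ / n k
        rw [← add_div, ← P.add _ _ (hbs f hf k) (hbs g hg k)]
        simp only [mul_add]
      smul := by
        intro c f hf
        rw [← BL.smul _ _ (hT f hf)]
        congr 1
        funext k
        show P.J _ / n k = c * (P.J _ / n k)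
        rw [← mul_div_assoc, ← P.smul _ _ (hbs f hf k)]
        simp only [mul_left_comm]
      nonneg := by
        intro f hf h0
        refine BL.nonneg _ (hT f hf) fun k => div_nonneg ?_ (hn k).le
        exact P.nonneg _ (hbs f hf k) fun x => mul_nonneg (cut_nonneg _ _ _ _) (h0 _)
      inv := by
        intro f g hf hf'
        rw [← sub_eq_zero, ← BL.J_sub (hT _ hf') (hT _ hf)]
        obtain ⟨C, hC0, hC⟩ := hbd _ hf'
        refine bl_zero (BL.bs_sub (hT _ hf') (hT _ hf)) fun ε hε => ?_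
        obtain ⟨k0, hk0⟩ := exists_nat_ge ((nf U g).length * C / ε)
        refine ⟨k0, fun k hk => ?_⟩
        have hb1 : BS P.I (fun x : Unit × G => w k (sh g x).2 * f (k, (sh g x).2)) :=
          P.bs_mul (g := fun x => w k (sh g x).2) ⟨1, fun x => cut_abs _ _ _ _⟩ (hbs0 _ hf' k)
        have e1 := P.inv (fun x => w k x.2 * f (k, x.2)) g (hbs f hf k) hb1
        have e2 : T (fun x => f (sh g x)) k - T f k =
            P.J (fun x => (w k x.2 - w k (x.2 * g)) * f (sh g (k, x.2))) / n k := by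
          show P.J _ / n k - P.J _ / n k = _
          rw [← sub_div, ← e1, ← P.J_sub (hbs _ hf' k) hb1]
          congr 2
          funext x
          rw [sub_mul]; rfl
        rw [e2]
        refine (hC k _ ((nf U g).length / ((k : ℝ) + 1)) (by positivity) fun x => ?_).trans ?_
        · have := cut_word U (Gd := {g | ¬ Bad X U (y k) (F k) g}) hE2 k (nf U g) x.2
          rwa [nf_ev] at this
        · rw [div_le_iff₀ hε] at hk0
          rw [div_mul_eq_mul_div, div_le_iff₀ (by positivity)]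
          have : (k0 : ℝ) ≤ k := by exact_mod_cast hk
          nlinarith }
  have hC : I {x | (y x.1)⁻¹ * x.2 ∈ X.L} := 
    ⟨1, fun k => ⟨hI (y k), by rw [one_mul]; exact le_rfl⟩⟩
  have hT0 : Q.I (X.Top y 0) := Q.I_mono _ _ (fun x hx => X.B_le _ hx) hC
  have hTm := X.top_I Q hIsh y hT0
  refine ⟨⟨F1, hF1, Q, y, h1, hTm, ?_, fun m => ?_⟩⟩
  · have k1 : (1 / 4 : ℝ) ≤ Q.mu {x | (y x.1)⁻¹ * x.2 ∈ X.L} := by
      refine bl_ge (hT _ (Q.bs_ind hC)) 0 _ fun k _ => ?_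
      show _ ≤ P.J _ / n k
      rw [le_div_iff₀ (hn k)]
      have k2 : P.mu (X.Cos (y k) ∩ {x | ¬ BadT X U (y k) (F k) (E ^ k) x.2}) ≤
          P.J (fun x => w k x.2 * ind {x : ℕ × G | (y x.1)⁻¹ * x.2 ∈ X.L} (k, x.2)) := by
        refine P.J_mono (P.bs_ind (P.I_mono _ _ Set.inter_subset_left (hI _)))
          (hbs _ (Q.bs_ind hC) k) fun x => ?_
        by_cases hx : x ∈ X.Cos (y k) ∩ {x | ¬ BadT X U (y k) (F k) (E ^ k) x.2}
        · rw [ind_mem hx, ind_mem (show (k, x.2) ∈ {x : ℕ × G | (y x.1)⁻¹ * x.2 ∈ X.L} from hx.1),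
            mul_one]
          exact (cut_good (Gd := {g | ¬ Bad X U (y k) (F k) g}) (g := x.2) hE1 k
            fun θ hθ hb => hx.2 ⟨θ, hθ, hb⟩).ge
        · rw [ind_nmem hx]
          exact mul_nonneg (cut_nonneg _ _ _ _) (ind_nonneg _ _)
      have := h3 k
      show 1 / 4 * P.mu (X.Cos (y k)) ≤ _
      linarith
    obtain ⟨R, r1, r2⟩ := X.cms X.t
    have k2 := Q.mu_le_sum R (A := fun r => {x | sh r⁻¹ x ∈ X.Top y 0})
      (B := {x | (y x.1)⁻¹ * x.2 ∈ X.L}) (fun r _ => hIsh _ _ hT0) (fun x hx => by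
        obtain ⟨r, hr, h4⟩ := r2 _ hx
        refine ⟨r, hr, ?_⟩
        show (y x.1)⁻¹ * (x.2 * r⁻¹) ∈ X.B
        rw [← mul_assoc]
        exact X.mem_B (X.L.mul_mem hx (X.L.inv_mem (r1 r hr))) h4)
    rw [Finset.sum_congr rfl fun r _ => Q.mu_sh r⁻¹ hT0 (hIsh _ _ hT0), Finset.sum_const,
      nsmul_eq_mul] at k2
    by_contra h0
    have := mul_nonpos_of_nonneg_of_nonpos (Nat.cast_nonneg (α := ℝ) R.card) (not_lt.1 h0)
    linarith
  · have hA : Q.I {x | x ∈ X.Top y (m + 1) ∧ ¬ GG X U F1 (y x.1) x.2} :=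
      Q.I_mono _ _ (fun x hx => hx.1) (hTm _)
    refine bl_le (hT _ (Q.bs_ind hA)) 0 _ fun k _ => ?_
    show P.J _ / n k ≤ 0
    refine div_nonpos_of_nonpos_of_nonneg ?_ (hn k).le
    obtain ⟨C, hC'⟩ := hTm (m + 1)
    have hTk : P.I (X.Top (fun _ : Unit => y k) (m + 1)) := (hC' k).1
    refine le_trans ?_ (hd P (fun _ => y k) (F k) m (h2 k) (fun _ => h1 k) hTk)
    refine P.J_mono (hbs _ (Q.bs_ind hA) k) (P.bs_ind (P.I_mono _ _ (fun x hx => hx.1) hTk))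
      fun x => ?_
    by_cases hx : (k, x.2) ∈ {x : ℕ × G | x ∈ X.Top y (m + 1) ∧ ¬ GG X U F1 (y x.1) x.2}
    · by_cases hb : Bad X U (y k) (F k) x.2
      · have : w k x.2 = 0 := cut_bad hE1 k (not_not.2 hb)
        rw [this, zero_mul]; exact ind_nonneg _ _
      · rw [ind_mem hx, mul_one, ind_mem (by exact ⟨hx.1, hb, hx.2⟩)]
        exact cut_le _ _ _ _
    · rw [ind_nmem hx, mul_zero]; exact ind_nonneg _ _

theorem sys_br (X : HS G V) (U : UA G) (hL : ∀ a, X.Let (U.mu a)) {z0 : G} (hz : z0 ∈ X.L)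
    (hB : z0 ∉ X.B) : Nonempty (Sys X U) := by
  obtain ⟨P, h1, h2, h3⟩ := X.base
  exact sys_con X U hL P h1 h2 h3 (sysHyp_br X U P h1 h2 hz hB)

theorem sys_line (X : HS G V) (U : UA G) (hL : ∀ a, X.Let (U.mu a))
    (k1 : ∀ z ∈ X.L, z ∈ X.B) (k2 : ∀ z ∈ X.L, X.t * z * X.t⁻¹ ∈ X.L) :
    Nonempty (Sys X U) ∨ Nonempty (Sys X.flip U) := by
  obtain ⟨P, h1, h2, h3⟩ := X.base
  rcases sysHyp_line X U P h1 h2 k1 k2 with h | h
  · exact Or.inl (sys_con X U hL P h1 h2 h3 h)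
  · exact Or.inr (sys_con X.flip U (fun a => X.toPre.flip_let (hL a)) P h1 h2 h3 h)

end

end Pool.Agent.H870Z.LM
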