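import Mathlib
import Pool.Agent.H870Z.LM.Sys

set_option autoImplicit false

open scoped Classical

namespace Pool.Agent.H870Z.LM

noncomputable section

/-- bounded complex functions supported in the ideal -/
def BC {Ω : Type} (I : Set Ω → Prop) (f : Ω → ℂ) : Prop :=
  (∃ C : ℝ, ∀ x, ‖f x‖ ≤ C) ∧ I {x | f x ≠ 0}

namespace PF

variable {Ω : Type} (P : PF Ω)

/-- complexification -/
def Jc (f : Ω → ℂ) : ℂ := (P.J (fun x => (f x).re) : ℂ) + (P.J (fun x => (f x).im) : ℂ) * Complex.I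

theorem Jc_re (f : Ω → ℂ) : (P.Jc f).re = P.J (fun x => (f x).re) := by simp [Jc]
theorem Jc_im (f : Ω → ℂ) : (P.Jc f).im = P.J (fun x => (f x).im) := by simp [Jc]

theorem bc_re {f : Ω → ℂ} (hf : BC P.I f) : BS P.I (fun x => (f x).re) := by
  obtain ⟨⟨C, hC⟩, h⟩ := hf
  refine ⟨⟨C, fun x => (Complex.abs_re_le_norm _).trans (hC x)⟩, P.I_mono _ _ (fun x hx => ?_) h⟩
  intro h0
  exact hx (by simp [show f x = 0 from h0])

theorem bc_im {f : Ω → ℂ} (hf : BC P.I f) : BS P.I (fun x => (f x).im) := by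
  obtain ⟨⟨C, hC⟩, h⟩ := hf
  refine ⟨⟨C, fun x => (Complex.abs_im_le_norm _).trans (hC x)⟩, P.I_mono _ _ (fun x hx => ?_) h⟩
  intro h0
  exact hx (by simp [show f x = 0 from h0])

theorem bc_of {f : Ω → ℂ} {A : Set Ω} (hA : P.I A) (C : ℝ) (h : ∀ x, ‖f x‖ ≤ C * ind A x) :
    BC P.I f := by
  obtain ⟨⟨D, hD⟩, h2⟩ := P.bs_of (f := fun x => ‖f x‖) hA C (fun x => by rw [abs_norm]; exact h x)
  refine ⟨⟨D, fun x => (le_abs_self _).trans (hD x)⟩, P.I_mono _ _ (fun x hx => ?_) h2⟩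
  exact norm_ne_zero_iff.2 hx

theorem bc_of' {f : Ω → ℂ} {A : Set Ω} (hA : P.I A) (C : ℝ) (h : ∀ x ∈ A, ‖f x‖ ≤ C) :
    BC P.I (fun x => f x * (ind A x : ℝ)) := by
  refine P.bc_of hA C fun x => ?_
  by_cases hx : x ∈ A
  · rw [ind_mem hx]; simpa using h x hx
  · rw [ind_nmem hx]; simp

theorem bc_real {f : Ω → ℝ} (hf : BS P.I f) : BC P.I (fun x => (f x : ℂ)) := by
  obtain ⟨⟨C, hC⟩, h⟩ := hf
  refine ⟨⟨C, fun x => by simpa using hC x⟩, P.I_mono _ _ (fun x hx => ?_) h⟩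
  simpa using hx

theorem bc_add {f g : Ω → ℂ} (hf : BC P.I f) (hg : BC P.I g) : BC P.I (fun x => f x + g x) := by
  obtain ⟨⟨C, hC⟩, h1⟩ := hf
  obtain ⟨⟨D, hD⟩, h2⟩ := hg
  refine ⟨⟨C + D, fun x => (norm_add_le _ _).trans (add_le_add (hC x) (hD x))⟩,
    P.I_mono _ _ (fun x hx => ?_) (P.I_union _ _ h1 h2)⟩
  by_contra hc
  simp only [Set.mem_union, Set.mem_ofPred_eq, not_or, not_not] at hc
  exact hx (by simp [hc.1, hc.2])

theorem bc_mul {f g : Ω → ℂ} (hg : ∃ C : ℝ, ∀ x, ‖g x‖ ≤ C) (hf : BC P.I f) :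
    BC P.I (fun x => g x * f x) := by
  obtain ⟨⟨C, hC⟩, h1⟩ := hf
  obtain ⟨D, hD⟩ := hg
  refine ⟨⟨D * C, fun x => ?_⟩, P.I_mono _ _ (fun x hx => ?_) h1⟩
  · rw [norm_mul]
    exact mul_le_mul (hD x) (hC x) (norm_nonneg _) ((norm_nonneg _).trans (hD x))
  · intro h0
    exact hx (by simp [show f x = 0 from h0])

theorem bc_smul {f : Ω → ℂ} (c : ℂ) (hf : BC P.I f) : BC P.I (fun x => c * f x) :=
  P.bc_mul (g := fun _ => c) ⟨‖c‖, fun _ => le_rfl⟩ hf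

theorem bc_sub {f g : Ω → ℂ} (hf : BC P.I f) (hg : BC P.I g) : BC P.I (fun x => f x - g x) := by
  have := P.bc_add hf (P.bc_smul (-1) hg)
  simpa [sub_eq_add_neg] using this

theorem bc_sum {ι : Type} (s : Finset ι) {f : ι → Ω → ℂ} (hf : ∀ i ∈ s, BC P.I (f i)) :
    BC P.I (fun x => ∑ i ∈ s, f i x) := by
  induction s using Finset.induction_on with
  | empty => exact ⟨⟨0, by simp⟩, by simpa using P.I_empty⟩
  | insert a s ha ih =>
    simp only [Finset.sum_insert ha]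
    exact P.bc_add (hf a (Finset.mem_insert_self _ _))
      (ih fun i hi => hf i (Finset.mem_insert_of_mem hi))

theorem Jc_add {f g : Ω → ℂ} (hf : BC P.I f) (hg : BC P.I g) :
    P.Jc (fun x => f x + g x) = P.Jc f + P.Jc g := by
  apply Complex.ext
  · simp only [Complex.add_re, Jc_re]
    exact P.add _ _ (P.bc_re hf) (P.bc_re hg)
  · simp only [Complex.add_im, Jc_im]
    exact P.add _ _ (P.bc_im hf) (P.bc_im hg)

theorem Jc_smul {f : Ω → ℂ} (c : ℂ) (hf : BC P.I f) : P.Jc (fun x => c * f x) = c * P.Jc f := by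
  apply Complex.ext
  · simp only [Complex.mul_re, Jc_re, Jc_im]
    rw [P.J_sub (P.bs_smul _ (P.bc_re hf)) (P.bs_smul _ (P.bc_im hf)), P.smul _ _ (P.bc_re hf),
      P.smul _ _ (P.bc_im hf)]
  · simp only [Complex.mul_im, Jc_re, Jc_im]
    rw [P.add _ _ (P.bs_smul _ (P.bc_im hf)) (P.bs_smul _ (P.bc_re hf)), P.smul _ _ (P.bc_re hf),
      P.smul _ _ (P.bc_im hf)]

theorem Jc_sub {f g : Ω → ℂ} (hf : BC P.I f) (hg : BC P.I g) :
    P.Jc (fun x => f x - g x) = P.Jc f - P.Jc g := by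
  have h1 := P.Jc_add hf (P.bc_smul (-1) hg)
  rw [P.Jc_smul _ hg] at h1
  simpa [sub_eq_add_neg] using h1

theorem Jc_real (f : Ω → ℝ) : P.Jc (fun x => (f x : ℂ)) = P.J f := by
  apply Complex.ext
  · simp [Jc_re]
  · simp [Jc_im, P.J_zero]

theorem Jc_sum {ι : Type} (s : Finset ι) {f : ι → Ω → ℂ} (hf : ∀ i ∈ s, BC P.I (f i)) :
    P.Jc (fun x => ∑ i ∈ s, f i x) = ∑ i ∈ s, P.Jc (f i) := by
  induction s using Finset.induction_on with
  | empty =>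
    have := P.Jc_real (fun _ => 0)
    rw [P.J_zero] at this
    simpa using this
  | insert a s ha ih =>
    simp only [Finset.sum_insert ha]
    rw [P.Jc_add (hf a (Finset.mem_insert_self _ _))
      (P.bc_sum s fun i hi => hf i (Finset.mem_insert_of_mem hi)),
      ih fun i hi => hf i (Finset.mem_insert_of_mem hi)]

theorem Jc_norm_le {f : Ω → ℂ} {g : Ω → ℝ} (hf : BC P.I f) (hg : BS P.I g)
    (h : ∀ x, ‖f x‖ ≤ g x) : ‖P.Jc f‖ ≤ P.J g := by
  have h0 : 0 ≤ P.J g := P.nonneg _ hg fun x => (norm_nonneg _).trans (h x)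
  obtain ⟨z, hz⟩ : ∃ z, z = P.Jc f := ⟨_, rfl⟩
  rw [← hz]
  have h1 : ‖z‖ * ‖z‖ = ((starRingEnd ℂ) z * z).re := by
    rw [Complex.conj_mul', ← sq]; norm_cast
  have h2 : ((starRingEnd ℂ) z * z).re ≤ ‖z‖ * P.J g := by
    conv_lhs => rw [show (starRingEnd ℂ) z * z = (starRingEnd ℂ) z * P.Jc f by rw [← hz]]
    rw [← P.Jc_smul _ hf, Jc_re, ← P.smul _ _ hg]
    refine P.J_mono (P.bc_re (P.bc_smul _ hf)) (P.bs_smul _ hg) fun x => ?_
    refine (Complex.re_le_norm _).trans ?_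
    rw [norm_mul, Complex.norm_conj]
    exact mul_le_mul_of_nonneg_left (h x) (norm_nonneg _)
  rcases (norm_nonneg z).lt_or_eq with h3 | h3
  · exact le_of_mul_le_mul_left (h1 ▸ h2) h3
  · rw [← h3]; exact h0

theorem Jc_le_mu {f : Ω → ℂ} {A : Set Ω} (hA : P.I A) (C : ℝ) (h : ∀ x, ‖f x‖ ≤ C * ind A x) :
    ‖P.Jc f‖ ≤ C * P.mu A := by
  have := P.Jc_norm_le (P.bc_of hA C h) (P.bs_smul C (P.bs_ind hA)) h
  rwa [P.smul _ _ (P.bs_ind hA)] at this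

theorem Jc_close {f g : Ω → ℂ} {A : Set Ω} (hf : BC P.I f) (hg : BC P.I g) (hA : P.I A) (C : ℝ)
    (h1 : ∀ x ∈ A, ‖f x - g x‖ ≤ C) (h2 : ∀ x, x ∉ A → f x = g x) :
    ‖P.Jc f - P.Jc g‖ ≤ C * P.mu A := by
  rw [← P.Jc_sub hf hg]
  refine P.Jc_le_mu hA C fun x => ?_
  by_cases hx : x ∈ A
  · rw [ind_mem hx, mul_one]; exact h1 x hx
  · rw [ind_nmem hx, h2 x hx]; simp

theorem Jc_null {f g : Ω → ℂ} {A : Set Ω} (hf : BC P.I f) (hg : BC P.I g) (hA : P.I A)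
    (h0 : P.mu A ≤ 0) (h2 : ∀ x, x ∉ A → f x = g x) : P.Jc f = P.Jc g := by
  obtain ⟨C, hC⟩ := (P.bc_sub hf hg).1
  have := P.Jc_close hf hg hA C (fun x _ => hC x) h2
  rw [le_antisymm h0 (P.mu_nonneg hA), mul_zero] at this
  exact sub_eq_zero.1 (norm_le_zero_iff.1 this)

theorem Jc_ind (c : ℂ) {A : Set Ω} (hA : P.I A) :
    P.Jc (fun x => c * (ind A x : ℝ)) = c * P.mu A := by
  rw [P.Jc_smul c (P.bc_real (P.bs_ind hA)), P.Jc_real]; rfl

end PF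

theorem IF.Jc_inv {κ G : Type} [Group G] (P : IF κ G) {f : κ × G → ℂ} (g : G) (hf : BC P.I f)
    (hf' : BC P.I (fun x => f (sh g x))) : P.Jc (fun x => f (sh g x)) = P.Jc f := by
  apply Complex.ext
  · rw [PF.Jc_re, PF.Jc_re]
    exact P.inv (fun x => (f x).re) g (P.bc_re hf) (P.bc_re hf')
  · rw [PF.Jc_im, PF.Jc_im]
    exact P.inv (fun x => (f x).im) g (P.bc_im hf) (P.bc_im hf')

theorem bl_abs {f : ℕ → ℝ} {C : ℝ} (h : ∀ n, |f n| ≤ C) : |BL.J f| ≤ C :=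
  abs_le.2 ⟨bl_ge (bl_bs C h) 0 _ fun n _ => (abs_le.1 (h n)).1,
    bl_le (bl_bs C h) 0 _ fun n _ => (abs_le.1 (h n)).2⟩

/-- iterated Banach limit -/
def BB : PF (ℕ × ℕ) where
  I := fun _ => True
  I_empty := trivial
  I_mono := fun _ _ _ _ => trivial
  I_union := fun _ _ _ _ => trivial
  J := fun f => BL.J (fun a => BL.J (fun n => f (a, n)))
  add := by
    rintro f g ⟨⟨C, hC⟩, -⟩ ⟨⟨D, hD⟩, -⟩
    rw [← BL.add _ _ (bl_bs C fun a => bl_abs fun n => hC _) (bl_bs D fun a => bl_abs fun n => hD _)]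
    congr 1
    funext a
    exact BL.add _ _ (bl_bs C fun n => hC _) (bl_bs D fun n => hD _)
  smul := by
    rintro c f ⟨⟨C, hC⟩, -⟩
    rw [← BL.smul _ _ (bl_bs C fun a => bl_abs fun n => hC _)]
    congr 1
    funext a
    exact BL.smul _ _ (bl_bs C fun n => hC _)
  nonneg := by
    rintro f ⟨⟨C, hC⟩, -⟩ h
    exact BL.nonneg _ (bl_bs C fun a => bl_abs fun n => hC _) fun a =>
      BL.nonneg _ (bl_bs C fun n => hC _) fun n => h _

theorem bb_bs {f : ℕ × ℕ → ℝ} (C : ℝ) (h : ∀ n, |f n| ≤ C) : BS BB.I f := ⟨⟨C, h⟩, trivial⟩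
theorem bb_bc {f : ℕ × ℕ → ℂ} (C : ℝ) (h : ∀ n, ‖f n‖ ≤ C) : BC BB.I f := ⟨⟨C, h⟩, trivial⟩

theorem bb_const (c : ℝ) : BB.J (fun _ => c) = c := by
  show BL.J (fun _ => BL.J (fun _ => c)) = c
  rw [bl_const, bl_const]

theorem bb_constc (c : ℂ) : BB.Jc (fun _ => c) = c := by
  apply Complex.ext
  · rw [PF.Jc_re, bb_const]
  · rw [PF.Jc_im, bb_const]

theorem bb_succ {f : ℕ × ℕ → ℝ} (hf : BS BB.I f) : BB.J (fun z => f (z.1, z.2 + 1)) = BB.J f := by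
  obtain ⟨C, hC⟩ := hf.1
  show BL.J (fun a => BL.J (fun n => f (a, n + 1))) = BL.J (fun a => BL.J (fun n => f (a, n)))
  congr 1
  funext a
  exact bl_succ (f := fun n => f (a, n)) (bl_bs C fun n => hC _)

theorem bb_succc {f : ℕ × ℕ → ℂ} (hf : BC BB.I f) : BB.Jc (fun z => f (z.1, z.2 + 1)) = BB.Jc f := by
  apply Complex.ext
  · rw [PF.Jc_re, PF.Jc_re]; exact bb_succ (f := fun z => (f z).re) (BB.bc_re hf)
  · rw [PF.Jc_im, PF.Jc_im]; exact bb_succ (f := fun z => (f z).im) (BB.bc_im hf)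

theorem bb_vanish (p : ℕ → ℕ → ℝ) (h0 : ∀ j m, 0 ≤ p j m) (C : ℝ)
    (h1 : ∀ m (s : Finset ℕ), ∑ j ∈ s, p j m ≤ C) (i l : ℕ) :
    BB.J (fun z => p (z.1 + i) (z.1 + z.2 + l)) = 0 := by
  have hb : ∀ j m, |p j m| ≤ C := fun j m => by
    rw [abs_of_nonneg (h0 j m)]; simpa using h1 m {j}
  let q : ℕ → ℝ := fun j => BL.J (p j)
  have hq0 : ∀ j, 0 ≤ q j := fun j => BL.nonneg _ (bl_bs C (hb j)) (h0 j)
  have hq : ∀ s : Finset ℕ, ∑ j ∈ s, q j ≤ C := by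
    intro s
    rw [← BL.J_sum s fun j _ => bl_bs C (hb j)]
    exact bl_le (BL.bs_sum s fun j _ => bl_bs C (hb j)) 0 C fun n _ => h1 n s
  have ht := (summable_of_sum_le hq0 hq).tendsto_atTop_zero
  have e : (fun a => BL.J (fun n => p (a + i) (a + n + l))) = fun a => q (a + i) := by
    funext a
    show _ = BL.J (p (a + i))
    rw [← bl_shift (bl_bs C (hb (a + i))) (a + l)]
    congr 1
    funext n
    congr 1
    omega
  show BL.J (fun a => BL.J (fun n => p (a + i) (a + n + l))) = 0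
  rw [e]
  refine bl_zero (bl_bs C fun a => bl_abs (hb _)) fun ε hε => ?_
  obtain ⟨k, hk⟩ := Metric.tendsto_atTop.1 ht ε hε
  refine ⟨k, fun n hn => ?_⟩
  have := hk (n + i) (by omega)
  rw [Real.dist_eq, sub_zero] at this
  exact this.le

theorem la_tree {ι C : Type} (ch : ι → Finset ι) (u : ι → ℝ) (h : ι → ℂ) (δ : ℝ) (hδ : 0 < δ) (ω : ℂ)
    (hω : ‖ω‖ = 1) (hr : ∀ n : ℕ, 0 < n → ω ^ n ≠ 1) (h1 : ∀ i, ‖h i‖ ≤ u i)
    (h2 : ∀ i, δ * u i = ∑ j ∈ ch i, u j) (h3 : ∀ i, δ * ω * h i = ∑ j ∈ ch i, h j)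
    (cls : ι → C) (Cs : Set C) (hCs : Cs.Finite) (h4 : ∀ i, 0 < u i → cls i ∈ Cs)
    (h5 : ∀ i j, 0 < u i → 0 < u j → cls i = cls j → u i = u j ∧ h i = h j) (i0 : ι) : h i0 = 0 := by
  by_contra hne
  have hu0 : ∀ i, 0 ≤ u i := fun i => (norm_nonneg _).trans (h1 i)
  let c : ι → ℂ := fun i => h i / u i
  have hfin : (c '' {i | 0 < u i}).Finite := by
    refine Set.Finite.of_finite_image (f := fun z => if hz : z ∈ c '' {i | 0 < u i} then
      cls hz.choose else cls i0) (hCs.subset ?_) ?_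
    · rintro _ ⟨z, hz, rfl⟩
      simp only [dif_pos hz]
      exact h4 _ hz.choose_spec.1
    · intro z hz z' hz' he
      simp only [dif_pos hz, dif_pos hz'] at he
      obtain ⟨a, b⟩ := h5 _ _ hz.choose_spec.1 hz'.choose_spec.1 he
      rw [← hz.choose_spec.2, ← hz'.choose_spec.2]
      simp only [c, a, b]
  have hpos0 : 0 < u i0 := (norm_pos_iff.2 hne).trans_le (h1 i0)
  obtain ⟨z1, ⟨i1, hi1, rfl⟩, hmax⟩ := Set.exists_max_image _ (fun z => ‖z‖) hfin ⟨_, i0, hpos0, rfl⟩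
  obtain ⟨ρ, hρ⟩ : ∃ ρ, ρ = ‖c i1‖ := ⟨_, rfl⟩
  have hρ0 : 0 < ρ := by
    refine lt_of_lt_of_le ?_ (hρ ▸ hmax _ ⟨i0, hpos0, rfl⟩)
    exact norm_pos_iff.2 (div_ne_zero hne (by exact_mod_cast hpos0.ne'))
  have hc : ∀ i, h i = c i * u i := by
    intro i
    rcases (hu0 i).lt_or_eq with h6 | h6
    · exact (div_mul_cancel₀ _ (by exact_mod_cast h6.ne')).symm
    · have := h1 i
      rw [← h6] at this ⊢
      simpa using this
  have step : ∀ i, 0 < u i → ‖c i‖ = ρ → ∃ j, 0 < u j ∧ c j = ω * c i := by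
    intro i hi hci
    obtain ⟨v, hv⟩ : ∃ v, v = ω * c i := ⟨_, rfl⟩
    have hvn : ‖v‖ = ρ := by rw [hv, norm_mul, hω, one_mul, hci]
    have e1 : ∑ j ∈ ch i, (ρ ^ 2 - ((starRingEnd ℂ) v * c j).re) * u j = 0 := by
      have e2 : (starRingEnd ℂ) v * ∑ j ∈ ch i, h j = ((ρ ^ 2 * (δ * u i) : ℝ) : ℂ) := by
        rw [← h3 i, hc i, show (starRingEnd ℂ) v * (δ * ω * (c i * u i)) =
          ((starRingEnd ℂ) v * (ω * c i)) * (δ * u i) by ring, ← hv, Complex.conj_mul', hvn]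
        push_cast; ring
      have e3 := congrArg Complex.re e2
      rw [Complex.ofReal_re, Finset.mul_sum, Complex.re_sum, h2 i, Finset.mul_sum] at e3
      simp only [sub_mul]
      rw [Finset.sum_sub_distrib, ← e3, sub_eq_zero]
      refine Finset.sum_congr rfl fun j _ => ?_
      rw [hc j, ← mul_assoc, Complex.re_mul_ofReal]
    have hle : ∀ j, 0 < u j → ((starRingEnd ℂ) v * c j).re ≤ ρ ^ 2 := by
      intro j hj
      refine (Complex.re_le_norm _).trans ?_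
      rw [norm_mul, Complex.norm_conj, hvn, sq]
      exact mul_le_mul_of_nonneg_left (hρ ▸ hmax _ ⟨j, hj, rfl⟩) hρ0.le
    have hnn : ∀ j ∈ ch i, 0 ≤ (ρ ^ 2 - ((starRingEnd ℂ) v * c j).re) * u j := by
      intro j _
      rcases (hu0 j).lt_or_eq with h6 | h6
      · exact mul_nonneg (sub_nonneg.2 (hle j h6)) h6.le
      · rw [← h6, mul_zero]
    have e4 := (Finset.sum_eq_zero_iff_of_nonneg hnn).1 e1
    obtain ⟨j, hj, hj'⟩ : ∃ j ∈ ch i, 0 < u j := by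
      by_contra hn
      push Not at hn
      have := Finset.sum_nonpos hn
      rw [← h2 i] at this
      exact absurd (mul_pos hδ hi) (not_lt.2 this)
    refine ⟨j, hj', ?_⟩
    have e5 : ((starRingEnd ℂ) v * c j).re = ρ ^ 2 := by
      have := (mul_eq_zero.1 (e4 j hj)).resolve_right hj'.ne'
      linarith
    have e6 : ‖c j‖ ≤ ρ := hρ ▸ hmax _ ⟨j, hj', rfl⟩
    have e7 : ‖c j - v‖ ^ 2 ≤ 0 := by
      rw [← Complex.normSq_eq_norm_sq, Complex.normSq_sub, Complex.normSq_eq_norm_sq,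
        Complex.normSq_eq_norm_sq, hvn, mul_comm (c j), e5]
      nlinarith [norm_nonneg (c j)]
    rw [← hv]
    exact sub_eq_zero.1 (norm_eq_zero.1 (pow_eq_zero_iff two_ne_zero |>.1
      (le_antisymm e7 (sq_nonneg _))))
  have iter : ∀ k : ℕ, ∃ j, 0 < u j ∧ c j = ω ^ k * c i1 := by
    intro k
    induction k with
    | zero => exact ⟨i1, hi1, by simp⟩
    | succ k ih =>
      obtain ⟨j, a, b⟩ := ih
      obtain ⟨j', a', b'⟩ := step j a (by rw [b, norm_mul, norm_pow, hω, one_pow, one_mul, hρ])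
      exact ⟨j', a', by rw [b', b]; ring⟩
  have hinf := Set.infinite_of_injective_forall_mem (f := fun k : ℕ => ω ^ k * c i1)
    (s := c '' {i | 0 < u i}) ?_ (fun k => by
      obtain ⟨j, a, b⟩ := iter k
      exact ⟨j, a, b⟩)
  · exact hinf hfin
  · have hω0 : ω ≠ 0 := by rintro rfl; simp at hω
    have hc0 : c i1 ≠ 0 := norm_pos_iff.1 (hρ ▸ hρ0)
    have key : ∀ k l : ℕ, k < l → ω ^ k ≠ ω ^ l := by
      intro k l hkl he
      obtain ⟨d, rfl⟩ := Nat.exists_eq_add_of_lt hkl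
      rw [add_assoc, pow_add, left_eq_mul₀ (pow_ne_zero _ hω0)] at he
      exact hr _ (Nat.succ_pos _) he
    intro k l he
    have he' : ω ^ k = ω ^ l := mul_right_cancel₀ hc0 he
    rcases lt_trichotomy k l with h6 | h6 | h6
    · exact absurd he' (key _ _ h6)
    · exact h6
    · exact absurd he'.symm (key _ _ h6)

end

end Pool.Agent.H870Z.LM
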