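import Mathlib
import Pool.Agent.H870Z.LM.Cx

set_option autoImplicit false

open scoped Classical Pointwise

namespace Pool.Agent.H870Z.LM

open Pool.Agent.Helper943.LM

noncomputable section

variable {G V : Type} [Group G] [NormedAddCommGroup V] [NormedSpace ℂ V]

theorem Pre.S_mul_H (X : Pre G V) {a : ℕ} {u v : G} (hu : u ∈ X.S a) (hv : v ∈ X.H) :
    u * v ∈ X.H := by
  induction a generalizing u with
  | zero => exact (X.B_H hu v).2 hv
  | succ a ih =>
    obtain ⟨z, hz, g, hg, rfl⟩ := hu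
    rw [mul_assoc]
    exact X.nest hz _ (ih hg)

theorem Pre.S_uniq (X : Pre G V) {a : ℕ} {u u' v v' : G} (hu : u ∈ X.S a) (hu' : u' ∈ X.S a)
    (hv : v ∈ X.H) (hv' : v' ∈ X.H) (he : u * v = u' * v') : u'⁻¹ * u ∈ X.B := by
  induction a generalizing u u' with
  | zero => exact X.B.mul_mem (X.B.inv_mem hu') hu
  | succ a ih =>
    obtain ⟨w, hw, g1, h1, rfl⟩ := hu
    obtain ⟨w', hw', g1', h1', rfl⟩ := hu'
    have e : w'⁻¹ * w * (g1 * v) = g1' * v' := by
      have : g1' * v' = (X.t * w')⁻¹ * (X.t * w' * g1' * v') := by group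
      rw [this, ← he]; group
    have k3 : w'⁻¹ * w ∈ X.B :=
      X.memB_of (X.L.mul_mem (X.L.inv_mem hw') hw) (X.S_mul_H h1 hv)
        (by rw [e]; exact X.S_mul_H h1' hv')
    have := ih (X.S_B k3 h1) h1' (by rw [← e]; group)
    rwa [show (X.t * w' * g1')⁻¹ * (X.t * w * g1) = g1'⁻¹ * (w'⁻¹ * w * g1) by group]

section
variable {X : Pre G V} {U : UA G}

theorem Dec.pre_S {y g : G} {p : List U.A} {a c : List (List U.A)} (h : Dec X U y g p (a ++ c)) :
    y⁻¹ * U.ev (p ++ a.flatten) ∈ X.S a.length := by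
  rw [U.ev_append, ← mul_assoc]
  exact X.S_B h.2.1 (ev_flatten fun v hv => h.2.2 v (List.mem_append_left _ hv))

theorem Dec.pre_h {y g : G} {p : List U.A} {a c : List (List U.A)} (h : Dec X U y g p (a ++ c)) :
    X.h (U.ev (p ++ a.flatten)) = X.h y + a.length := by
  have := X.S_h h.pre_S
  rw [X.h_mul, X.h_inv] at this
  omega

theorem Dec.ev2 {y g : G} {p : List U.A} {a c : List (List U.A)} (h : Dec X U y g p (a ++ c)) :
    g = U.ev (p ++ a.flatten) * U.ev c.flatten := by
  rw [h.ev, List.flatten_append, U.ev_append, U.ev_append, mul_assoc]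

theorem Dec.nf2 {y g : G} {p : List U.A} {a c : List (List U.A)} (h : Dec X U y g p (a ++ c)) :
    nf U g = (p ++ a.flatten) ++ c.flatten := by
  rw [h.1, List.flatten_append, List.append_assoc]

theorem flat_h {c : List (List U.A)} (h : ∀ v ∈ c, Seg X U v) : X.h (U.ev c.flatten) = c.length :=
  X.S_h (ev_flatten h)

theorem d_B {y g e : G} {p p' : List U.A} {a c a' c' : List (List U.A)} (he : e ∈ X.L)
    (h : Dec X U y g p (a ++ c)) (h' : Dec X U y (g * e) p' (a' ++ c')) (hl : a.length = a'.length)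
    (hc : c ≠ []) (hc' : c' ≠ []) :
    (U.ev (p ++ a.flatten))⁻¹ * U.ev (p' ++ a'.flatten) ∈ X.B := by
  have h1 := (inH_flatten hc fun v hv => h.2.2 v (List.mem_append_right _ hv)).ev
  have h2 := (inH_flatten hc' fun v hv => h'.2.2 v (List.mem_append_right _ hv)).ev
  have := X.S_uniq (hl ▸ h'.pre_S) h.pre_S h2 (X.H_L _ _ he h1) (by
    rw [mul_assoc, ← h'.ev2, mul_assoc, ← mul_assoc (U.ev (p ++ a.flatten)), ← h.ev2])
  rwa [mul_inv_rev, inv_inv, mul_assoc, mul_inv_cancel_left] at this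

end

theorem prefix_flatten {α : Type} (c : List (List α)) : ∀ v : List α, v <+: c.flatten →
    v = [] ∨ ∃ B w c2 u, c = B ++ w :: c2 ∧ u <+: w ∧ v = B.flatten ++ u := by
  induction c with
  | nil => intro v h; exact Or.inl (List.prefix_nil.1 h)
  | cons w c ih =>
    intro v h
    rw [List.flatten_cons] at h
    rcases prefix_app h with h1 | ⟨v', h1, rfl⟩
    · exact Or.inr ⟨[], w, c, v, rfl, h1, rfl⟩
    · rcases ih v' h1 with rfl | ⟨B, w', c2, u, rfl, h2, rfl⟩
      · exact Or.inr ⟨[], w, c, w, rfl, List.prefix_rfl, by simp⟩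
      · exact Or.inr ⟨w :: B, w', c2, u, rfl, h2, by simp⟩

theorem flat_len {α : Type} (Lb : ℕ) (B : List (List α)) (h : ∀ w ∈ B, w.length ≤ Lb) :
    B.flatten.length ≤ B.length * Lb := by
  induction B with
  | nil => simp
  | cons w B ih =>
    rw [List.flatten_cons, List.length_append, List.length_cons, Nat.succ_mul]
    have := h w List.mem_cons_self
    have := ih fun v hv => h v (List.mem_cons_of_mem _ hv)
    omega

theorem flat_cl {X : HS G V} {U : UA G} {F : Set (G ⧸ X.N)} (B : List (List U.A))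
    (h : ∀ w ∈ B, Gd X U F w) : X.cl (U.ev B.flatten) ∈ F ^ B.length := by
  induction B with
  | nil => rw [List.flatten_nil, U.ev_nil, List.length_nil, pow_zero]; exact Set.mem_one.2 rfl
  | cons w B ih =>
    rw [List.flatten_cons, U.ev_append, X.cl_mul, List.length_cons, pow_succ']
    exact Set.mul_mem_mul (h w List.mem_cons_self w List.prefix_rfl)
      (ih fun v hv => h v (List.mem_cons_of_mem _ hv))

theorem stuff {X : HS G V} {U : UA G} {F : Set (G ⧸ X.N)} {C1 CD : ℕ}
    (hC : ∀ x, X.cl x ∈ F → |X.h x| ≤ C1) {c : List (List U.A)} (h1 : ∀ w ∈ c, Seg X.toPre U w)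
    (h2 : ∀ w ∈ c, Gd X U F w) {v : List U.A} (hv : v <+: c.flatten) (h3 : |X.h (U.ev v)| ≤ CD) :
    X.cl (U.ev v) ∈ (insert 1 F) ^ (CD + C1 + 1) ∧ ∀ Lb, (∀ w ∈ c.take (CD + C1 + 1), w.length ≤ Lb) →
      v.length ≤ (CD + C1 + 1) * Lb := by
  rcases prefix_flatten c v hv with rfl | ⟨B, w, c2, u, rfl, hu, rfl⟩
  · refine ⟨?_, fun _ _ => Nat.zero_le _⟩
    rw [U.ev_nil]; exact Set.one_mem_pow (Set.mem_insert _ _)
  · have k1 := flat_h fun v hv => h1 v (List.mem_append_left _ hv)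
    have k2 := h2 w (by simp) u hu
    have k3 := abs_le.1 (hC _ k2)
    rw [U.ev_append, X.h_mul, k1, abs_le] at h3
    have k4 : B.length ≤ CD + C1 := by omega
    constructor
    · rw [U.ev_append, X.cl_mul, pow_succ]
      refine Set.mul_mem_mul ?_ (Set.mem_insert_of_mem _ k2)
      exact Set.pow_subset_pow_right (Set.mem_insert _ _) k4
        (Set.pow_subset_pow_left (Set.subset_insert _ _)
          (flat_cl B fun v hv => h2 v (List.mem_append_left _ hv)))
    · intro Lb hb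
      have k5 : B ++ [w] <+: (B ++ w :: c2).take (CD + C1 + 1) :=
        List.prefix_take_iff.2 ⟨⟨c2, by simp⟩, by simp; omega⟩
      have k6 := flat_len Lb (B ++ [w]) fun v hv => hb v (k5.subset hv)
      have k7 := hu.length_le
      simp only [List.flatten_append, List.flatten_singleton, List.length_append,
        List.length_singleton] at k6 ⊢
      have := Nat.mul_le_mul_right Lb (show B.length + 1 ≤ CD + C1 + 1 by omega)
      omega

theorem d_fin (X : HS G V) (U : UA G) (F : Set (G ⧸ X.N)) (hF : F.Finite) {e : G} (he : e ∈ X.L)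
    (Lb : ℕ) : ∃ (K : ℕ) (D1 : Set (G ⧸ X.N)) (Dt : Set G), D1.Finite ∧ Dt.Finite ∧
      ∀ (y g : G) (p p' : List U.A) (a c a' c' : List (List U.A)),
      Dec X.toPre U y g p (a ++ c) → Dec X.toPre U y (g * e) p' (a' ++ c') → a.length = a'.length →
      c ≠ [] → c' ≠ [] → (∀ w ∈ c, Gd X U F w) → (∀ w ∈ c', Gd X U F w) →
      X.cl ((U.ev (p ++ a.flatten))⁻¹ * U.ev (p' ++ a'.flatten)) ∈ D1 ∧
      ((∀ w ∈ c.take K, w.length ≤ Lb) → (∀ w ∈ c'.take K, w.length ≤ Lb) →
        (U.ev (p ++ a.flatten))⁻¹ * U.ev (p' ++ a'.flatten) ∈ Dt) := by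
  obtain ⟨D, hD, hft⟩ := ftK U {e} (Set.finite_singleton e)
  obtain ⟨C1, hC1⟩ := X.h_bound F hF
  obtain ⟨CD, hCD⟩ := X.h_bound (X.cl '' D) (hD.image _)
  let W : Set G := U.ev '' {w | w.length ≤ (CD + C1 + 1) * Lb}
  have hW : W.Finite := (U.finite_le _).image _
  have hQ := fin_pow (hF.insert 1) (CD + C1 + 1)
  refine ⟨CD + C1 + 1, (X.cl '' D) * ((insert 1 F) ^ (CD + C1 + 1))⁻¹ ∪
    (insert 1 F) ^ (CD + C1 + 1) * (X.cl '' D), D * W⁻¹ ∪ W * D,
    ((hD.image _).mul hQ.inv).union (hQ.mul (hD.image _)),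
    (hD.mul hW.inv).union (hW.mul hD), fun y g p p' a c a' c' h h' hl hc hc' g1 g2 => ?_⟩
  have hB := X.h_L _ (X.B_le _ (d_B he h h' hl hc hc'))
  have hft' := hft g (g * e) (by simp)
  rw [h.nf2, h'.nf2] at hft'
  generalize p ++ a.flatten = P at hB hft' ⊢
  generalize p' ++ a'.flatten = P' at hB hft' ⊢
  rcases le_total P'.length P.length with hle | hle
  · obtain ⟨d, hd⟩ := Nat.exists_eq_add_of_le hle
    have k1 := hft' P.length
    rw [List.take_left, hd, List.take_length_add_append, U.ev_append, ← mul_assoc] at k1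
    have k2 := hCD _ ⟨_, k1, rfl⟩
    rw [X.h_mul, hB, zero_add] at k2
    obtain ⟨k3, k4⟩ := stuff hC1 (fun v hv => h'.2.2 v (List.mem_append_right _ hv)) g2
      (List.take_prefix d _) k2
    refine ⟨Or.inl ?_, fun _ s2 => Or.inl ?_⟩
    · have := Set.mul_mem_mul (Set.mem_image_of_mem X.cl k1) (Set.inv_mem_inv.2 k3)
      rwa [X.cl_mul, mul_inv_cancel_right] at this
    · have := Set.mul_mem_mul k1 (Set.inv_mem_inv.2 (show U.ev _ ∈ W from ⟨_, k4 Lb s2, rfl⟩))
      rwa [mul_inv_cancel_right] at this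
  · obtain ⟨d, hd⟩ := Nat.exists_eq_add_of_le hle
    have k1 := hft' P'.length
    rw [List.take_left, hd, List.take_length_add_append, U.ev_append, mul_inv_rev, mul_assoc] at k1
    have k2 := hCD _ ⟨_, k1, rfl⟩
    rw [X.h_mul, hB, add_zero, X.h_inv, abs_neg] at k2
    obtain ⟨k3, k4⟩ := stuff hC1 (fun v hv => h.2.2 v (List.mem_append_right _ hv)) g1
      (List.take_prefix d _) k2
    refine ⟨Or.inr ?_, fun s1 _ => Or.inr ?_⟩
    · have := Set.mul_mem_mul k3 (Set.mem_image_of_mem X.cl k1)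
      rwa [← X.cl_mul, mul_inv_cancel_left] at this
    · have := Set.mul_mem_mul (show U.ev _ ∈ W from ⟨_, k4 Lb s1, rfl⟩) k1
      rwa [mul_inv_cancel_left] at this

/-- a long segment at level `j` -/
def LongAt {α : Type} (Lb : ℕ) (es : List (List α)) (j : ℕ) : Prop :=
  ∃ A w c, es = A ++ w :: c ∧ A.length = j ∧ Lb < w.length

theorem long_count (X : HS G V) (U : UA G) (F : Set (G ⧸ X.N)) (hF : F.Finite) :
    ∃ Lb CP : ℕ, ∀ (y g : G) (p : List U.A) (es : List (List U.A)), Dec X.toPre U y g p es →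
      (∀ w ∈ es, Gd X U F w) → ∀ s : Finset ℕ, (s.filter (LongAt Lb es)).card ≤ CP := by
  have := U.finS
  have : Fintype U.S := Fintype.ofFinite _
  obtain ⟨Lb, hLb⟩ := red_len X U F hF
  obtain ⟨C, hC⟩ := loop_h_bound X U
  obtain ⟨C1, hC1⟩ := X.h_bound F hF
  refine ⟨Lb, Fintype.card U.S * (C + 2 * C1 + 1), fun y g p es hd hg s => ?_⟩
  have key : ∀ j, LongAt Lb es j → ∃ v, v <+: nf U g ∧ PS X U (U.run U.s0 v) ∧
      |X.h (U.ev v) - (X.h y + j)| ≤ C1 := by
    rintro j ⟨A, w, c, rfl, rfl, hl⟩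
    have hm := hd.mem
    have hw := hg w (by simp)
    by_contra hn
    push Not at hn
    refine absurd hl (not_lt.2 (hLb (U.run U.s0 (p ++ A.flatten)) w ⟨_, rfl⟩ ⟨c.flatten, ?_⟩ ?_ hw))
    · rw [← U.run_append]
      rw [U.mem_L] at hm
      simpa using hm
    · rintro ⟨u, v, hP, he⟩
      have hu : u <+: w := ⟨_, by rw [he, List.append_assoc]⟩
      refine absurd (hn (p ++ A.flatten ++ u) ?_ (by rwa [U.run_append])) (not_lt.2 ?_)
      · rw [hd.nf2, List.flatten_cons]
        exact (List.prefix_append_right_inj _).2 (hu.trans (List.prefix_append _ _))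
      · rw [U.ev_append, X.h_mul, hd.pre_h, add_sub_cancel_left]
        exact hC1 _ (hw u hu)
  choose! v v1 v2 v3 using key
  have close : ∀ j j', LongAt Lb es j → LongAt Lb es j' → v j <+: v j' →
      U.run U.s0 (v j) = U.run U.s0 (v j') → |(j : ℤ) - j'| ≤ C + 2 * C1 := by
    rintro j j' h1 h2 ⟨Y, hY⟩ hr
    have k1 := hC _ (v2 j h1) Y (by rw [← U.run_append, hY, hr])
    have k2 := abs_le.1 (v3 j h1)
    have k3 := abs_le.1 (v3 j' h2)
    rw [← hY, U.ev_append, X.h_mul] at k3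
    rw [abs_le] at k1 ⊢
    omega
  refine (Finset.card_le_card_of_injOn
    (fun j => (U.run U.s0 (v j), j % (C + 2 * C1 + 1)))
    (t := Finset.univ ×ˢ Finset.range (C + 2 * C1 + 1)) ?_ ?_).trans (by simp)
  · intro j _
    simp only [Finset.coe_product, Finset.coe_univ, Finset.coe_range, Set.mem_prod, Set.mem_univ,
      Set.mem_Iio, true_and]
    exact Nat.mod_lt _ (Nat.succ_pos _)
  · intro j hj j' hj' he
    have h1 := (Finset.mem_filter.1 (Finset.mem_coe.1 hj)).2
    have h2 := (Finset.mem_filter.1 (Finset.mem_coe.1 hj')).2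
    simp only [Prod.mk.injEq] at he
    have h3 : |(j : ℤ) - j'| ≤ C + 2 * C1 := by
      rcases List.prefix_or_prefix_of_prefix (v1 j h1) (v1 j' h2) with h | h
      · exact close j j' h1 h2 h he.1
      · rw [abs_sub_comm]; exact close j' j h2 h1 h he.1.symm
    have h4 : ((C + 2 * C1 + 1 : ℕ) : ℤ) ∣ (j' : ℤ) - j := (Nat.modEq_iff_dvd).1 he.2
    have h5 := Int.eq_zero_of_abs_lt_dvd h4 (by rw [abs_sub_comm]; push_cast; omega)
    omega

theorem long_of_win {α : Type} {Lb : ℕ} {es : List (List α)} {a l : ℕ}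
    (h : ¬ ∀ w ∈ (es.drop a).take l, w.length ≤ Lb) : ∃ j ∈ Finset.range l, LongAt Lb es (a + j) := by
  push Not at h
  obtain ⟨w, hw, hl⟩ := h
  obtain ⟨B, c, he⟩ := List.append_of_mem hw
  have h1 := congrArg List.length he
  rw [List.length_take, List.length_drop, List.length_append, List.length_cons] at h1
  refine ⟨B.length, Finset.mem_range.2 (by omega), es.take a ++ B, w, c ++ (es.drop a).drop l, ?_,
    by rw [List.length_append, List.length_take]; omega, hl⟩
  rw [List.append_assoc, ← List.cons_append, ← List.append_assoc B, ← he, List.take_append_drop,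
    List.take_append_drop]

/-- the chosen decomposition -/
def dd (X : Pre G V) (U : UA G) (y g : G) : List U.A × List (List U.A) :=
  Classical.epsilon (fun q => Dec X U y g q.1 q.2)

theorem dd_eq {X : Pre G V} {U : UA G} {y g : G} {p : List U.A} {es : List (List U.A)}
    (h : Dec X U y g p es) (hne : es ≠ []) : dd X U y g = (p, es) := by
  have h1 : Dec X U y g (dd X U y g).1 (dd X U y g).2 :=
    Classical.epsilon_spec (p := fun q : List U.A × List (List U.A) => Dec X U y g q.1 q.2)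
      ⟨(p, es), h⟩
  obtain ⟨h2, h3⟩ := dec_uniq h h1 hne
  exact Prod.ext h2.symm h3.symm

theorem dd_spec {X : Pre G V} {U : UA G} (hL : ∀ a, X.Let (U.mu a)) {y g : G} {m : ℕ}
    (hy : y⁻¹ ∉ X.H) (hg : y⁻¹ * g ∈ X.S (m + 1)) :
    Dec X U y g (dd X U y g).1 (dd X U y g).2 ∧ (dd X U y g).2.length = m + 1 := by
  obtain ⟨p, es, h1, h2⟩ := dec_ex hL hy hg
  rw [dd_eq h1 (by rintro rfl; simp at h2)]
  exact ⟨h1, h2⟩

end

end Pool.Agent.H870Z.LM
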