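import Mathlib
import Pool.Agent.H870Z.LM.Lev

set_option autoImplicit false

open scoped Classical Pointwise

namespace Pool.Agent.H870Z.LM

open Pool.Agent.Helper943.LM

noncomputable section

variable {G V : Type} [Group G] [NormedAddCommGroup V] [NormedSpace ℂ V]

/-- an admissible eigenfunctional -/
structure Eig (X : HS G V) where
  φ : V →ₗ[ℂ] ℂ
  ω : ℂ
  e : G
  he : e ∈ X.L
  eig : ∀ v, φ (X.A v) = ω * φ v
  hN : ∀ ν ∈ X.N, φ (X.b ν) = 0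
  ne : φ (X.b e) ≠ 0
  big : 1 ≤ ‖ω‖
  root : (∃ n : ℕ, 0 < n ∧ ω ^ n = 1) → ∃ (lam : V →ₗ[ℂ] ℂ) (M' : ℕ), 0 < M' ∧ ω ^ M' = 1 ∧
    ∀ v, lam ((X.A ^ M') v) = lam v + φ v

variable {X : HS G V} {U : UA G}

theorem Eig.eig_pow (E : Eig X) (n : ℕ) (v : V) : E.φ ((X.A ^ n) v) = E.ω ^ n * E.φ v := by
  induction n with
  | zero => simp
  | succ n ih =>
    rw [pow_succ']
    show E.φ (X.A ((X.A ^ n) v)) = _
    rw [E.eig, ih]; ring

theorem Eig.bound (E : Eig X) (F : Set (G ⧸ X.N)) (hF : F.Finite) :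
    ∃ C : ℝ, 0 ≤ C ∧ ∀ x, X.cl x ∈ F → ‖E.φ (X.b x)‖ ≤ C := by
  refine X.fin_bound F hF (fun x => ‖E.φ (X.b x)‖) fun x ν hν => ?_
  rw [X.b_mul, map_add, ← X.b_conj x (X.h_L _ (X.N_le _ hν)), E.hN _ (X.N_normal.conj_mem _ hν x),
    add_zero]

theorem win_sub {α : Type} {es : List α} {a l a' l' : ℕ} (h1 : a ≤ a') (h2 : a' + l' ≤ a + l) {w : α}
    (hw : w ∈ (es.drop a').take l') : w ∈ (es.drop a).take l := by
  obtain ⟨i, rfl⟩ := Nat.exists_eq_add_of_le h1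
  rw [← List.drop_drop, List.take_drop] at hw
  exact List.take_subset_take_left _ (by omega) (List.mem_of_mem_drop hw)

theorem bb_le {f : ℕ × ℕ → ℝ} (hf : BS BB.I f) (h0 : BB.J f = 0) {c d C : ℝ}
    (h : ∀ z, c ≤ d + C * f z) : c ≤ d := by
  have h1 := BB.J_mono (bb_bs (f := fun _ => c) |c| fun _ => le_rfl)
    (BB.bs_add (bb_bs (f := fun _ => d) |d| fun _ => le_rfl) (BB.bs_smul C hf)) h
  rwa [BB.add _ _ (bb_bs (f := fun _ => d) |d| fun _ => le_rfl) (BB.bs_smul C hf), BB.smul _ _ hf,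
    h0, bb_const, bb_const, mul_zero, add_zero] at h1

namespace Sys

variable (Y : Sys X U)

/-- segments -/
def es (x : ℕ × G) : List (List U.A) := (dd X.toPre U (Y.y x.1) x.2).2

/-- the word up to level `a` -/
def pf (a : ℕ) (x : ℕ × G) : List U.A := (dd X.toPre U (Y.y x.1) x.2).1 ++ ((Y.es x).take a).flatten

/-- the difference at level `a` -/
def da (e : G) (a : ℕ) (x : ℕ × G) : G := (U.ev (Y.pf a x))⁻¹ * U.ev (Y.pf a (sh e x))

/-- good points -/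
def T1 (m : ℕ) : Set (ℕ × G) := {x | x ∈ X.Top Y.y (m + 1) ∧ ∀ w ∈ Y.es x, Gd X U Y.F1 w}

/-- good pairs -/
def T2 (e : G) (m : ℕ) : Set (ℕ × G) := {x | x ∈ Y.T1 m ∧ sh e x ∈ Y.T1 m}

/-- good pairs with short segments in a window -/
def Nice (e : G) (Lb a l m : ℕ) : Set (ℕ × G) :=
  {x | x ∈ Y.T2 e m ∧ (∀ w ∈ ((Y.es x).drop a).take l, w.length ≤ Lb) ∧
    ∀ w ∈ ((Y.es (sh e x)).drop a).take l, w.length ≤ Lb}

/-- total mass -/
def nm (m : ℕ) : ℝ := Y.P.mu (X.Top Y.y (m + 1))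

/-- proportion of exceptional points -/
def bad (e : G) (Lb a l m : ℕ) : ℝ := Y.P.mu (X.Top Y.y (m + 1) \ Y.Nice e Lb a l m) / Y.nm m

theorem exists_del : ∃ δ : ℝ, 0 < δ ∧ ∀ m k, Y.nm (m + k) = δ ^ k * Y.nm m := by
  obtain ⟨δ, h1, h2⟩ := X.mass
  refine ⟨δ, by exact_mod_cast h1, fun m k => ?_⟩
  induction k with
  | zero => simp
  | succ k ih =>
    have := h2 Y.P Y.y Y.hI (m + k + 1)
    unfold nm at ih ⊢
    rw [← add_assoc, this, ih]; ring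

theorem nm_pos (m : ℕ) : 0 < Y.nm m := by
  obtain ⟨δ, h1, h2⟩ := X.mass
  have : ∀ m, 0 < Y.P.mu (X.Top Y.y m) := by
    intro m
    induction m with
    | zero => exact Y.pos
    | succ m ih => rw [h2 Y.P Y.y Y.hI]; exact mul_pos (by exact_mod_cast h1) ih
  exact this _

theorem top_sh {e : G} (he : e ∈ X.L) {m : ℕ} {x : ℕ × G} :
    sh e x ∈ X.Top Y.y (m + 1) ↔ x ∈ X.Top Y.y (m + 1) := by
  show (Y.y x.1)⁻¹ * (x.2 * e) ∈ X.S (m + 1) ↔ (Y.y x.1)⁻¹ * x.2 ∈ X.S (m + 1)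
  rw [← mul_assoc]
  refine ⟨fun h => ?_, fun h => X.S_L h he⟩
  have := X.S_L h (X.L.inv_mem he)
  rwa [mul_inv_cancel_right] at this

theorem sub_I {A : Set (ℕ × G)} (m : ℕ) (h : A ⊆ X.Top Y.y m) : Y.P.I A := Y.P.I_mono _ _ h (Y.hI m)

theorem mu_sh_top {e : G} (he : e ∈ X.L) {m : ℕ} {A : Set (ℕ × G)} (h : A ⊆ X.Top Y.y (m + 1)) :
    Y.P.mu {x | sh e x ∈ A} = Y.P.mu A :=
  Y.P.mu_sh e (Y.sub_I _ h) (Y.sub_I (m + 1) fun _ hx => (Y.top_sh he).1 (h hx))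

variable (hL : ∀ a, X.Let (U.mu a))
include hL

theorem dec {m : ℕ} {x : ℕ × G} (hx : x ∈ X.Top Y.y (m + 1)) (a : ℕ) :
    Dec X.toPre U (Y.y x.1) x.2 (dd X.toPre U (Y.y x.1) x.2).1 ((Y.es x).take a ++ (Y.es x).drop a) := by
  rw [List.take_append_drop]
  exact (dd_spec hL (Y.hy _) hx).1

theorem es_len {m : ℕ} {x : ℕ × G} (hx : x ∈ X.Top Y.y (m + 1)) : (Y.es x).length = m + 1 :=
  (dd_spec hL (Y.hy _) hx).2

theorem null1 (m : ℕ) : Y.P.mu (X.Top Y.y (m + 1) \ Y.T1 m) ≤ 0 := by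
  refine le_trans (Y.P.mu_mono ?_ (Y.sub_I (m + 1) fun x hx => hx.1)) (Y.good m)
  rintro x ⟨h1, h2⟩
  exact ⟨h1, fun h => h2 ⟨h1, h _ _ (dd_spec hL (Y.hy _) h1).1⟩⟩

theorem null2 {e : G} (he : e ∈ X.L) (m : ℕ) : Y.P.mu (X.Top Y.y (m + 1) \ Y.T2 e m) ≤ 0 := by
  have h1 := Y.P.mu_le_add (A := X.Top Y.y (m + 1) \ Y.T1 m)
    (B := {x | sh e x ∈ X.Top Y.y (m + 1) \ Y.T1 m}) (C := X.Top Y.y (m + 1) \ Y.T2 e m)
    (Y.sub_I _ Set.sdiff_subset) (Y.sub_I (m + 1) fun x hx => (Y.top_sh he).1 hx.1) (by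
      rintro x ⟨h1, h2⟩
      by_cases h3 : x ∈ Y.T1 m
      · exact Or.inr ⟨(Y.top_sh he).2 h1, fun h4 => h2 ⟨h3, h4⟩⟩
      · exact Or.inl ⟨h1, h3⟩)
  rw [Y.mu_sh_top he Set.sdiff_subset] at h1
  linarith [Y.null1 hL m]

omit hL in
theorem bad_nonneg (e : G) (Lb a l m : ℕ) : 0 ≤ Y.bad e Lb a l m :=
  div_nonneg (Y.P.mu_nonneg (Y.sub_I _ Set.sdiff_subset)) (Y.nm_pos m).le

omit hL in
theorem bad_abs (e : G) (Lb a l m : ℕ) : |Y.bad e Lb a l m| ≤ 1 := by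
  rw [abs_of_nonneg (Y.bad_nonneg _ _ _ _ _)]
  exact (div_le_one (Y.nm_pos m)).2 (Y.P.mu_mono Set.sdiff_subset (Y.hI _))

theorem exists_Lb {e : G} (he : e ∈ X.L) : ∃ Lb : ℕ, ∀ i l k,
    BB.J (fun z => Y.bad e Lb (z.1 + i) l (z.1 + z.2 + k)) = 0 := by
  obtain ⟨Lb, CP, h⟩ := long_count X U Y.F1 Y.hF1
  refine ⟨Lb, fun i l k => ?_⟩
  let A : ℕ → ℕ → Set (ℕ × G) := fun j m => {x | x ∈ Y.T1 m ∧ LongAt Lb (Y.es x) j}
  have hA : ∀ j m, A j m ⊆ X.Top Y.y (m + 1) := fun j m x hx => hx.1.1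
  let p : ℕ → ℕ → ℝ := fun j m => Y.P.mu (A j m) / Y.nm m
  have p0 : ∀ j m, 0 ≤ p j m := fun j m =>
    div_nonneg (Y.P.mu_nonneg (Y.sub_I _ (hA j m))) (Y.nm_pos m).le
  have p1 : ∀ m (s : Finset ℕ), ∑ j ∈ s, p j m ≤ CP := by
    intro m s
    rw [← Finset.sum_div, div_le_iff₀ (Y.nm_pos m)]
    refine (Y.P.sum_mu_le s (A := fun j => A j m) (B := Y.T1 m) (Y.sub_I _ fun x hx => hx.1)
      (fun j _ x hx => hx.1) CP fun x hx => ?_).trans
      (mul_le_mul_of_nonneg_left (Y.P.mu_mono (fun x hx => hx.1) (Y.hI _)) (Nat.cast_nonneg _))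
    have h1 := h _ _ _ _ (dd_spec hL (Y.hy _) hx.1).1 hx.2 s
    have h2 : (s.filter fun j => x ∈ A j m).card ≤ (s.filter (LongAt Lb (Y.es x))).card :=
      Finset.card_le_card fun j hj => by
        rw [Finset.mem_filter] at hj ⊢
        exact ⟨hj.1, hj.2.2⟩
    have h3 : ((s.filter fun j => x ∈ A j m).card : ℝ) ≤ CP := by exact_mod_cast h2.trans h1
    convert h3
  have pb : ∀ j m, |p j m| ≤ CP := fun j m => by
    rw [abs_of_nonneg (p0 j m)]; simpa using p1 m {j}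
  have key : ∀ a m, Y.bad e Lb a l m ≤ ∑ j ∈ Finset.range l, 2 * p (a + j) m := by
    intro a m
    have hB : ∀ j, {x | sh e x ∈ A j m} ⊆ X.Top Y.y (m + 1) := fun j x hx =>
      (Y.top_sh he).1 (hA j m hx)
    have h1 := Y.P.mu_le_sum (Finset.range l) (A := fun j => A (a + j) m ∪ {x | sh e x ∈ A (a + j) m})
      (B := Y.T2 e m \ Y.Nice e Lb a l m)
      (fun j _ => Y.sub_I _ (Set.union_subset (hA _ _) (hB _))) (by
        rintro x ⟨h1, h2⟩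
        by_cases h3 : ∀ w ∈ ((Y.es x).drop a).take l, w.length ≤ Lb
        · obtain ⟨j, hj, h4⟩ := long_of_win (es := Y.es (sh e x)) (fun h4 => h2 ⟨h1, h3, h4⟩)
          exact ⟨j, hj, Or.inr ⟨h1.2, h4⟩⟩
        · obtain ⟨j, hj, h4⟩ := long_of_win h3
          exact ⟨j, hj, Or.inl ⟨h1.1, h4⟩⟩)
    have h2 := Y.P.mu_le_add (A := X.Top Y.y (m + 1) \ Y.T2 e m) (B := Y.T2 e m \ Y.Nice e Lb a l m)
      (C := X.Top Y.y (m + 1) \ Y.Nice e Lb a l m) (Y.sub_I _ Set.sdiff_subset)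
      (Y.sub_I (m + 1) fun x hx => hx.1.1.1) (by
        rintro x ⟨h1, h2⟩
        by_cases h3 : x ∈ Y.T2 e m
        · exact Or.inr ⟨h3, h2⟩
        · exact Or.inl ⟨h1, h3⟩)
    have h3 := Y.null2 hL he m
    have h4 : ∑ j ∈ Finset.range l, Y.P.mu (A (a + j) m ∪ {x | sh e x ∈ A (a + j) m}) ≤
        ∑ j ∈ Finset.range l, 2 * p (a + j) m * Y.nm m := by
      refine Finset.sum_le_sum fun j _ => ?_
      have := Y.P.mu_le_add (Y.sub_I _ (hA (a + j) m)) (Y.sub_I _ (hB (a + j))) subset_rfl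
      rw [Y.mu_sh_top he (hA _ _)] at this
      rw [mul_assoc, div_mul_cancel₀ _ (Y.nm_pos m).ne']
      linarith
    unfold bad
    rw [div_le_iff₀ (Y.nm_pos m), Finset.sum_mul]
    linarith
  have hb := bb_bs (f := fun z => Y.bad e Lb (z.1 + i) l (z.1 + z.2 + k)) 1
    fun z => Y.bad_abs _ _ _ _ _
  have hp : ∀ j ∈ Finset.range l, BS BB.I (fun z : ℕ × ℕ => 2 * p (z.1 + (i + j)) (z.1 + z.2 + k)) :=
    fun j _ => BB.bs_smul 2 (bb_bs CP fun z => pb _ _)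
  apply le_antisymm
  · refine (BB.J_mono hb (BB.bs_sum _ hp) fun z => ?_).trans ?_
    · simpa only [add_assoc] using key (z.1 + i) (z.1 + z.2 + k)
    · rw [BB.J_sum _ hp]
      refine Finset.sum_nonpos fun j _ => ?_
      rw [BB.smul _ _ (bb_bs CP fun z => pb _ _), bb_vanish p p0 CP p1, mul_zero]
  · exact BB.nonneg _ hb fun z => Y.bad_nonneg _ _ _ _ _

theorem da_fin {e : G} (he : e ∈ X.L) (Lb : ℕ) : ∃ (K : ℕ) (D1 : Set (G ⧸ X.N)) (Dt : Set G),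
    D1.Finite ∧ Dt.Finite ∧ (∀ a m, a ≤ m → ∀ x ∈ Y.T2 e m, X.cl (Y.da e a x) ∈ D1) ∧
      ∀ a m, a ≤ m → ∀ x ∈ Y.Nice e Lb a K m, Y.da e a x ∈ Dt := by
  obtain ⟨K, D1, Dt, h1, h2, h⟩ := d_fin X U Y.F1 Y.hF1 he Lb
  have key : ∀ a m, a ≤ m → ∀ x ∈ Y.T2 e m, _ := fun a m ha x hx =>
    h _ _ _ _ _ _ _ _ (Y.dec hL hx.1.1 a) (Y.dec hL hx.2.1 a)
      (by rw [List.length_take, List.length_take, Y.es_len hL hx.1.1, Y.es_len hL hx.2.1])
      (by rw [Ne, List.drop_eq_nil_iff, Y.es_len hL hx.1.1]; omega)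
      (by rw [Ne, List.drop_eq_nil_iff, Y.es_len hL hx.2.1]; omega)
      (fun w hw => hx.1.2 w (List.mem_of_mem_drop hw))
      (fun w hw => hx.2.2 w (List.mem_of_mem_drop hw))
  exact ⟨K, D1, Dt, h1, h2, fun a m ha x hx => (key a m ha x hx).1,
    fun a m ha x hx => (key a m ha x hx.1).2 hx.2.1 hx.2.2⟩

theorem da_h {e : G} (he : e ∈ X.L) {a m : ℕ} (ha : a ≤ m) {x : ℕ × G}
    (hx : x ∈ X.Top Y.y (m + 1)) : X.h (Y.da e a x) = 0 := by
  have hx' := (Y.top_sh he).2 hx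
  exact X.h_L _ (X.B_le _ (d_B he (Y.dec hL hx a) (Y.dec hL hx' a)
    (by rw [List.length_take, List.length_take, Y.es_len hL hx, Y.es_len hL hx'])
    (by rw [Ne, List.drop_eq_nil_iff, Y.es_len hL hx]; omega)
    (by rw [Ne, List.drop_eq_nil_iff, Y.es_len hL hx']; omega)))

theorem tele (E : Eig X) {C : ℝ} {a n m : ℕ} (hm : m = a + n)
    (hC : ∀ x ∈ Y.T2 E.e m, ‖E.φ (X.b (Y.da E.e a x))‖ ≤ C) :
    Y.P.Jc (fun x => E.φ (X.b (Y.da E.e a x)) * (ind (Y.T2 E.e m) x : ℝ)) =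
      E.ω ^ (n + 1) * E.φ (X.b E.e) * Y.nm m := by
  obtain ⟨C2, -, hC2⟩ := E.bound _ (fin_pow Y.hF1 (n + 1))
  let f : ℕ × G → ℂ := fun x => E.φ (X.b (U.ev ((Y.es x).drop a).flatten)) * (ind (Y.T1 m) x : ℝ)
  have hlen : ∀ x ∈ X.Top Y.y (m + 1), ((Y.es x).drop a).length = n + 1 := by
    intro x hx
    rw [List.length_drop, Y.es_len hL hx]; omega
  have hf0 : ∀ x ∈ Y.T1 m, ‖E.φ (X.b (U.ev ((Y.es x).drop a).flatten))‖ ≤ C2 := by
    intro x hx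
    apply hC2
    rw [← hlen x hx.1]
    exact flat_cl _ fun w hw => hx.2 w (List.mem_of_mem_drop hw)
  have hf : BC Y.P.I f := Y.P.bc_of' (Y.sub_I (m + 1) fun x hx => hx.1) C2 hf0
  have hf' : BC Y.P.I (fun x => f (sh E.e x)) :=
    Y.P.bc_of' (A := {x | sh E.e x ∈ Y.T1 m})
      (f := fun x => E.φ (X.b (U.ev ((Y.es (sh E.e x)).drop a).flatten)))
      (Y.sub_I (m + 1) fun x hx => (Y.top_sh E.he).1 hx.1) C2 fun x hx => hf0 _ hx
  have hc := Y.P.bc_smul (E.ω ^ (n + 1) * E.φ (X.b E.e)) (Y.P.bc_real (Y.P.bs_ind (Y.hI (m + 1))))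
  rw [Y.P.Jc_null (Y.P.bc_of' (Y.sub_I (m + 1) fun x hx => hx.1.1) C hC)
    (Y.P.bc_add (Y.P.bc_sub hf hf') hc) (Y.sub_I _ Set.sdiff_subset) (Y.null2 hL E.he m),
    Y.P.Jc_add (Y.P.bc_sub hf hf') hc, Y.P.Jc_sub hf hf', Y.P.Jc_inv _ hf hf', sub_self, zero_add,
    Y.P.Jc_ind _ (Y.hI _)]
  · rfl
  intro x hx
  by_cases h1 : x ∈ X.Top Y.y (m + 1)
  · have h2 : x ∈ Y.T2 E.e m := by
      by_contra h2
      exact hx ⟨h1, h2⟩
    have d1 := Y.dec hL h1 a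
    have d2 := Y.dec hL h2.2.1 a
    have e1 : Y.da E.e a x * U.ev ((Y.es (sh E.e x)).drop a).flatten =
        U.ev ((Y.es x).drop a).flatten * E.e := by
      have k1 : x.2 = U.ev (Y.pf a x) * U.ev ((Y.es x).drop a).flatten := d1.ev2
      have k2 : x.2 * E.e = U.ev (Y.pf a (sh E.e x)) * U.ev ((Y.es (sh E.e x)).drop a).flatten :=
        d2.ev2
      unfold da
      rw [mul_assoc, ← k2]
      conv_lhs => rw [k1]
      group
    have e2 := congrArg (fun g => E.φ (X.b g)) e1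
    rw [X.b_mul0 (Y.da_h hL E.he (by omega) h1), X.b_mul, map_add, map_add,
      flat_h (fun v hv => d1.2.2 v (List.mem_append_right _ hv)), hlen x h1, zpow_natCast,
      E.eig_pow] at e2
    simp only [f, ind_mem h1, ind_mem h2, ind_mem h2.1, ind_mem h2.2, Complex.ofReal_one, mul_one]
    linear_combination e2
  · have h2 : x ∉ Y.T2 E.e m := fun h => h1 h.1.1
    have h3 : x ∉ Y.T1 m := fun h => h1 h.1
    have h4 : sh E.e x ∉ Y.T1 m := fun h => h1 ((Y.top_sh E.he).1 h.1)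
    simp only [f, ind_nmem h1, ind_nmem h2, ind_nmem h3, ind_nmem h4, Complex.ofReal_zero, mul_zero,
      sub_zero, add_zero]

include Y in
theorem case_big (E : Eig X) (h : 1 < ‖E.ω‖) : False := by
  obtain ⟨K, D1, Dt, h1, -, h3, -⟩ := Y.da_fin hL E.he 0
  obtain ⟨C, hC0, hC⟩ := E.bound D1 h1
  have hp : 0 < ‖E.φ (X.b E.e)‖ := norm_pos_iff.2 E.ne
  obtain ⟨n, hn⟩ := pow_unbounded_of_one_lt (C / ‖E.φ (X.b E.e)‖) h
  have k1 := Y.tele hL E (a := 0) (n := n) (m := n) (zero_add n).symm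
    (fun x hx => hC _ (h3 0 n (Nat.zero_le _) x hx))
  have k2 := Y.P.Jc_le_mu (f := fun x => E.φ (X.b (Y.da E.e 0 x)) * (ind (Y.T2 E.e n) x : ℝ))
    (Y.hI (n + 1)) C fun x => by
      by_cases hx : x ∈ Y.T2 E.e n
      · rw [ind_mem hx, ind_mem hx.1.1]
        simpa using hC _ (h3 0 n (Nat.zero_le _) x hx)
      · rw [ind_nmem hx]
        simp only [Complex.ofReal_zero, mul_zero, norm_zero]
        exact mul_nonneg (by assumption) (ind_nonneg _ _)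
  rw [k1, norm_mul, norm_mul, norm_pow, Complex.norm_real, Real.norm_of_nonneg (Y.nm_pos n).le] at k2
  have k3 := le_of_mul_le_mul_right k2 (Y.nm_pos n)
  rw [div_lt_iff₀ hp] at hn
  have k4 : ‖E.ω‖ ^ n ≤ ‖E.ω‖ ^ (n + 1) := pow_le_pow_right₀ h.le (Nat.le_succ _)
  nlinarith

include Y in
theorem case_root (E : Eig X) (hr : ∃ n : ℕ, 0 < n ∧ E.ω ^ n = 1) : False := by
  obtain ⟨lam, M', hM, hω, hlam⟩ := E.root hr
  have hω1 : ‖E.ω‖ = 1 := by
    have := congrArg norm hω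
    rw [norm_pow, norm_one] at this
    exact (pow_eq_one_iff_of_nonneg (norm_nonneg _) hM.ne').1 this
  obtain ⟨Lb, hLb⟩ := Y.exists_Lb hL E.he
  obtain ⟨K, D1, Dt, h1, h2, h3, h4⟩ := Y.da_fin hL E.he Lb
  obtain ⟨C, hC0, hC⟩ := E.bound D1 h1
  obtain ⟨Ct, hCt⟩ := (h2.image (fun d => ‖lam (X.b d)‖)).bddAbove
  have hp : 0 < ‖E.φ (X.b E.e)‖ := norm_pos_iff.2 E.ne
  obtain ⟨r, hr⟩ := exists_nat_gt (2 * |Ct| / ‖E.φ (X.b E.e)‖)
  rw [div_lt_iff₀ hp] at hr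
  have hl : ∀ (k : ℕ) v, lam ((X.A ^ (k * M')) v) = lam v + k * E.φ v := by
    intro k
    induction k with
    | zero => intro v; simp
    | succ k ih =>
      intro v
      rw [Nat.succ_mul, pow_add]
      show lam ((X.A ^ (k * M')) ((X.A ^ M') v)) = _
      rw [ih, hlam, E.eig_pow, hω]; push_cast; ring
  obtain ⟨R, hR⟩ : ∃ R, R = r * M' := ⟨_, rfl⟩
  obtain ⟨CR, hCR⟩ := ((U.finite_le (R * Lb)).image (fun w => ‖lam (X.b (U.ev w))‖)).bddAbove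
  refine absurd hr (not_lt.2 (bb_le (bb_bs 1 fun z => Y.bad_abs _ _ _ _ _) (hLb 0 (R + K) R)
    (C := 2 * |CR| + r * C) fun z => ?_))
  obtain ⟨a, n⟩ := z
  obtain ⟨m, hm⟩ : ∃ m, m = a + n + R := ⟨_, rfl⟩
  show _ ≤ _ + _ * Y.bad E.e Lb (a + 0) (R + K) (a + n + R)
  rw [← hm, add_zero]
  let Sw : Set (ℕ × G) :=
    {x | x ∈ X.Top Y.y (m + 1) ∧ ∀ w ∈ ((Y.es x).drop a).take R, w.length ≤ Lb}
  let f : ℕ × G → ℂ := fun x =>
    lam (X.b (U.ev (((Y.es x).drop a).take R).flatten)) * (ind Sw x : ℝ)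
  have hf0 : ∀ x ∈ Sw, ‖lam (X.b (U.ev (((Y.es x).drop a).take R).flatten))‖ ≤ |CR| := by
    intro x hx
    refine le_trans (hCR ⟨_, ?_, rfl⟩) (le_abs_self _)
    exact (flat_len Lb _ hx.2).trans (Nat.mul_le_mul_right _ (List.length_take_le _ _))
  have hf1 : ∀ x, ‖f x‖ ≤ |CR| := by
    intro x
    by_cases hx : x ∈ Sw
    · simpa [f, ind_mem hx] using hf0 x hx
    · simp [f, ind_nmem hx]
  have hf : BC Y.P.I f := Y.P.bc_of' (Y.sub_I (m + 1) fun x hx => hx.1) _ hf0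
  have hf' : BC Y.P.I (fun x => f (sh E.e x)) :=
    Y.P.bc_of' (A := {x | sh E.e x ∈ Sw})
      (f := fun x => lam (X.b (U.ev (((Y.es (sh E.e x)).drop a).take R).flatten)))
      (Y.sub_I (m + 1) fun x hx => (Y.top_sh E.he).1 hx.1) _ fun x hx => hf0 _ hx
  have hCd : ∀ x ∈ Y.T2 E.e m, ‖E.φ (X.b (Y.da E.e (a + R) x))‖ ≤ C := fun x hx =>
    hC _ (h3 (a + R) m (by omega) x hx)
  have hg := Y.P.bc_of' (Y.sub_I (m + 1) fun x (hx : x ∈ Y.T2 E.e m) => hx.1.1) C hCd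
  have k1 := Y.tele hL E (a := a + R) (n := n) (m := m) (by omega) hCd
  have hI1 := Y.P.bs_ind (Y.hI (m + 1))
  have hI2 := Y.P.bs_ind (Y.sub_I (A := X.Top Y.y (m + 1) \ Y.Nice E.e Lb a (R + K) m) _
    Set.sdiff_subset)
  have k2 := Y.P.Jc_norm_le (Y.P.bc_add (Y.P.bc_sub hf hf') (Y.P.bc_smul r hg))
    (Y.P.bs_add (Y.P.bs_smul (2 * |Ct|) hI1) (Y.P.bs_smul (2 * |CR| + r * C) hI2)) (by
      intro x
      by_cases h5 : x ∈ X.Top Y.y (m + 1)
      swap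
      · have a2 : x ∉ Y.T2 E.e m := fun h => h5 h.1.1
        have a3 : x ∉ Sw := fun h => h5 h.1
        have a4 : sh E.e x ∉ Sw := fun h => h5 ((Y.top_sh E.he).1 h.1)
        have a5 : x ∉ X.Top Y.y (m + 1) \ Y.Nice E.e Lb a (R + K) m := fun h => h5 h.1
        simp [f, ind_nmem h5, ind_nmem a2, ind_nmem a3, ind_nmem a4, ind_nmem a5]
      by_cases h6 : x ∈ Y.Nice E.e Lb a (R + K) m
      · have a5 : x ∉ X.Top Y.y (m + 1) \ Y.Nice E.e Lb a (R + K) m := fun h => h.2 h6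
        have a3 : x ∈ Sw := ⟨h5, fun w hw => h6.2.1 w (win_sub le_rfl (by omega) hw)⟩
        have a4 : sh E.e x ∈ Sw := ⟨h6.1.2.1, fun w hw => h6.2.2 w (win_sub le_rfl (by omega) hw)⟩
        have b1 := h4 a m (by omega) x ⟨h6.1, fun w hw => h6.2.1 w (win_sub le_rfl (by omega) hw),
          fun w hw => h6.2.2 w (win_sub le_rfl (by omega) hw)⟩
        have b2 := h4 (a + R) m (by omega) x
          ⟨h6.1, fun w hw => h6.2.1 w (win_sub (by omega) (by omega) hw),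
          fun w hw => h6.2.2 w (win_sub (by omega) (by omega) hw)⟩
        have e1 : Y.da E.e a x * U.ev (((Y.es (sh E.e x)).drop a).take R).flatten =
            U.ev (((Y.es x).drop a).take R).flatten * Y.da E.e (a + R) x := by
          simp only [da, pf, List.take_add, List.flatten_append, U.ev_append]
          group
        have e2 := congrArg (fun g => lam (X.b g)) e1
        have e3 : X.h (U.ev (((Y.es x).drop a).take R).flatten) = ((r * M' : ℕ) : ℤ) := by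
          rw [flat_h fun v hv => (Y.dec hL h5 a).2.2 v
            (List.mem_append_right _ (List.mem_of_mem_take hv)), List.length_take,
            List.length_drop, Y.es_len hL h5, ← hR]
          congr 1
          omega
        rw [X.b_mul0 (Y.da_h hL E.he (by omega) h5), X.b_mul, map_add, map_add, e3, zpow_natCast,
          hl] at e2
        simp only [f, ind_mem h5, ind_mem a3, ind_mem a4, ind_mem h6.1, ind_nmem a5,
          Complex.ofReal_one, mul_one, mul_zero, add_zero]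
        rw [show lam (X.b (U.ev (((Y.es x).drop a).take R).flatten)) -
          lam (X.b (U.ev (((Y.es (sh E.e x)).drop a).take R).flatten)) +
          r * E.φ (X.b (Y.da E.e (a + R) x)) =
          lam (X.b (Y.da E.e a x)) - lam (X.b (Y.da E.e (a + R) x)) by linear_combination -e2]
        refine (norm_sub_le _ _).trans ?_
        have c1 : ‖lam (X.b (Y.da E.e a x))‖ ≤ Ct := hCt ⟨_, b1, rfl⟩
        have c2 : ‖lam (X.b (Y.da E.e (a + R) x))‖ ≤ Ct := hCt ⟨_, b2, rfl⟩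
        linarith [le_abs_self Ct]
      · rw [ind_mem h5, ind_mem (show x ∈ X.Top Y.y (m + 1) \ Y.Nice E.e Lb a (R + K) m
          from ⟨h5, h6⟩)]
        refine (norm_add_le _ _).trans ?_
        have c1 := (norm_sub_le (f x) (f (sh E.e x))).trans (add_le_add (hf1 _) (hf1 _))
        have c2 : ‖(r : ℂ) * (E.φ (X.b (Y.da E.e (a + R) x)) * (ind (Y.T2 E.e m) x : ℝ))‖ ≤ r * C := by
          rw [norm_mul, Complex.norm_natCast]
          refine mul_le_mul_of_nonneg_left ?_ (Nat.cast_nonneg _)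
          by_cases h7 : x ∈ Y.T2 E.e m
          · simpa [ind_mem h7] using hCd x h7
          · simpa [ind_nmem h7] using hC0
        linarith [abs_nonneg Ct])
  rw [Y.P.Jc_add (Y.P.bc_sub hf hf') (Y.P.bc_smul r hg), Y.P.Jc_sub hf hf', Y.P.Jc_inv _ hf hf',
    sub_self, zero_add, Y.P.Jc_smul _ hg, k1,
    Y.P.add _ _ (Y.P.bs_smul _ hI1) (Y.P.bs_smul _ hI2), Y.P.smul _ _ hI1, Y.P.smul _ _ hI2,
    norm_mul, norm_mul, norm_mul, norm_pow, hω1, one_pow, one_mul, Complex.norm_natCast,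
    Complex.norm_real, Real.norm_of_nonneg (Y.nm_pos m).le] at k2
  have k3 : Y.P.J (ind (X.Top Y.y (m + 1) \ Y.Nice E.e Lb a (R + K) m)) =
      Y.bad E.e Lb a (R + K) m * Y.nm m := (div_mul_cancel₀ _ (Y.nm_pos m).ne').symm
  have k4 : Y.P.J (ind (X.Top Y.y (m + 1))) = Y.nm m := rfl
  rw [k3, k4] at k2
  refine le_of_mul_le_mul_right ?_ (Y.nm_pos m)
  linarith

end Sys

end

end Pool.Agent.H870Z.LM
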