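import Mathlib
import Pool.Agent.H870Z.LM.Fin1

set_option autoImplicit false

open scoped Classical Pointwise

namespace Pool.Agent.H870Z.LM

open Pool.Agent.Helper943.LM

noncomputable section

variable {G V : Type} [Group G] [NormedAddCommGroup V] [NormedSpace ℂ V]
variable {X : HS G V} {U : UA G}

namespace Sys

variable (Y : Sys X U)

/-- points with prescribed pair state at level `a` followed by a prescribed pair path -/
def Z (e : G) (σ : U.S × U.S × G) (π : List (List U.A × List U.A)) (a n : ℕ) : Set (ℕ × G) :=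
  {x | ∃ p A c p' A' c', Dec X.toPre U (Y.y x.1) x.2 p (A ++ π.map Prod.fst ++ c) ∧
    Dec X.toPre U (Y.y x.1) (x.2 * e) p' (A' ++ π.map Prod.snd ++ c') ∧ A.length = a ∧
    A'.length = a ∧ c.length = n + 1 ∧ c'.length = n + 1 ∧ U.run U.s0 (p ++ A.flatten) = σ.1 ∧
    U.run U.s0 (p' ++ A'.flatten) = σ.2.1 ∧
    (U.ev (p ++ A.flatten))⁻¹ * U.ev (p' ++ A'.flatten) = σ.2.2 ∧ ∀ w ∈ c, Gd X U Y.F1 w}

/-- the end class of a pair path -/
def cls (X : HS G V) (U : UA G) (σ : U.S × U.S × G) (π : List (List U.A × List U.A)) :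
    U.S × U.S × G × ℕ :=
  (U.run σ.1 (π.map Prod.fst).flatten, U.run σ.2.1 (π.map Prod.snd).flatten,
    (U.ev (π.map Prod.fst).flatten)⁻¹ * σ.2.2 * U.ev (π.map Prod.snd).flatten, π.length % X.M)

theorem Z_top {e : G} {σ : U.S × U.S × G} {π : List (List U.A × List U.A)} {a n : ℕ} :
    Y.Z e σ π a n ⊆ X.Top Y.y (a + n + π.length + 1) := by
  rintro x ⟨p, A, c, -, -, -, h1, -, h2, -, h3, -⟩
  have := h1.top
  rw [show (A ++ π.map Prod.fst ++ c).length = a + n + π.length + 1 by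
    simp only [List.length_append, List.length_map, h2, h3]; omega] at this
  exact this

theorem Z_le {e : G} {σ : U.S × U.S × G} {π π' : List (List U.A × List U.A)}
    (h1 : ∀ v ∈ π.map Prod.fst, Seg X.toPre U v) (h1' : ∀ v ∈ π'.map Prod.fst, Seg X.toPre U v)
    (h2' : ∀ v ∈ π'.map Prod.snd, Seg X.toPre U v) (hc : cls X U σ π = cls X U σ π') (a n : ℕ) :
    Y.P.mu (Y.Z e σ π a n) ≤ Y.P.mu (Y.Z e σ π' a n) := by
  simp only [cls, Prod.mk.injEq] at hc
  obtain ⟨c1, c2, c3, c4⟩ := hc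
  let z := (U.ev (π.map Prod.fst).flatten)⁻¹ * U.ev (π'.map Prod.fst).flatten
  have hz : (X.M : ℤ) ∣ X.h z := by
    show (X.M : ℤ) ∣ X.h (_ * _)
    rw [X.h_mul, X.h_inv, flat_h h1, flat_h h1', List.length_map, List.length_map, add_comm,
      ← sub_eq_add_neg]
    exact Nat.modEq_iff_dvd.1 c4
  refine Y.P.mu_inj (Y.sub_I _ Y.Z_top) (Y.sub_I _ Y.Z_top) _
    (X.conj_fin _ (fin_pow Y.hF1 (n + 1)) z hz) (fun x x2 => ∃ p A c,
      Dec X.toPre U (Y.y x2.1) x2.2 p (A ++ π'.map Prod.fst ++ c) ∧ A.length = a ∧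
        c.length = n + 1 ∧ x2 = sh ((U.ev c.flatten)⁻¹ * z * U.ev c.flatten) x) ?_ ?_
  · rintro x ⟨p, A, c, p', A', c', d1, d2, l1, l2, l3, l4, r1, r2, r3, hg⟩
    have k1 := d1.replace _ h1' (by rw [r1, c1])
    have k2 := d2.replace _ h2' (by rw [r2, c2])
    have e0 : x.2 = U.ev (p ++ A.flatten) * U.ev (π.map Prod.fst).flatten * U.ev c.flatten := by
      rw [d1.ev]; simp only [List.flatten_append, U.ev_append, mul_assoc]
    have e0' : x.2 * e =
        U.ev (p' ++ A'.flatten) * U.ev (π.map Prod.snd).flatten * U.ev c'.flatten := by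
      rw [d2.ev]; simp only [List.flatten_append, U.ev_append, mul_assoc]
    have e1 : U.ev (p ++ A.flatten) * U.ev (π'.map Prod.fst).flatten * U.ev c.flatten =
        x.2 * ((U.ev c.flatten)⁻¹ * z * U.ev c.flatten) := by
      rw [e0]; simp only [z]; group
    have e2 : U.ev (p' ++ A'.flatten) * U.ev (π'.map Prod.snd).flatten * U.ev c'.flatten =
        x.2 * ((U.ev c.flatten)⁻¹ * z * U.ev c.flatten) * e := by
      rw [← e1]
      rw [e0] at e0'
      rw [← r3] at c3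
      generalize U.ev (p ++ A.flatten) = P at *
      generalize U.ev (p' ++ A'.flatten) = P' at *
      generalize U.ev c.flatten = C at *
      generalize U.ev c'.flatten = C' at *
      generalize U.ev (π.map Prod.fst).flatten = a1 at *
      generalize U.ev (π.map Prod.snd).flatten = a2 at *
      generalize U.ev (π'.map Prod.fst).flatten = b1 at *
      generalize U.ev (π'.map Prod.snd).flatten = b2 at *
      calc P' * b2 * C' = P * b1 * (b1⁻¹ * (P⁻¹ * P') * b2) * C' := by group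
        _ = P * b1 * (a1⁻¹ * (P⁻¹ * P') * a2) * C' := by rw [c3]
        _ = P * b1 * (P * a1)⁻¹ * (P' * a2 * C') := by group
        _ = P * b1 * (P * a1)⁻¹ * (P * a1 * C * e) := by rw [e0']
        _ = P * b1 * C * e := by group
    rw [e1] at k1
    rw [e2] at k2
    exact ⟨_, ⟨_, l3 ▸ flat_cl c hg, rfl⟩, ⟨p, A, c, p', A', c', k1, k2, l1, l2, l3, l4, r1, r2, r3, hg⟩,
      p, A, c, k1, l1, l3, rfl⟩
  · rintro x x' x2 ⟨p, A, c, d1, l1, l2, r1⟩ ⟨p', A', c', d2, l3, l4, r2⟩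
    obtain ⟨-, e⟩ := dec_uniq d1 d2 (by rintro h; simp at h; simp [h.2.2] at l2)
    obtain ⟨-, -, e3⟩ := split_uniq e (l1.trans l3.symm) rfl
    subst e3
    exact sh_inj (r1.symm.trans r2)

theorem Z_es {e : G} {x : ℕ × G} {p : List U.A} {A r c : List (List U.A)} {g : G}
    (h : Dec X.toPre U (Y.y x.1) g p (A ++ r ++ c)) (hc : c ≠ []) (hg : g = (sh e x).2) :
    (Y.es (sh e x)).drop (A.length + r.length) = c ∧
      Y.pf (A.length + r.length) (sh e x) = p ++ A.flatten ++ r.flatten := by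
  have h1 : dd X.toPre U (Y.y (sh e x).1) (sh e x).2 = (p, A ++ r ++ c) := by
    rw [← hg]; exact dd_eq h (by simp [hc])
  unfold pf es
  rw [h1, ← List.length_append]
  exact ⟨List.drop_left, by rw [List.take_left, List.flatten_append, List.append_assoc p]⟩

theorem Z_step {e : G} {σ : U.S × U.S × G} {π : List (List U.A × List U.A)} {a n Lb : ℕ}
    (T : Finset (List U.A × List U.A))
    (hT : ∀ ε, ε ∈ T ↔ ε.1.length ≤ Lb ∧ ε.2.length ≤ Lb ∧ Gd X U Y.F1 ε.1) :
    |Y.P.mu (Y.Z e σ π a (n + 1)) - ∑ ε ∈ T, Y.P.mu (Y.Z e σ (π ++ [ε]) a n)| ≤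
      Y.P.mu (X.Top Y.y (a + n + (π.length + 1) + 1) \
        Y.Nice e Lb (a + π.length) 1 (a + n + (π.length + 1))) := by
  have hsub : ∀ ε ∈ T, Y.Z e σ (π ++ [ε]) a n ⊆ Y.Z e σ π a (n + 1) := by
    rintro ε hε x ⟨p, A, c, p', A', c', d1, d2, l1, l2, l3, l4, r1, r2, r3, hg⟩
    refine ⟨p, A, ε.1 :: c, p', A', ε.2 :: c', by simpa using d1, by simpa using d2, l1, l2,
      by simp [l3], by simp [l4], r1, r2, r3, fun w hw => ?_⟩
    rcases List.mem_cons.1 hw with rfl | hw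
    · exact ((hT ε).1 hε).2.2
    · exact hg w hw
  have hI : Y.P.I (Y.Z e σ π a (n + 1)) := Y.sub_I _ Y.Z_top
  have h1 := Y.P.sum_mu_le_one T (A := fun ε => Y.Z e σ (π ++ [ε]) a n) hI hsub (by
    rintro ε - ε' - x ⟨p, A, c, p', A', c', d1, d2, l1, l2, -⟩ ⟨q, B, c2, q', B', c2', d3, d4, l3, l4, -⟩
    obtain ⟨-, e1⟩ := dec_uniq d1 d3 (by simp)
    obtain ⟨-, e2⟩ := dec_uniq d2 d4 (by simp)
    have k1 := (split_uniq e1 (l1.trans l3.symm) (by simp)).2.1
    have k2 := (split_uniq e2 (l2.trans l4.symm) (by simp)).2.1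
    simp only [List.map_append, List.map_cons, List.map_nil, List.append_cancel_left_eq,
      List.cons.injEq, and_true] at k1 k2
    exact Prod.ext k1 k2)
  have hN : Y.P.I (X.Top Y.y (a + n + (π.length + 1) + 1) \
      Y.Nice e Lb (a + π.length) 1 (a + n + (π.length + 1))) := Y.sub_I _ Set.sdiff_subset
  have h2 := Y.P.mu_le_add (A := ⋃ ε ∈ T, Y.Z e σ (π ++ [ε]) a n) (C := Y.Z e σ π a (n + 1))
    (Y.P.I_biUnion T fun ε _ => Y.sub_I _ Y.Z_top) hN (by
      intro x hx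
      by_cases h3 : x ∈ Y.Nice e Lb (a + π.length) 1 (a + n + (π.length + 1))
      swap
      · refine Or.inr ⟨?_, h3⟩
        have := Y.Z_top hx
        rwa [show a + (n + 1) + π.length + 1 = a + n + (π.length + 1) + 1 by omega] at this
      left
      obtain ⟨p, A, c, p', A', c', d1, d2, l1, l2, l3, l4, r1, r2, r3, hg⟩ := hx
      obtain ⟨w, c, rfl⟩ := List.exists_cons_of_length_eq_add_one l3
      obtain ⟨w', c', rfl⟩ := List.exists_cons_of_length_eq_add_one l4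
      have k1 := (Y.Z_es (e := 1) d1 (by simp) (by simp [sh])).1
      have k2 := (Y.Z_es (e := e) d2 (by simp) rfl).1
      rw [sh_one, l1, List.length_map] at k1
      rw [l2, List.length_map] at k2
      have k3 := h3.2.1 w (by rw [k1]; simp)
      have k4 := h3.2.2 w' (by rw [k2]; simp)
      refine Set.mem_biUnion (x := (w, w')) ((hT _).2 ⟨k3, k4, hg w (by simp)⟩) ?_
      exact ⟨p, A, c, p', A', c', by simpa using d1, by simpa using d2, l1, l2,
        by simpa using l3, by simpa using l4, r1, r2, r3, fun v hv => hg v (by simp [hv])⟩)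
  have h3 := Y.P.mu_le_sum T (A := fun ε => Y.Z e σ (π ++ [ε]) a n)
    (B := ⋃ ε ∈ T, Y.Z e σ (π ++ [ε]) a n) (fun ε _ => Y.sub_I _ Y.Z_top) (by
      intro x hx
      obtain ⟨ε, h4, h5⟩ := Set.mem_iUnion₂.1 hx
      exact ⟨ε, h4, h5⟩)
  rw [abs_of_nonneg (sub_nonneg.2 h1)]
  linarith

theorem Z_da {e : G} {σ : U.S × U.S × G} {π : List (List U.A × List U.A)} {a n : ℕ} {x : ℕ × G}
    (hx : x ∈ Y.Z e σ π a n) : Y.da e (a + π.length) x = (cls X U σ π).2.2.1 ∧
      U.run U.s0 (Y.pf (a + π.length) x) = (cls X U σ π).1 ∧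
      U.run U.s0 (Y.pf (a + π.length) (sh e x)) = (cls X U σ π).2.1 := by
  obtain ⟨p, A, c, p', A', c', d1, d2, l1, l2, l3, l4, r1, r2, r3, -⟩ := hx
  have k1 := (Y.Z_es (e := 1) d1 (by rintro rfl; simp at l3) (by simp [sh])).2
  have k2 := (Y.Z_es (e := e) d2 (by rintro rfl; simp at l4) rfl).2
  rw [sh_one, l1, List.length_map] at k1
  rw [l2, List.length_map] at k2
  unfold da cls
  rw [k1, k2, U.run_append _ (p ++ _), U.run_append _ (p' ++ _), r1, r2, U.ev_append (p ++ _),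
    U.ev_append (p' ++ _), ← r3]
  refine ⟨by group, rfl, rfl⟩

variable (hL : ∀ a, X.Let (U.mu a))
include hL

include Y in
theorem case_rot (E : Eig X) (hω : ‖E.ω‖ = 1) (hr : ∀ n : ℕ, 0 < n → E.ω ^ n ≠ 1) : False := by
  have := U.finS
  obtain ⟨δ, hδ, hnm⟩ := Y.exists_del
  obtain ⟨Lb, hLb⟩ := Y.exists_Lb hL E.he
  obtain ⟨K, D1, Dt, h1, h2, h3, h4⟩ := Y.da_fin hL E.he Lb
  obtain ⟨C, hC0, hC⟩ := E.bound D1 h1
  have hTf : {ε : List U.A × List U.A | ε.1.length ≤ Lb ∧ ε.2.length ≤ Lb ∧ Gd X U Y.F1 ε.1}.Finite :=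
    ((U.finite_le Lb).prod (U.finite_le Lb)).subset fun ε hε => ⟨hε.1, hε.2.1⟩
  have hT : ∀ ε, ε ∈ hTf.toFinset ↔ ε.1.length ≤ Lb ∧ ε.2.length ≤ Lb ∧ Gd X U Y.F1 ε.1 :=
    fun ε => hTf.mem_toFinset
  generalize hTf.toFinset = T at hT
  have hω0 : E.ω ≠ 0 := by rintro h; simp [h] at hω
  have hωn : ∀ n : ℕ, ‖E.ω⁻¹ ^ n‖ = 1 := fun n => by rw [norm_pow, norm_inv, hω]; simp
  let zz : U.S × U.S × G → List (List U.A × List U.A) → ℕ × ℕ → ℝ := fun σ π z =>
    Y.P.mu (Y.Z E.e σ π z.1 z.2) / Y.nm (z.1 + z.2)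
  have z0 : ∀ σ π z, 0 ≤ zz σ π z := fun σ π z =>
    div_nonneg (Y.P.mu_nonneg (Y.sub_I _ Y.Z_top)) (Y.nm_pos _).le
  have z1 : ∀ σ π z, |zz σ π z| ≤ δ ^ π.length := by
    intro σ π z
    rw [abs_of_nonneg (z0 σ π z), div_le_iff₀ (Y.nm_pos _), ← hnm]
    exact Y.P.mu_mono Y.Z_top (Y.hI _)
  have zb : ∀ σ π, BS BB.I (zz σ π) := fun σ π => bb_bs _ (z1 σ π)
  have zc : ∀ σ π, BC BB.I (fun z => E.ω⁻¹ ^ z.2 * (zz σ π z : ℝ)) := fun σ π =>
    BB.bc_mul ⟨1, fun z => (hωn _).le⟩ (BB.bc_real (zb σ π))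
  have hbad : ∀ i l k, BS BB.I (fun z => Y.bad E.e Lb (z.1 + i) l (z.1 + z.2 + k)) := fun i l k =>
    bb_bs 1 fun z => Y.bad_abs _ _ _ _ _
  have hzero : ∀ (f : ℕ × ℕ → ℂ) (c : ℝ) i l k, BC BB.I f →
      (∀ z, ‖f z‖ ≤ c * Y.bad E.e Lb (z.1 + i) l (z.1 + z.2 + k)) → BB.Jc f = 0 := by
    intro f c i l k hf h
    have := BB.Jc_norm_le hf (BB.bs_smul c (hbad i l k)) h
    rw [BB.smul _ _ (hbad i l k), hLb, mul_zero] at this
    exact norm_le_zero_iff.1 this
  have hstep : ∀ σ π (θ : ℕ → ℂ), (∀ n, ‖θ n‖ = 1) →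
      δ * BB.Jc (fun z => θ z.2 * (zz σ π z : ℝ)) =
        ∑ ε ∈ T, BB.Jc (fun z => θ (z.2 + 1) * (zz σ (π ++ [ε]) z : ℝ)) := by
    intro σ π θ hθ
    have b1 : BC BB.I (fun z => θ z.2 * (zz σ π z : ℝ)) :=
      BB.bc_mul ⟨1, fun z => (hθ _).le⟩ (BB.bc_real (zb σ π))
    have b2 : BC BB.I (fun z => θ (z.2 + 1) * (zz σ π (z.1, z.2 + 1) : ℝ)) :=
      BB.bc_mul ⟨1, fun z => (hθ _).le⟩ (BB.bc_real (bb_bs _ fun z => z1 σ π _))
    have b3 : ∀ ε ∈ T, BC BB.I (fun z => θ (z.2 + 1) * (zz σ (π ++ [ε]) z : ℝ)) := fun ε _ =>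
      BB.bc_mul ⟨1, fun z => (hθ _).le⟩ (BB.bc_real (zb σ _))
    rw [← bb_succc b1, ← BB.Jc_sum T b3, ← BB.Jc_smul _ b2, ← sub_eq_zero,
      ← BB.Jc_sub (BB.bc_smul _ b2) (BB.bc_sum T b3)]
    refine hzero _ (δ ^ (π.length + 1)) π.length 1 (π.length + 1)
      (BB.bc_sub (BB.bc_smul _ b2) (BB.bc_sum T b3)) fun z => ?_
    have k1 := Y.Z_step (e := E.e) (σ := σ) (π := π) (a := z.1) (n := z.2) T hT
    have k2 : (δ : ℂ) * (θ (z.2 + 1) * (zz σ π (z.1, z.2 + 1) : ℝ)) -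
        ∑ ε ∈ T, θ (z.2 + 1) * (zz σ (π ++ [ε]) z : ℝ) = θ (z.2 + 1) *
          (((Y.P.mu (Y.Z E.e σ π z.1 (z.2 + 1)) - ∑ ε ∈ T, Y.P.mu (Y.Z E.e σ (π ++ [ε]) z.1 z.2)) /
            Y.nm (z.1 + z.2) : ℝ) : ℂ) := by
      rw [← Finset.mul_sum, mul_left_comm, ← mul_sub]
      congr 1
      have k3 := hnm (z.1 + z.2) 1
      have k4 := (Y.nm_pos (z.1 + z.2)).ne'
      simp only [zz, ← add_assoc, k3]
      rw [sub_div, Finset.sum_div]
      push_cast
      congr 1
      have : (δ : ℂ) ≠ 0 := by exact_mod_cast hδ.ne'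
      field_simp
    rw [k2, norm_mul, hθ, one_mul, Complex.norm_real, Real.norm_eq_abs, abs_div,
      abs_of_pos (Y.nm_pos _), div_le_iff₀ (Y.nm_pos _)]
    refine k1.trans (le_of_eq ?_)
    unfold bad
    rw [hnm]
    have k4 := (Y.nm_pos (z.1 + z.2)).ne'
    field_simp
  have hla : ∀ σ, BB.Jc (fun z => E.ω⁻¹ ^ z.2 * (zz σ [] z : ℝ)) = 0 := by
    intro σ
    refine la_tree (fun π => T.image (fun ε => π ++ [ε])) (fun π => BB.J (zz σ π))
      (fun π => BB.Jc (fun z => E.ω⁻¹ ^ z.2 * (zz σ π z : ℝ))) δ hδ E.ω hω hr ?_ ?_ ?_ (cls X U σ)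
      (Set.univ ×ˢ (Set.univ ×ˢ (Dt ×ˢ Set.Iio X.M)))
      (Set.finite_univ.prod (Set.finite_univ.prod (h2.prod (Set.finite_Iio _)))) ?_ ?_ []
    · intro π
      refine BB.Jc_norm_le (zc σ π) (zb σ π) fun z => ?_
      rw [norm_mul, hωn, one_mul, Complex.norm_real, Real.norm_of_nonneg (z0 _ _ _)]
    · intro π
      rw [Finset.sum_image (by intro a _ b _ h; simpa using h)]
      have := hstep σ π (fun _ => 1) (by simp)
      simp only [one_mul, PF.Jc_real] at this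
      exact_mod_cast this
    · intro π
      rw [Finset.sum_image (by intro a _ b _ h; simpa using h)]
      have := hstep σ π (fun n => E.ω * E.ω⁻¹ ^ n) (fun n => by rw [norm_mul, hω, hωn, one_mul])
      simp only [pow_succ', mul_inv_cancel_left₀ hω0] at this
      rw [← this, mul_assoc, ← BB.Jc_smul _ (zc σ π)]
      simp only [mul_assoc]
    · intro π hπ
      refine ⟨trivial, trivial, ?_, Nat.mod_lt _ X.M_pos⟩
      by_contra hn
      refine absurd hπ (not_lt.2 ?_)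
      have := hzero (fun z => (zz σ π z : ℝ)) (δ ^ π.length) π.length K π.length
        (BB.bc_real (zb σ π)) fun z => by
          rw [Complex.norm_real, Real.norm_of_nonneg (z0 _ _ _), div_le_iff₀ (Y.nm_pos _)]
          refine (Y.P.mu_mono (B := X.Top Y.y (z.1 + z.2 + π.length + 1) \
            Y.Nice E.e Lb (z.1 + π.length) K (z.1 + z.2 + π.length)) (fun x hx => ⟨Y.Z_top hx,
              fun h5 => hn ?_⟩) (Y.sub_I _ Set.sdiff_subset)).trans (le_of_eq ?_)
          · rw [← (Y.Z_da hx).1]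
            exact h4 _ _ (by omega) x h5
          · unfold bad
            rw [hnm]
            have k4 := (Y.nm_pos (z.1 + z.2)).ne'
            field_simp
      rw [PF.Jc_real] at this
      exact le_of_eq (by exact_mod_cast this)
    · intro π π' hπ hπ' hc
      have valid : ∀ π, 0 < BB.J (zz σ π) → (∀ v ∈ π.map Prod.fst, Seg X.toPre U v) ∧
          ∀ v ∈ π.map Prod.snd, Seg X.toPre U v := by
        intro π hπ
        by_contra hn
        have : zz σ π = fun _ => 0 := by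
          funext z
          have : Y.Z E.e σ π z.1 z.2 = ∅ := by
            rw [Set.eq_empty_iff_forall_notMem]
            rintro x ⟨p, A, c, p', A', c', d1, d2, -⟩
            exact hn ⟨fun v hv => d1.2.2 v (by simp only [List.mem_append]; tauto),
              fun v hv => d2.2.2 v (by simp only [List.mem_append]; tauto)⟩
          simp only [zz, this, Y.P.mu_empty, zero_div]
        rw [this, BB.J_zero] at hπ
        exact lt_irrefl _ hπ
      have : zz σ π = zz σ π' := by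
        funext z
        simp only [zz]
        rw [le_antisymm (Y.Z_le (valid π hπ).1 (valid π' hπ').1 (valid π' hπ').2 hc _ _)
          (Y.Z_le (valid π' hπ').1 (valid π hπ).1 (valid π hπ).2 hc.symm _ _)]
      simp only [this, and_self]
  have hSf : ((Set.univ : Set U.S) ×ˢ ((Set.univ : Set U.S) ×ˢ Dt)).Finite :=
    Set.finite_univ.prod (Set.finite_univ.prod h2)
  have hS : ∀ σ, σ ∈ hSf.toFinset ↔ σ.2.2 ∈ Dt := fun σ => by simp
  generalize hSf.toFinset = S at hS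
  have b4 : ∀ σ ∈ S, BC BB.I (fun z => E.φ (X.b σ.2.2) * (E.ω⁻¹ ^ z.2 * (zz σ [] z : ℝ))) :=
    fun σ _ => BB.bc_smul _ (zc σ [])
  have b5 : BC BB.I (fun _ => E.ω * E.φ (X.b E.e)) := bb_bc _ fun _ => le_rfl
  have fin := hzero _ (C + ∑ σ ∈ S, ‖E.φ (X.b σ.2.2)‖) 0 K 0 (BB.bc_sub b5 (BB.bc_sum S b4)) (by
    rintro ⟨a, n⟩
    have hCd : ∀ x ∈ Y.T2 E.e (a + n), ‖E.φ (X.b (Y.da E.e a x))‖ ≤ C := fun x hx =>
      hC _ (h3 a (a + n) (by omega) x hx)
    have hg := Y.P.bc_of' (Y.sub_I (a + n + 1) fun x (hx : x ∈ Y.T2 E.e (a + n)) => hx.1.1) C hCd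
    have k1 := Y.tele hL E (a := a) (n := n) rfl hCd
    have b6 : ∀ σ ∈ S, BC Y.P.I (fun x => E.φ (X.b σ.2.2) * (ind (Y.Z E.e σ [] a n) x : ℝ)) :=
      fun σ _ => Y.P.bc_smul _ (Y.P.bc_real (Y.P.bs_ind (Y.sub_I _ Y.Z_top)))
    have k2 := Y.P.Jc_close hg (Y.P.bc_sum S b6)
      (Y.sub_I (A := X.Top Y.y (a + n + 1) \ Y.Nice E.e Lb a K (a + n)) _ Set.sdiff_subset)
      (C + ∑ σ ∈ S, ‖E.φ (X.b σ.2.2)‖) (by
        intro x _
        refine (norm_sub_le _ _).trans (add_le_add ?_ ((norm_sum_le _ _).trans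
          (Finset.sum_le_sum fun σ _ => ?_)))
        · by_cases h7 : x ∈ Y.T2 E.e (a + n)
          · simpa [ind_mem h7] using hCd x h7
          · simpa [ind_nmem h7] using hC0
        · rw [norm_mul, Complex.norm_real, Real.norm_eq_abs]
          exact mul_le_of_le_one_right (norm_nonneg _) (ind_abs _ _)) (by
        intro x hx
        by_cases h5 : x ∈ X.Top Y.y (a + n + 1)
        · have h6 : x ∈ Y.Nice E.e Lb a K (a + n) := by
            by_contra h6
            exact hx ⟨h5, h6⟩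
          rw [Finset.sum_eq_single_of_mem (U.run U.s0 (Y.pf a x), U.run U.s0 (Y.pf a (sh E.e x)),
            Y.da E.e a x) ((hS _).2 (h4 _ _ (by omega) x h6)), ind_mem h6.1, ind_mem]
          · refine ⟨_, _, (Y.es x).drop a, _, _, (Y.es (sh E.e x)).drop a,
              by rw [List.map_nil, List.append_nil]; exact Y.dec hL h5 a,
              by rw [List.map_nil, List.append_nil]; exact Y.dec hL h6.1.2.1 a,
              ?_, ?_, ?_, ?_, rfl, rfl, rfl,
              fun w hw => h6.1.1.2 w (List.mem_of_mem_drop hw)⟩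
            · rw [List.length_take, Y.es_len hL h5]; omega
            · rw [List.length_take, Y.es_len hL h6.1.2.1]; omega
            · rw [List.length_drop, Y.es_len hL h5]; omega
            · rw [List.length_drop, Y.es_len hL h6.1.2.1]; omega
          · intro σ _ hne
            rw [ind_nmem, Complex.ofReal_zero, mul_zero]
            intro h7
            obtain ⟨k3, k4, k5⟩ := Y.Z_da h7
            apply hne
            simp only [cls, List.length_nil, add_zero, List.map_nil, List.flatten_nil, U.ev_nil,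
              inv_one, one_mul, mul_one, U.run_nil] at k3 k4 k5
            rw [k3, k4, k5]
        · rw [ind_nmem (fun h : x ∈ Y.T2 E.e (a + n) => h5 h.1.1), Finset.sum_eq_zero]
          · simp
          · intro σ _
            rw [ind_nmem (fun h => h5 (Y.Z_top h))]; simp)
    rw [k1, Y.P.Jc_sum S b6, Finset.sum_congr rfl fun σ _ => Y.P.Jc_ind _ (Y.sub_I _ Y.Z_top)] at k2
    have k4 := Y.nm_pos (a + n)
    have k5 : (Y.nm (a + n) : ℂ) ≠ 0 := by exact_mod_cast k4.ne'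
    have k3 : E.ω * E.φ (X.b E.e) - ∑ σ ∈ S, E.φ (X.b σ.2.2) * (E.ω⁻¹ ^ n * (zz σ [] (a, n) : ℝ)) =
        E.ω⁻¹ ^ n * (Y.nm (a + n) : ℂ)⁻¹ * (E.ω ^ (n + 1) * E.φ (X.b E.e) * Y.nm (a + n) -
          ∑ σ ∈ S, E.φ (X.b σ.2.2) * Y.P.mu (Y.Z E.e σ [] a n)) := by
      rw [mul_sub, Finset.mul_sum]
      congr 1
      · rw [inv_pow]; field_simp; ring
      · refine Finset.sum_congr rfl fun σ _ => ?_
        simp only [zz]
        push_cast
        field_simp
    show ‖E.ω * E.φ (X.b E.e) - ∑ σ ∈ S, E.φ (X.b σ.2.2) * (E.ω⁻¹ ^ n * (zz σ [] (a, n) : ℝ))‖ ≤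
      _ * Y.bad E.e Lb a K (a + n)
    rw [k3, norm_mul, norm_mul, hωn, one_mul, norm_inv, Complex.norm_real, Real.norm_of_nonneg k4.le,
      inv_mul_le_iff₀ k4]
    refine k2.trans (le_of_eq ?_)
    unfold bad
    field_simp)
  rw [BB.Jc_sub b5 (BB.bc_sum S b4), BB.Jc_sum S b4, bb_constc, Finset.sum_eq_zero, sub_zero] at fin
  · exact mul_ne_zero hω0 E.ne fin
  · intro σ _
    rw [BB.Jc_smul _ (zc σ []), hla, mul_zero]

include Y in
theorem absurd_eig (E : Eig X) : False := by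
  rcases E.big.lt_or_eq with h | h
  · exact Y.case_big hL E h
  · by_cases hr : ∃ n : ℕ, 0 < n ∧ E.ω ^ n = 1
    · exact Y.case_root hL E hr
    · push Not at hr
      exact Y.case_rot hL E h.symm hr

end Sys

end

end Pool.Agent.H870Z.LM
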