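import Mathlib
import Pool.Agent.H870Z.LM.Words

set_option autoImplicit false

open scoped Classical Pointwise

namespace Pool.Agent.H870Z.LM

open Pool.Agent.Helper943.LM

noncomputable section

variable {G V : Type} [Group G] [NormedAddCommGroup V] [NormedSpace ℂ V]

/-- transition of the subdivided automaton -/
def subStep {A S : Type} (step : S → A → S) (k : ℕ) :
    Option (S × Option (A × Fin (k + 1))) → A × Fin (k + 1) → Option (S × Option (A × Fin (k + 1)))
  | none, _ => none
  | some (s, o), x =>
    if o = some x ∨ (o = none ∧ (x.2 : ℕ) = 0) then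
      (if h : (x.2 : ℕ) < k then some (s, some (x.1, ⟨x.2 + 1, by omega⟩))
        else some (step s x.1, none))
    else none

/-- the tail of a block -/
def blk {A : Type} (k : ℕ) (a : A) (i : ℕ) : List (A × Fin (k + 1)) :=
  ((List.finRange (k + 1)).map (fun j => (a, j))).drop i

/-- expansion of a word -/
def expd {A : Type} (k : ℕ) (w : List A) : List (A × Fin (k + 1)) := w.flatMap (fun a => blk k a 0)

theorem blk_len {A : Type} (k : ℕ) (a : A) (i : ℕ) : (blk k a i).length = k + 1 - i := by
  simp [blk]

theorem blk_cons {A : Type} (k : ℕ) (a : A) (i : Fin (k + 1)) :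
    blk k a i = (a, i) :: blk k a (i + 1) := by
  unfold blk
  rw [List.drop_eq_getElem_cons (by simp; omega)]
  simp

theorem blk_end {A : Type} (k : ℕ) (a : A) : blk k a (k + 1) = [] :=
  List.length_eq_zero_iff.1 (by rw [blk_len]; omega)

theorem expd_cons {A : Type} (k : ℕ) (a : A) (w : List A) :
    expd k (a :: w) = blk k a 0 ++ expd k w := by simp [expd]

theorem run_none {A S : Type} (step : S → A → S) (k : ℕ) (w : List (A × Fin (k + 1))) :
    w.foldl (subStep step k) none = none := by
  induction w with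
  | nil => rfl
  | cons a w ih => exact ih

theorem run_blk {A S : Type} (step : S → A → S) (k : ℕ) (s : S) (a : A) (n : ℕ) :
    ∀ (i : Fin (k + 1)) (o : Option (A × Fin (k + 1))), (i : ℕ) + n = k →
      (o = some (a, i) ∨ (o = none ∧ (i : ℕ) = 0)) →
      (blk k a i).foldl (subStep step k) (some (s, o)) = some (step s a, none) := by
  induction n with
  | zero =>
    intro i o hi ho
    rw [blk_cons, List.foldl_cons, show (i : ℕ) + 1 = k + 1 by omega, blk_end, List.foldl_nil]
    simp only [subStep]
    rw [if_pos ho, dif_neg (by omega)]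
  | succ n ih =>
    intro i o hi ho
    rw [blk_cons, List.foldl_cons]
    simp only [subStep]
    rw [if_pos ho, dif_pos (by omega)]
    exact ih ⟨i + 1, by omega⟩ _ (by simp; omega) (Or.inl rfl)

theorem run_expd {A S : Type} (step : S → A → S) (k : ℕ) (w : List A) : ∀ s : S,
    (expd k w).foldl (subStep step k) (some (s, none)) = some (w.foldl step s, none) := by
  induction w with
  | nil => intro s; rfl
  | cons a w ih =>
    intro s
    rw [expd_cons, List.foldl_append]
    have := run_blk step k s a k 0 none (by simp) (Or.inr ⟨rfl, rfl⟩)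
    rw [Fin.val_zero] at this
    rw [this, ih]; rfl

theorem acc_expd {A S : Type} (step : S → A → S) (k : ℕ) (s1 : S) (w' : List (A × Fin (k + 1))) :
    ∀ (s : S) (o : Option (A × Fin (k + 1))),
      w'.foldl (subStep step k) (some (s, o)) = some (s1, none) →
      (o = none → ∃ w, w' = expd k w ∧ w.foldl step s = s1) ∧
      ∀ x, o = some x → ∃ w, w' = blk k x.1 x.2 ++ expd k w ∧ w.foldl step (step s x.1) = s1 := by
  induction w' with
  | nil =>
    intro s o h
    simp only [List.foldl_nil, Option.some.injEq, Prod.mk.injEq] at h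
    exact ⟨fun _ => ⟨[], rfl, h.1⟩, fun x hx => by simp [h.2] at hx⟩
  | cons x w' ih =>
    intro s o h
    rw [List.foldl_cons] at h
    simp only [subStep] at h
    by_cases hc : o = some x ∨ (o = none ∧ (x.2 : ℕ) = 0)
    swap
    · rw [if_neg hc, run_none] at h
      simp at h
    rw [if_pos hc] at h
    have key : ∃ w, x :: w' = blk k x.1 x.2 ++ expd k w ∧ w.foldl step (step s x.1) = s1 := by
      rw [blk_cons]
      by_cases h1 : (x.2 : ℕ) < k
      · rw [dif_pos h1] at h
        obtain ⟨w, e1, e2⟩ := (ih _ _ h).2 _ rfl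
        exact ⟨w, by rw [e1]; rfl, e2⟩
      · rw [dif_neg h1] at h
        obtain ⟨w, e1, e2⟩ := (ih _ _ h).1 rfl
        refine ⟨w, ?_, e2⟩
        have := x.2.2
        rw [show (x.2 : ℕ) + 1 = k + 1 by omega, blk_end, e1]; rfl
    obtain ⟨w, e1, e2⟩ := key
    refine ⟨fun ho => ⟨x.1 :: w, ?_, e2⟩, fun y hy => ?_⟩
    · rcases hc with hc | hc
      · simp [ho] at hc
      · rw [e1, expd_cons, hc.2]
    · rcases hc with hc | hc
      · rw [hc] at hy
        obtain rfl := Option.some.inj hy
        exact ⟨w, e1, e2⟩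
      · simp [hc.1] at hy

theorem exists_let_word (X : Pre G V) (g : G) : ∃ l : List G, (∀ s ∈ l, X.Let s) ∧ l.prod = g := by
  have key : ∀ g s, X.Let s → (∃ l : List G, (∀ s ∈ l, X.Let s) ∧ l.prod = g) →
      ∃ l : List G, (∀ s ∈ l, X.Let s) ∧ l.prod = g * s := by
    rintro g s hs ⟨l, h1, h2⟩
    refine ⟨l ++ [s], fun x hx => ?_, by simp [h2]⟩
    rcases List.mem_append.1 hx with h | h
    · exact h1 x h
    · rw [List.mem_singleton.1 h]; exact hs
  induction g using X.induc with
  | one => exact ⟨[], by simp, rfl⟩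
  | lam g z hz ih => exact key g z (Or.inl hz) ih
  | up g ih => exact key g _ (Or.inr (Or.inl rfl)) ih
  | down g ih => exact key g _ (Or.inr (Or.inr rfl)) ih

theorem subdivide (X : Pre G V) (U : UA G) : ∃ U' : UA G, ∀ a, X.Let (U'.mu a) := by
  have := U.finA
  have := U.finS
  choose l h1 h2 using fun a => exists_let_word X (U.mu a)
  obtain ⟨k, hk⟩ := (Set.finite_range (fun a => (l a).length)).bddAbove
  have hk' : ∀ a, (l a).length ≤ k := fun a => hk ⟨a, rfl⟩
  let mu : U.A × Fin (k + 1) → G := fun x => (l x.1).getD x.2 1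
  have hblk : ∀ a, ((blk k a 0).map mu).prod = U.mu a := by
    intro a
    have e : (blk k a 0).map mu = l a ++ List.replicate (k + 1 - (l a).length) 1 := by
      apply List.ext_getElem
      · have := hk' a
        simp [blk_len]; omega
      · intro i i1 i2
        simp only [blk, List.drop_zero, List.getElem_map, List.getElem_finRange, mu, Fin.val_cast]
        by_cases h : i < (l a).length
        · rw [List.getElem_append_left h, List.getD_eq_getElem _ _ h]
        · rw [List.getElem_append_right (not_lt.1 h), List.getD_eq_default _ _ (not_lt.1 h),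
            List.getElem_replicate]
    rw [e, List.prod_append, List.prod_replicate, one_pow, mul_one, h2]
  have hev : ∀ w : List U.A, ((expd k w).map mu).prod = U.ev w := by
    intro w
    induction w with
    | nil => simp [expd, U.ev_nil]
    | cons a w ih =>
      rw [expd_cons, List.map_append, List.prod_append, hblk, ih, ← ev_single, ← U.ev_append]; rfl
  let E : Set G := insert 1 (Set.range (fun z : U.A × Fin (k + 1) =>
    (((blk k z.1 0).take z.2).map mu).prod))
  have hE : E.Finite := (Set.finite_range _).insert _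
  have htake : ∀ (w : List U.A) (t : ℕ), ∃ e ∈ E,
      (((expd k w).take t).map mu).prod = U.ev (w.take (t / (k + 1))) * e := by
    intro w
    induction w with
    | nil => intro t; exact ⟨1, Set.mem_insert _ _, by simp [expd, U.ev_nil]⟩
    | cons a w ih =>
      intro t
      rw [expd_cons]
      by_cases h : t < k + 1
      · refine ⟨_, Or.inr ⟨(a, ⟨t, h⟩), rfl⟩, ?_⟩
        rw [Nat.div_eq_of_lt h, List.take_zero, U.ev_nil, one_mul,
          List.take_append_of_le_length (by rw [blk_len]; omega)]
      · obtain ⟨d, rfl⟩ := Nat.exists_eq_add_of_le (not_lt.1 h)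
        obtain ⟨e, he, h3⟩ := ih d
        refine ⟨e, he, ?_⟩
        have h4 : (blk k a 0 ++ expd k w).take (k + 1 + d) = blk k a 0 ++ (expd k w).take d := by
          have := List.take_length_add_append (l₁ := blk k a 0) (l₂ := expd k w) d
          rwa [blk_len, Nat.sub_zero] at this
        rw [h4, List.map_append, List.prod_append, hblk, h3, Nat.add_div_left _ (Nat.succ_pos k),
          List.take_succ_cons, ← mul_assoc, ← ev_single, ← U.ev_append]
        rfl
  have hacc : ∀ w' : List (U.A × Fin (k + 1)),
      w'.foldl (subStep U.step k) (some (U.s0, none)) ∈ {z | ∃ s ∈ U.acc, z = some (s, none)} →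
      ∃ w ∈ U.L, w' = expd k w := by
    rintro w' ⟨s, hs, h⟩
    obtain ⟨w, e1, e2⟩ := (acc_expd U.step k s w' _ _ h).1 rfl
    exact ⟨w, by rw [U.mem_L, UA.run, e2]; exact hs, e1⟩
  refine ⟨{ A := U.A × Fin (k + 1), finA := inferInstance, mu := mu,
            S := Option (U.S × Option (U.A × Fin (k + 1))), finS := inferInstance,
            step := subStep U.step k, s0 := some (U.s0, none),
            acc := {z | ∃ s ∈ U.acc, z = some (s, none)},
            surj := ?_, inj := ?_, ft := ?_ }, ?_⟩
  · intro g
    obtain ⟨w, hw, he⟩ := U.ev_surj g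
    exact ⟨expd k w, ⟨_, hw, run_expd U.step k w _⟩, by rw [hev, he]⟩
  · intro w1 w2 a1 a2 he
    obtain ⟨v1, b1, rfl⟩ := hacc w1 a1
    obtain ⟨v2, b2, rfl⟩ := hacc w2 a2
    rw [hev, hev] at he
    rw [U.ev_inj b1 b2 he]
  · intro g
    obtain ⟨D, hD, h⟩ := U.ft' g
    refine ⟨E⁻¹ * D * E, (hE.inv.mul hD).mul hE, fun w1 w2 a1 a2 he t => ?_⟩
    obtain ⟨v1, b1, rfl⟩ := hacc w1 a1
    obtain ⟨v2, b2, rfl⟩ := hacc w2 a2
    rw [hev, hev] at he
    obtain ⟨e1, c1, d1⟩ := htake v1 t
    obtain ⟨e2, c2, d2⟩ := htake v2 t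
    rw [d1, d2, show ∀ a b c d : G, (a * b)⁻¹ * (c * d) = b⁻¹ * (a⁻¹ * c) * d from
      fun a b c d => by group]
    exact Set.mul_mem_mul (Set.mul_mem_mul (Set.inv_mem_inv.2 c1) (h _ b1 _ b2 he _)) c2
  · rintro ⟨a, i⟩
    show X.Let ((l a).getD i 1)
    by_cases h : (i : ℕ) < (l a).length
    · rw [List.getD_eq_getElem _ _ h]; exact h1 a _ (List.getElem_mem h)
    · rw [List.getD_eq_default _ _ (not_lt.1 h)]; exact Or.inl X.L.one_mem

end

end Pool.Agent.H870Z.LM
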