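import Mathlib
import Pool.Agent.H870Z.LM.Fin2
import Pool.Agent.H870Z.LM.Sub

set_option autoImplicit false

open scoped Classical Pointwise
open Polynomial

namespace Pool.Agent.H870Z.LM

open Pool.Agent.Helper943.LM

noncomputable section

section lin

variable {E : Type} [AddCommGroup E] [Module ℂ E]

theorem fix_mul (T : E →ₗ[ℂ] E) {j : ℕ} {v : E} (h : (T ^ j) v = v) (k : ℕ) : (T ^ (j * k)) v = v := by
  induction k with
  | zero => simp
  | succ k ih => rw [Nat.mul_succ, pow_add, Module.End.mul_apply, h, ih]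

theorem stab [FiniteDimensional ℂ E] (T : E →ₗ[ℂ] E) : ∃ M : ℕ, 0 < M ∧ ∀ j : ℕ, 0 < j → ∀ v,
    (T ^ j) v = v → (T ^ M) v = v := by
  let K : ℕ →o Submodule ℂ E := ⟨fun n => LinearMap.ker (T ^ n.factorial - 1), by
    intro n m h v hv
    obtain ⟨k, hk⟩ := Nat.factorial_dvd_factorial h
    simp only [LinearMap.mem_ker, LinearMap.sub_apply, Module.End.one_apply, sub_eq_zero] at hv ⊢
    rw [hk]; exact fix_mul T hv k⟩
  obtain ⟨n, hn⟩ := monotone_stabilizes_iff_noetherian.mpr inferInstance K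
  refine ⟨n.factorial, n.factorial_pos, fun j hj v hv => ?_⟩
  have h1 : v ∈ K (max n j) := by
    obtain ⟨k, hk⟩ := Nat.dvd_factorial hj (le_max_right n j)
    show v ∈ LinearMap.ker (T ^ (max n j).factorial - 1)
    simp only [LinearMap.mem_ker, LinearMap.sub_apply, Module.End.one_apply, sub_eq_zero]
    rw [hk]; exact fix_mul T hv k
  rw [← hn _ (le_max_left n j)] at h1
  have h2 : v ∈ LinearMap.ker (T ^ n.factorial - 1) := h1
  simpa only [LinearMap.mem_ker, LinearMap.sub_apply, Module.End.one_apply, sub_eq_zero] using h2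

/-- geometric decay -/
def Decay (a : ℕ → ℂ) : Prop := ∃ C q : ℝ, 0 ≤ q ∧ q < 1 ∧ ∀ k, ‖a k‖ ≤ C * q ^ k

theorem decay_step {a : ℕ → ℂ} {ω : ℂ} (hω : ‖ω‖ < 1) (h : Decay (fun k => a (k + 1) - ω * a k)) :
    Decay a := by
  obtain ⟨C, q, q0, q1, h⟩ := h
  obtain ⟨p, hp⟩ : ∃ p, p = (max q ‖ω‖ + 1) / 2 := ⟨_, rfl⟩
  have m1 : max q ‖ω‖ < 1 := max_lt q1 hω
  have p1 : q ≤ p := by linarith [le_max_left q ‖ω‖]
  have p2 : ‖ω‖ < p := by linarith [le_max_right q ‖ω‖]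
  have hC : 0 ≤ C := by simpa using (norm_nonneg _).trans (h 0)
  obtain ⟨D, hD⟩ : ∃ D, D = max ‖a 0‖ (C / (p - ‖ω‖)) := ⟨_, rfl⟩
  have d1 : C ≤ D * (p - ‖ω‖) := by
    rw [← div_le_iff₀ (by linarith), hD]; exact le_max_right _ _
  refine ⟨D, p, q0.trans p1, by linarith, fun k => ?_⟩
  induction k with
  | zero => rw [pow_zero, mul_one, hD]; exact le_max_left _ _
  | succ k ih =>
    have k1 : a (k + 1) = (a (k + 1) - ω * a k) + ω * a k := by ring
    have k2 := h k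
    have k3 : C * q ^ k ≤ D * (p - ‖ω‖) * p ^ k :=
      mul_le_mul d1 (pow_le_pow_left₀ q0 p1 k) (pow_nonneg q0 k) (hC.trans d1)
    have k4 : ‖ω‖ * ‖a k‖ ≤ ‖ω‖ * (D * p ^ k) := mul_le_mul_of_nonneg_left ih (norm_nonneg _)
    rw [k1]
    refine (norm_add_le _ _).trans ?_
    rw [norm_mul, pow_succ]
    linarith

theorem Decay.small {a : ℕ → ℂ} (h : Decay a) : ∀ᶠ k in Filter.atTop, ‖a k‖ < 1 := by
  obtain ⟨C, q, q0, q1, h⟩ := h
  have h1 := (tendsto_pow_atTop_nhds_zero_of_lt_one q0 q1).const_mul C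
  rw [mul_zero] at h1
  filter_upwards [h1.eventually (gt_mem_nhds one_pos)] with k hk
  exact (h k).trans_lt hk

theorem root_list (T : E →ₗ[ℂ] E) (W : E → Prop) (hW : ∀ (p : ℂ[X]) w, W w → W (aeval T p w))
    (s : Multiset ℂ) : ∀ w, W w → aeval T (s.map (fun a => X - C a)).prod w = 0 →
      (w ≠ 0 → ∃ (ω : ℂ) (w' : E), W w' ∧ w' ≠ 0 ∧ T w' = ω • w') ∧
      ((∃ (ω : ℂ) (w' : E), W w' ∧ w' ≠ 0 ∧ T w' = ω • w' ∧ 1 ≤ ‖ω‖) ∨
        ∀ ev : E →ₗ[ℂ] ℂ, Decay (fun k => ev ((T ^ k) w))) := by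
  induction s using Multiset.induction_on with
  | empty =>
    intro w _ h
    have : w = 0 := by simpa using h
    subst this
    exact ⟨fun h => absurd rfl h, Or.inr fun ev => ⟨0, 0, le_rfl, one_pos, by simp⟩⟩
  | cons a s ih =>
    intro w hw h
    rw [Multiset.map_cons, Multiset.prod_cons] at h
    have e1 : ∀ v, aeval T (X - C a) v = T v - a • v := by
      intro v; simp [Module.algebraMap_end_apply]
    by_cases h0 : aeval T (s.map (fun a => X - C a)).prod w = 0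
    · exact ih w hw h0
    have h1 : T (aeval T (s.map (fun a => X - C a)).prod w) =
        a • aeval T (s.map (fun a => X - C a)).prod w := by
      rw [map_mul, Module.End.mul_apply, e1, sub_eq_zero] at h
      exact h
    refine ⟨fun _ => ⟨a, _, hW _ w hw, h0, h1⟩, ?_⟩
    by_cases ha : 1 ≤ ‖a‖
    · exact Or.inl ⟨a, _, hW _ w hw, h0, h1, ha⟩
    · rw [mul_comm, map_mul, Module.End.mul_apply] at h
      rcases (ih _ (hW _ w hw) h).2 with h2 | h2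
      · exact Or.inl h2
      · refine Or.inr fun ev => decay_step (not_le.1 ha) ?_
        have := h2 ev
        rw [e1] at this
        simp only [map_sub, map_smul, smul_eq_mul] at this
        simpa only [pow_succ, Module.End.mul_apply] using this

theorem root_all [FiniteDimensional ℂ E] (T : E →ₗ[ℂ] E) (W : E → Prop)
    (hW : ∀ (p : ℂ[X]) w, W w → W (aeval T p w)) (w : E) (hw : W w) :
      (w ≠ 0 → ∃ (ω : ℂ) (w' : E), W w' ∧ w' ≠ 0 ∧ T w' = ω • w') ∧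
      ((∃ (ω : ℂ) (w' : E), W w' ∧ w' ≠ 0 ∧ T w' = ω • w' ∧ 1 ≤ ‖ω‖) ∨
        ∀ ev : E →ₗ[ℂ] ℂ, Decay (fun k => ev ((T ^ k) w))) := by
  refine root_list T W hW T.charpoly.roots w hw ?_
  rw [← (IsAlgClosed.splits T.charpoly).eq_prod_roots_of_monic T.charpoly_monic,
    T.aeval_self_charpoly, LinearMap.zero_apply]

end lin

variable {G V : Type} [Group G] [NormedAddCommGroup V] [NormedSpace ℂ V]

/-- the full list of hypotheses -/
structure Full (G V : Type) [Group G] [NormedAddCommGroup V] [NormedSpace ℂ V] extends HS G V where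
  fd : FiniteDimensional ℂ V
  disc : ∃ (n : ℕ) (c : Fin n → V →ₗ[ℂ] ℂ), ∀ z ∈ L, (∀ i, ‖c i (b z)‖ < 1) → z = 1
  span : ∀ f : V →ₗ[ℂ] ℂ, (∀ z ∈ L, f (b z) = 0) → f = 0
  inf : ∀ j : ℕ, 0 < j → A ^ j ≠ 1
  hNM : ∀ ν ∈ N, (A ^ M) (b ν) = b ν
  dual : ∀ (f : V →ₗ[ℂ] ℂ) (j : ℕ), 0 < j → (∀ v, f ((A ^ j) v) = f v) → ∀ v, f ((A ^ M) v) = f v

theorem inv_pow_fix (A : V ≃ₗ[ℂ] V) (j : ℕ) (v : V) : (A⁻¹ ^ j) ((A ^ j) v) = v := by
  rw [inv_pow]; exact (A ^ j).symm_apply_apply v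

theorem pow_inv_fix (A : V ≃ₗ[ℂ] V) (j : ℕ) (v : V) : (A ^ j) ((A⁻¹ ^ j) v) = v := by
  rw [inv_pow]; exact (A ^ j).apply_symm_apply v

/-- reversal -/
def Full.flip (X : Full G V) : Full G V where
  toHS := X.toHS.flip
  fd := X.fd
  disc := X.disc
  span := X.span
  inf := by
    intro j hj h
    have h1 : X.A⁻¹ ^ j = 1 := h
    rw [inv_pow, inv_eq_one] at h1
    exact X.inf j hj h1
  hNM := by
    intro ν hν
    show (X.A⁻¹ ^ X.M) (X.b ν) = X.b ν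
    conv_lhs => rw [← X.hNM ν hν]
    exact inv_pow_fix _ _ _
  dual := by
    intro f j hj h v
    show f ((X.A⁻¹ ^ X.M) v) = f v
    have h1 : ∀ v, f ((X.A ^ j) v) = f v := fun v => by
      have : f ((X.A⁻¹ ^ j) ((X.A ^ j) v)) = f ((X.A ^ j) v) := h _
      rw [← this, inv_pow_fix]
    rw [← X.dual f j hj h1, pow_inv_fix]

/-- the transposed map -/
def dT (A : V ≃ₗ[ℂ] V) : (V →ₗ[ℂ] ℂ) →ₗ[ℂ] (V →ₗ[ℂ] ℂ) := LinearMap.lcomp ℂ ℂ A.toLinearMap

theorem dT_apply (A : V ≃ₗ[ℂ] V) (f : V →ₗ[ℂ] ℂ) (v : V) : dT A f v = f (A v) := rfl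

theorem dT_pow (A : V ≃ₗ[ℂ] V) (k : ℕ) : ∀ (f : V →ₗ[ℂ] ℂ) (v : V), (dT A ^ k) f v = f ((A ^ k) v) := by
  induction k with
  | zero => intro f v; simp
  | succ k ih =>
    intro f v
    rw [pow_succ, Module.End.mul_apply, ih, pow_succ']; rfl

namespace Full

variable (X : Full G V)

/-- functionals factoring through `A ^ M - 1` -/
def W (f : V →ₗ[ℂ] ℂ) : Prop := ∃ lam, f = aeval (dT X.A) (Polynomial.X ^ X.M - 1 : ℂ[X]) lam

theorem W_cl (p : ℂ[X]) (f : V →ₗ[ℂ] ℂ) (h : X.W f) : X.W (aeval (dT X.A) p f) := by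
  obtain ⟨lam, rfl⟩ := h
  refine ⟨aeval (dT X.A) p lam, ?_⟩
  rw [← Module.End.mul_apply, ← map_mul, mul_comm, map_mul, Module.End.mul_apply]

theorem W_apply (lam : V →ₗ[ℂ] ℂ) (v : V) :
    aeval (dT X.A) (Polynomial.X ^ X.M - 1 : ℂ[X]) lam v = lam ((X.A ^ X.M) v) - lam v := by
  simp [dT_pow]

theorem not_fix : ¬ ∀ (lam : V →ₗ[ℂ] ℂ) (v : V), lam ((X.A ^ X.M) v) = lam v := by
  intro h
  apply X.inf X.M X.M_pos
  ext v
  have := (Module.forall_dual_apply_eq_zero_iff ℂ ((X.A ^ X.M) v - v)).1 fun f => by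
    rw [map_sub, h, sub_self]
  exact sub_eq_zero.1 this

theorem eig_of {f : V →ₗ[ℂ] ℂ} {ω : ℂ} (h1 : X.W f) (h2 : f ≠ 0) (h3 : dT X.A f = ω • f) :
    (1 ≤ ‖ω‖ → Nonempty (Eig X.toHS)) ∧ (‖ω‖ < 1 → Nonempty (Eig X.flip.toHS)) := by
  obtain ⟨lam, hl⟩ := h1
  have e1 : ∀ v, f (X.A v) = ω * f v := fun v => by
    rw [← dT_apply, h3]; rfl
  have e2 : ∀ ν ∈ X.N, f (X.b ν) = 0 := fun ν hν => by
    rw [hl, W_apply, X.hNM ν hν, sub_self]
  obtain ⟨e, he, hne⟩ : ∃ e ∈ X.L, f (X.b e) ≠ 0 := by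
    by_contra h
    push Not at h
    exact h2 (X.span f h)
  have e3 : ∀ (n : ℕ) v, f ((X.A ^ n) v) = ω ^ n * f v := by
    intro n v
    induction n with
    | zero => simp
    | succ n ih =>
      rw [pow_succ']
      show f (X.A ((X.A ^ n) v)) = _
      rw [e1, ih]; ring
  refine ⟨fun h => ⟨⟨f, ω, e, he, e1, e2, hne, h, ?_⟩⟩, fun h => ?_⟩
  · rintro ⟨n, hn, hω⟩
    refine ⟨lam, X.M, X.M_pos, ?_, fun v => by rw [hl, W_apply]; ring⟩
    have := X.dual f n hn (fun v => by rw [e3, hω, one_mul]) (X.b e)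
    rwa [e3, mul_eq_right₀ hne] at this
  · have h0 : ω ≠ 0 := by
      rintro rfl
      apply hne
      have := e1 (X.A.symm (X.b e))
      rwa [LinearEquiv.apply_symm_apply, zero_mul] at this
    have h4 : 1 < ‖ω⁻¹‖ := by
      rw [norm_inv]; exact (one_lt_inv₀ (norm_pos_iff.2 h0)).2 h
    refine ⟨⟨f, ω⁻¹, e, he, fun v => ?_, e2, hne, h4.le, ?_⟩⟩
    · have := e1 (X.A.symm v)
      rw [LinearEquiv.apply_symm_apply] at this
      show f (X.A.symm v) = _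
      rw [this, inv_mul_cancel_left₀ h0]
    · rintro ⟨n, hn, hω⟩
      have := congrArg norm hω
      rw [norm_pow, norm_one] at this
      exact absurd this (one_lt_pow₀ h4 hn.ne').ne'

theorem eig_or : Nonempty (Eig X.toHS) ∨ Nonempty (Eig X.flip.toHS) := by
  have := X.fd
  have h := X.not_fix
  push Not at h
  obtain ⟨lam, v, h⟩ := h
  obtain ⟨ω, f, h1, h2, h3⟩ := (root_all (dT X.A) X.W X.W_cl _ ⟨lam, rfl⟩).1 (by
    intro h0
    apply h
    have := X.W_apply lam v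
    rw [h0, LinearMap.zero_apply] at this
    exact (sub_eq_zero.1 this.symm))
  rcases le_or_gt 1 ‖ω‖ with h4 | h4
  · exact Or.inl ((X.eig_of h1 h2 h3).1 h4)
  · exact Or.inr ((X.eig_of h1 h2 h3).2 h4)

theorem eig_int (hI : ∀ z ∈ X.L, X.t * z * X.t⁻¹ ∈ X.L) : Nonempty (Eig X.toHS) := by
  have := X.fd
  by_contra hn
  have hd : ∀ (lam : V →ₗ[ℂ] ℂ) (v : V),
      Decay (fun k => lam ((X.A ^ X.M) ((X.A ^ k) v)) - lam ((X.A ^ k) v)) := by
    intro lam v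
    rcases (root_all (dT X.A) X.W X.W_cl _ ⟨lam, rfl⟩).2 with ⟨ω, f, h1, h2, h3, h4⟩ | h
    · exact absurd ((X.eig_of h1 h2 h3).1 h4) hn
    · have := h (LinearMap.applyₗ v)
      simpa only [LinearMap.applyₗ_apply_apply, dT_pow, W_apply] using this
  obtain ⟨n, c, hc⟩ := X.disc
  have hk : ∀ (k : ℕ), ∀ z ∈ X.L, X.t ^ k * z * (X.t ^ k)⁻¹ ∈ X.L := by
    intro k z hz
    induction k with
    | zero => simpa using hz
    | succ k ih =>
      have := hI _ ih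
      rwa [show X.t * (X.t ^ k * z * (X.t ^ k)⁻¹) * X.t⁻¹ = X.t ^ (k + 1) * z * (X.t ^ (k + 1))⁻¹ by
        group] at this
  have hb : ∀ (k : ℕ), ∀ z ∈ X.L, X.b (X.t ^ k * z * (X.t ^ k)⁻¹) = (X.A ^ k) (X.b z) := by
    intro k z hz
    rw [X.b_conj _ (X.h_L z hz), X.h_pow, X.h_t, mul_one, zpow_natCast]
  apply X.not_fix
  intro lam v
  have := X.span (aeval (dT X.A) (Polynomial.X ^ X.M - 1 : ℂ[X]) lam) fun z hz => by
    obtain ⟨k, h⟩ := (Filter.eventually_all.2 fun i => (hd (c i) (X.b z)).small).exists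
    have h1 := hk k z hz
    have h2 := hk X.M _ h1
    have h3 := X.b_mul0 (X.h_L _ (X.L.mul_mem h2 (X.L.inv_mem h1))) (X.t ^ k * z * (X.t ^ k)⁻¹)
    rw [inv_mul_cancel_right, hb _ _ h1, hb _ _ hz] at h3
    have h4 := hc _ (X.L.mul_mem h2 (X.L.inv_mem h1)) fun i => by
      rw [eq_sub_of_add_eq h3.symm, map_sub]; exact h i
    rw [h4, X.b_one, zero_add] at h3
    have h5 : (X.A ^ k) ((X.A ^ X.M) (X.b z)) = (X.A ^ k) (X.b z) := by
      rw [← h3]
      show (X.A ^ k * X.A ^ X.M) (X.b z) = (X.A ^ X.M * X.A ^ k) (X.b z)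
      rw [← pow_add, ← pow_add, add_comm]
    rw [W_apply, (X.A ^ k).injective h5, sub_self]
  have h6 := X.W_apply lam v
  rw [this, LinearMap.zero_apply] at h6
  exact sub_eq_zero.1 h6.symm

include X in
theorem no_ua (U : UA G) : False := by
  obtain ⟨U, hL⟩ := subdivide X.toPre U
  have hL' : ∀ a, X.flip.Let (U.mu a) := fun a => X.toPre.flip_let (hL a)
  have c1 : Nonempty (Sys X.toHS U) → Nonempty (Eig X.toHS) → False :=
    fun ⟨Y⟩ ⟨E⟩ => Y.absurd_eig hL E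
  have c2 : Nonempty (Sys X.flip.toHS U) → Nonempty (Eig X.flip.toHS) → False :=
    fun ⟨Y⟩ ⟨E⟩ => Y.absurd_eig hL' E
  by_cases b1 : ∀ z ∈ X.L, z ∈ X.B
  · have e2 := X.flip.eig_int fun z hz => by
      show X.t⁻¹ * z * X.t⁻¹⁻¹ ∈ X.L
      rw [inv_inv]; exact X.P_le _ (b1 z hz)
    by_cases b2 : ∀ z ∈ X.L, z ∈ X.flip.B
    · have k : ∀ z ∈ X.L, X.t * z * X.t⁻¹ ∈ X.L := fun z hz => X.B_le _ (b2 z hz)
      rcases sys_line X.toHS U hL b1 k with h | h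
      · exact c1 h (X.eig_int k)
      · exact c2 h e2
    · push Not at b2
      obtain ⟨z, hz, hB⟩ := b2
      exact c2 (sys_br X.flip.toHS U hL' hz hB) e2
  · push Not at b1
    obtain ⟨z, hz, hB⟩ := b1
    have s1 := sys_br X.toHS U hL hz hB
    by_cases b2 : ∀ z ∈ X.L, z ∈ X.flip.B
    · exact c1 s1 (X.eig_int fun z hz => X.B_le _ (b2 z hz))
    · push Not at b2
      obtain ⟨z', hz', hB'⟩ := b2
      rcases X.eig_or with h | h
      · exact c1 s1 h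
      · exact c2 (sys_br X.flip.toHS U hL' hz' hB') h

end Full

theorem fin_of_factor {α β γ : Type} {s : Set α} (c : α → β) (g : α → γ) {T : Set β} (hT : T.Finite)
    (h1 : ∀ x ∈ s, c x ∈ T) (h2 : ∀ x ∈ s, ∀ y ∈ s, c x = c y → g x = g y) : (g '' s).Finite := by
  rcases s.eq_empty_or_nonempty with rfl | ⟨x0, hx0⟩
  · simp
  refine (hT.image (fun b => if h : ∃ x ∈ s, c x = b then g h.choose else g x0)).subset ?_
  rintro _ ⟨x, hx, rfl⟩
  have h : ∃ y ∈ s, c y = c x := ⟨x, hx, rfl⟩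
  exact ⟨c x, h1 x hx, by simp only [dif_pos h]; exact h2 _ h.choose_spec.1 _ hx h.choose_spec.2⟩

theorem build (X : Pre G V) (fd : FiniteDimensional ℂ V)
    (disc : ∃ (n : ℕ) (c : Fin n → V →ₗ[ℂ] ℂ), ∀ z ∈ X.L, (∀ i, ‖c i (X.b z)‖ < 1) → z = 1)
    (span : ∀ f : V →ₗ[ℂ] ℂ, (∀ z ∈ X.L, f (X.b z) = 0) → f = 0)
    (inf : ∀ j : ℕ, 0 < j → X.A ^ j ≠ 1) : Nonempty (Full G V) := by
  obtain ⟨M1, p1, s1⟩ := stab X.A.toLinearMap
  obtain ⟨M2, p2, s2⟩ := stab (dT X.A)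
  have coe : ∀ (j : ℕ) v, (X.A.toLinearMap ^ j) v = (X.A ^ j) v := by
    intro j v
    induction j with
    | zero => simp
    | succ j ih => rw [pow_succ', pow_succ', Module.End.mul_apply, ih]; rfl
  obtain ⟨M, hM⟩ : ∃ M, M = M1 * M2 := ⟨_, rfl⟩
  have pM : 0 < M := hM ▸ Nat.mul_pos p1 p2
  have t1 : ∀ j : ℤ, j ≠ 0 → ∀ v, (X.A ^ j) v = v → (X.A ^ M) v = v := by
    intro j hj v hv
    rw [← coe, hM]
    refine fix_mul _ (s1 j.natAbs (Int.natAbs_pos.2 hj) v ?_) _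
    rw [coe]
    rcases Int.natAbs_eq j with e | e
    · rwa [e, zpow_natCast] at hv
    · rw [e, zpow_neg, zpow_natCast, ← inv_pow] at hv
      conv_lhs => rw [← hv]
      exact pow_inv_fix _ _ _
  have t2 : ∀ (k : ℤ) v, (X.A ^ M) v = v → (X.A ^ ((M : ℤ) * k)) v = v := by
    intro k v hv
    have h1 : ∀ n : ℕ, (X.A ^ (M * n)) v = v := fun n => by
      rw [← coe]; exact fix_mul _ (by rwa [coe]) n
    rcases Int.eq_nat_or_neg k with ⟨n, rfl | rfl⟩
    · rw [← Nat.cast_mul, zpow_natCast]; exact h1 n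
    · rw [mul_neg, zpow_neg, ← Nat.cast_mul, zpow_natCast, ← inv_pow]
      conv_lhs => rw [← h1 n]
      exact inv_pow_fix _ _ _
  have binj : ∀ z ∈ X.L, ∀ z' ∈ X.L, X.b z = X.b z' → z = z' := by
    intro z hz z' hz' he
    obtain ⟨n, c, hc⟩ := disc
    have h1 := X.b_mul0 (X.h_L _ (X.L.mul_mem hz (X.L.inv_mem hz'))) z'
    rw [inv_mul_cancel_right, he, right_eq_add] at h1
    exact mul_inv_eq_one.1 (hc _ (X.L.mul_mem hz (X.L.inv_mem hz')) fun i => by simp [h1])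
  have binv : ∀ z ∈ X.L, X.b z⁻¹ = - X.b z := by
    intro z hz
    have := X.b_mul0 (X.h_L _ hz) z⁻¹
    rw [mul_inv_cancel, X.b_one] at this
    exact eq_neg_of_add_eq_zero_right this.symm
  let N : Subgroup G :=
    { carrier := {z | (∀ g, g * z * g⁻¹ ∈ X.L) ∧ (X.A ^ M) (X.b z) = X.b z}
      one_mem' := ⟨fun g => by simpa using X.L.one_mem, by rw [X.b_one, map_zero]⟩
      mul_mem' := by
        rintro a b ⟨a1, a2⟩ ⟨b1, b2⟩
        refine ⟨fun g => ?_, ?_⟩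
        · have := X.L.mul_mem (a1 g) (b1 g)
          rwa [show g * a * g⁻¹ * (g * b * g⁻¹) = g * (a * b) * g⁻¹ by group] at this
        · rw [X.b_mul0 (X.h_L _ (by simpa using a1 1)), map_add, a2, b2]
      inv_mem' := by
        rintro a ⟨a1, a2⟩
        refine ⟨fun g => ?_, ?_⟩
        · have := X.L.inv_mem (a1 g)
          rwa [show (g * a * g⁻¹)⁻¹ = g * a⁻¹ * g⁻¹ by group] at this
        · rw [binv _ (by simpa using a1 1), map_neg, a2] }
  have hNL : ∀ x ∈ N, x ∈ X.L := fun x hx => by simpa using hx.1 1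
  have hall : ∀ g z, (∀ j : ℤ, X.t ^ j * z * (X.t ^ j)⁻¹ ∈ X.L) → g * z * g⁻¹ ∈ X.L := by
    intro g
    induction g using X.induc with
    | one => intro z h; simpa using h 0
    | lam g w hw ih =>
      intro z h
      have h0 : z ∈ X.L := by simpa using h 0
      rw [show g * w * z * (g * w)⁻¹ = g * (w * z * w⁻¹) * g⁻¹ by group, X.comm w hw z h0,
        mul_inv_cancel_right]
      exact ih z h
    | up g ih =>
      intro z h
      rw [show g * X.t * z * (g * X.t)⁻¹ = g * (X.t * z * X.t⁻¹) * g⁻¹ by group]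
      refine ih _ fun j => ?_
      have := h (j + 1)
      rwa [show X.t ^ (j + 1) * z * (X.t ^ (j + 1))⁻¹ = X.t ^ j * (X.t * z * X.t⁻¹) * (X.t ^ j)⁻¹ by
        group] at this
    | down g ih =>
      intro z h
      rw [show g * X.t⁻¹ * z * (g * X.t⁻¹)⁻¹ = g * (X.t⁻¹ * z * X.t) * g⁻¹ by group]
      refine ih _ fun j => ?_
      have := h (j - 1)
      rwa [show X.t ^ (j - 1) * z * (X.t ^ (j - 1))⁻¹ = X.t ^ j * (X.t⁻¹ * z * X.t) * (X.t ^ j)⁻¹ by
        group] at this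
  have hmem : ∀ z ∈ X.L, (X.A ^ M) (X.b z) = X.b z →
      (∀ j : Fin (M + 1), X.t ^ (j : ℕ) * z * (X.t ^ (j : ℕ))⁻¹ ∈ X.L) → z ∈ N := by
    intro z hz h1 h2
    refine ⟨fun g => hall g z fun j => ?_, h1⟩
    have h3 : X.t ^ M * z * (X.t ^ M)⁻¹ = z := by
      refine binj _ (h2 ⟨M, Nat.lt_succ_self _⟩) _ hz ?_
      rw [X.b_conj _ (X.h_L z hz), X.h_pow, X.h_t, mul_one, zpow_natCast, h1]
    have h4 : Commute (X.t ^ M) z := mul_inv_eq_iff_eq_mul.1 h3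
    have hM' : (0 : ℤ) < M := by exact_mod_cast pM
    obtain ⟨i, hi⟩ := Int.eq_ofNat_of_zero_le (Int.emod_nonneg j hM'.ne')
    have h5 := Int.emod_lt_of_pos j hM'
    have h6 : X.t ^ j = X.t ^ i * (X.t ^ M) ^ (j / M) := by
      rw [← zpow_natCast, ← zpow_natCast, ← zpow_mul, ← zpow_add, ← hi, Int.emod_add_mul_ediv]
    have h7 := h2 ⟨i, by omega⟩
    rw [h6, mul_inv_rev, mul_assoc (X.t ^ i), (h4.zpow_left _).eq, mul_assoc, mul_assoc,
      mul_inv_cancel_left, ← mul_assoc]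
    exact h7
  refine ⟨{ toPre := X, N := N, N_normal := ⟨fun z hz k => ⟨fun g => ?_, ?_⟩⟩, N_le := hNL, M := M,
            M_pos := pM, N_cent := ?_, per := ?_, fd := fd, disc := disc, span := span, inf := inf,
            hNM := fun ν hν => hν.2, dual := ?_ }⟩
  · have := hz.1 (g * k)
    rwa [show g * k * z * (g * k)⁻¹ = g * (k * z * k⁻¹) * g⁻¹ by group] at this
  · rw [X.b_conj _ (X.h_L _ (hNL z hz)), ← zpow_natCast, ← zpow_app, add_comm, zpow_app,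
      zpow_natCast, hz.2]
  · rintro g ⟨k, hk⟩ x hx
    rw [← mul_inv_eq_iff_eq_mul]
    refine binj _ (hx.1 g) _ (hNL x hx) ?_
    rw [X.b_conj _ (X.h_L _ (hNL x hx)), hk, t2 k _ hx.2]
  · choose R r1 r2 using fun j : Fin (M + 1) => X.cms (X.t ^ (j : ℕ))⁻¹
    choose! c c1 c2 using r2
    refine ⟨_, fin_of_factor (s := {z | z ∈ X.L ∧ (X.A ^ M) (X.b z) = X.b z}) (fun z j => c j z)
      (fun z => (QuotientGroup.mk z : G ⧸ N)) (Set.Finite.pi' fun j => (R j).finite_toSet)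
      (fun z hz j => c1 j z hz.1) ?_, fun z hz j hj h => ⟨z, ⟨hz, t1 j hj _ h⟩, rfl⟩⟩
    intro x hx y hy he
    rw [QuotientGroup.eq]
    refine hmem _ (X.L.mul_mem (X.L.inv_mem hx.1) hy.1) ?_ fun j => ?_
    · rw [X.b_mul0 (X.h_L _ (X.L.inv_mem hx.1)), binv _ hx.1, map_add, map_neg, hx.2, hy.2]
    · have h1 := X.L.mul_mem (c2 j y hy.1) (X.L.inv_mem (c2 j x hx.1))
      have h2 : c j x = c j y := congrFun he j
      rw [h2] at h1
      rw [X.comm _ (X.L.inv_mem hx.1) _ hy.1]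
      rwa [show (X.t ^ (j : ℕ))⁻¹⁻¹ * (y * (c j y)⁻¹) * (X.t ^ (j : ℕ))⁻¹ *
        ((X.t ^ (j : ℕ))⁻¹⁻¹ * (x * (c j y)⁻¹) * (X.t ^ (j : ℕ))⁻¹)⁻¹ =
        X.t ^ (j : ℕ) * (y * x⁻¹) * (X.t ^ (j : ℕ))⁻¹ by group] at h1
  · intro f j hj h v
    have h1 : (dT X.A ^ M) f = f := by
      rw [hM, mul_comm]
      exact fix_mul _ (s2 j hj f (LinearMap.ext fun v => by rw [dT_pow, h])) _
    show f ((X.A ^ M) v) = f v
    rw [← dT_pow, h1]

end

end Pool.Agent.H870Z.LM
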