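import Mathlib
import Pool.Agent.Helper943.LM.Aut
import Pool.Agent.H870Z.LM.Full

set_option autoImplicit false

open scoped Classical

namespace Pool.Agent.H870Z.LM

open Pool.Agent.Helper943.LM HNNExtension HNNExtension.NormalWord

noncomputable section

section hnn

variable {Γ : Type} [Group Γ] {A B : Subgroup Γ} (φ : A ≃* B)

theorem hnn_gen (p : HNNExtension Γ A B φ → Prop) (h1 : p 1)
    (h2 : ∀ g z, p g → p (g * of z)) (h3 : ∀ g, p g → p (g * t)) (h4 : ∀ g, p g → p (g * t⁻¹))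
    (x : HNNExtension Γ A B φ) : p x := by
  have key : ∀ g, (p g → p (g * x)) ∧ (p g → p (g * x⁻¹)) := by
    induction x using HNNExtension.induction_on with
    | of z => exact fun g => ⟨h2 g z, by rw [← map_inv]; exact h2 g _⟩
    | t => exact fun g => ⟨h3 g, h4 g⟩
    | mul x y ihx ihy =>
      intro g
      rw [mul_inv_rev, ← mul_assoc, ← mul_assoc]
      exact ⟨fun h => (ihy _).1 ((ihx g).1 h), fun h => (ihx _).2 ((ihy g).2 h)⟩
    | inv x ih => intro g; rw [inv_inv]; exact ⟨(ih g).2, (ih g).1⟩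
  simpa using (key 1).1 h1

theorem smul_toList {d : TransversalPair Γ A B} (u : ℤˣ) (w : NormalWord d) :
    (w.head ∈ toSubgroup A B u ∧ ∃ g, w.toList = (-u, g) :: (unitsSMul φ u w).toList) ∨
    (unitsSMul φ u w).toList = (u, (((d.compl u).equiv w.head).2 : Γ)) :: w.toList := by
  by_cases h : Cancels u w
  · left
    refine ⟨h.1, ?_⟩
    simp only [unitsSMul, dif_pos h]
    induction w using consRecOn with
    | ofGroup => simp [Cancels] at h
    | cons g u' w h1 h2 _ =>
      have h3 := h.2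
      simp only [cons_toList, List.head?_cons, Option.map_some, Option.some.injEq] at h3
      subst h3
      exact ⟨w.head, rfl⟩
  · right
    simp only [unitsSMul, dif_neg h, cons_toList, group_smul_toList, group_smul_head,
      inv_mul_cancel_right, unitsSMulGroup_snd]

/-- the last letter points into the half tree -/
def LastB {d : TransversalPair Γ A B} (w : NormalWord d) : Prop :=
  ∃ g ∈ B, w.toList.getLast? = some (-1, g)

theorem exists_H : ∃ H : Set (HNNExtension Γ A B φ), (∀ x z, x ∈ H → x * of z ∈ H) ∧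
    (1 : HNNExtension Γ A B φ) ∉ H ∧ t ∈ H ∧ (∀ x, x ∈ H → x * t ∈ H) ∧
    ∀ x, x ∈ H → x * t⁻¹ ∉ H → x * t⁻¹ ∈ B.map of := by
  obtain ⟨d⟩ := TransversalPair.nonempty Γ A B
  have e1 : ∀ w : NormalWord d, (t⁻¹ : HNNExtension Γ A B φ) • w = unitsSMul φ (-1) w := by
    intro w
    rw [← t_pow_smul_eq_unitsSMul]; simp
  have lastc : ∀ (a : ℤˣ × Γ) (l : List (ℤˣ × Γ)), l ≠ [] → (a :: l).getLast? = l.getLast? := by
    intro a l hl
    obtain ⟨b, l, rfl⟩ := List.exists_cons_of_ne_nil hl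
    exact List.getLast?_cons_cons
  refine ⟨{x | LastB (x⁻¹ • (empty : NormalWord d))}, ?_, ?_, ?_, ?_, ?_⟩
  · intro x z hx
    show LastB _
    rw [mul_inv_rev, mul_smul, ← map_inv, of_smul_eq_smul]
    exact hx
  · rintro ⟨g, -, h⟩
    simp at h
  · show LastB _
    rw [e1]
    rcases smul_toList φ (-1) (empty : NormalWord d) with ⟨-, g, h⟩ | h
    · simp at h
    · refine ⟨_, ?_, by rw [h]; rfl⟩
      have h1 := (d.compl (-1)).equiv_fst_mul_equiv_snd (empty : NormalWord d).head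
      have h2 := eq_inv_of_mul_eq_one_right h1
      rw [h2]
      exact B.inv_mem ((d.compl (-1)).equiv (empty : NormalWord d).head).1.2
  · rintro x ⟨g, hg, h⟩
    show LastB _
    rw [mul_inv_rev, mul_smul, e1]
    refine ⟨g, hg, ?_⟩
    rcases smul_toList φ (-1) (x⁻¹ • (empty : NormalWord d)) with ⟨-, g', h1⟩ | h1
    · rw [h1] at h
      rwa [lastc] at h
      intro h0
      rw [h0] at h
      simp at h
    · rw [h1, lastc, h]
      intro h0
      rw [h0] at h
      simp at h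
  · rintro x ⟨g, hg, h⟩ hn
    have hn' : ¬ LastB (unitsSMul φ 1 (x⁻¹ • (empty : NormalWord d))) := by
      rw [← t_smul_eq_unitsSMul, ← mul_smul]
      rwa [show (t : HNNExtension Γ A B φ) * x⁻¹ = (x * t⁻¹)⁻¹ by group]
    rcases smul_toList φ 1 (x⁻¹ • (empty : NormalWord d)) with ⟨h0, g', h1⟩ | h1
    · have h2 : (unitsSMul φ 1 (x⁻¹ • (empty : NormalWord d))).toList = [] := by
        by_contra h2
        rw [h1, lastc _ _ h2] at h
        exact hn' ⟨g, hg, h⟩
      rw [h2] at h1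
      rw [h1] at h
      simp only [List.getLast?_singleton, Option.some.injEq, Prod.mk.injEq, true_and] at h
      subst h
      have h3 := prod_smul φ x⁻¹ (empty : NormalWord d)
      rw [prod_empty, mul_one, ReducedWord.prod, h1] at h3
      generalize (x⁻¹ • (empty : NormalWord d)).head = a at h0 h3
      have h4 := equiv_eq_conj (φ := φ) ⟨a, h0⟩
      refine ⟨((φ ⟨a, h0⟩ : Γ) * g')⁻¹, B.inv_mem (B.mul_mem (φ ⟨a, h0⟩).2 hg), ?_⟩
      rw [map_inv, map_mul, h4, ← inv_inv x, ← h3]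
      simp [mul_assoc]
    · refine absurd ⟨g, hg, ?_⟩ hn'
      rw [h1, lastc, h]
      intro h0
      rw [h0] at h
      simp at h

end hnn

theorem fi_choose {G β : Type} [Group G] (L : Subgroup G) (c : G → β) (T : Set β) (hT : T.Finite)
    (h1 : ∀ z ∈ L, c z ∈ T) (P : G → Prop) (h2 : ∀ z ∈ L, ∀ z' ∈ L, c z = c z' → P (z * z'⁻¹)) :
    ∃ R : Finset G, (∀ r ∈ R, r ∈ L) ∧ ∀ z ∈ L, ∃ r ∈ R, P (z * r⁻¹) := by
  let f : β → G := fun b => if h : ∃ z ∈ L, c z = b then h.choose else 1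
  refine ⟨hT.toFinset.image f, fun r hr => ?_, fun z hz => ?_⟩
  · obtain ⟨b, -, rfl⟩ := Finset.mem_image.1 hr
    simp only [f]
    split_ifs with h
    · exact h.choose_spec.1
    · exact L.one_mem
  · have h : ∃ z' ∈ L, c z' = c z := ⟨z, hz, rfl⟩
    refine ⟨f (c z), Finset.mem_image_of_mem _ (hT.mem_toFinset.2 (h1 z hz)), ?_⟩
    simp only [f, dif_pos h]
    exact h2 z hz _ h.choose_spec.1 h.choose_spec.2.symm

/-- commensuration -/
def Cms {G : Type} [Group G] (L : Subgroup G) (g : G) : Prop :=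
  ∃ R : Finset G, (∀ r ∈ R, r ∈ L) ∧ ∀ z ∈ L, ∃ r ∈ R, g⁻¹ * (z * r⁻¹) * g ∈ L

theorem Cms.mul {G : Type} [Group G] {L : Subgroup G} {g s : G} (h : Cms L g) (h' : Cms L s) :
    Cms L (g * s) := by
  obtain ⟨R, -, r2⟩ := h
  obtain ⟨R', -, r2'⟩ := h'
  choose! c c1 c2 using r2
  choose! c' c1' c2' using r2'
  refine fi_choose L (fun z => (c z, c' (g⁻¹ * (z * (c z)⁻¹) * g))) ((R : Set G) ×ˢ (R' : Set G))
    (R.finite_toSet.prod R'.finite_toSet) (fun z hz => ⟨c1 z hz, c1' _ (c2 z hz)⟩)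
    (fun w => (g * s)⁻¹ * w * (g * s) ∈ L) fun z hz z' hz' he => ?_
  simp only [Prod.mk.injEq] at he
  have k := L.mul_mem (c2' _ (c2 z hz)) (L.inv_mem (c2' _ (c2 z' hz')))
  rw [he.2, he.1] at k
  generalize c' (g⁻¹ * (z' * (c z')⁻¹) * g) = r' at k
  generalize c z' = r at k
  rwa [show s⁻¹ * (g⁻¹ * (z * r⁻¹) * g * r'⁻¹) * s * (s⁻¹ * (g⁻¹ * (z' * r⁻¹) * g * r'⁻¹) * s)⁻¹ =
    (g * s)⁻¹ * (z * z'⁻¹) * (g * s) by group] at k

theorem fin_mod {n : ℕ} (S : Subgroup (Multiplicative (Fin n → ℤ))) (m : ℕ) (hm : 0 < m)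
    (h : ∀ y, y ^ m ∈ S) : ∃ c : Multiplicative (Fin n → ℤ) → (Fin n → ℤ),
      (Set.range c).Finite ∧ ∀ y y', c y = c y' → y * y'⁻¹ ∈ S := by
  have hm' : (0 : ℤ) < m := by exact_mod_cast hm
  refine ⟨fun y i => Multiplicative.toAdd y i % m,
    (Set.Finite.pi' fun _ : Fin n => Set.finite_Ico (0 : ℤ) m).subset ?_, fun y y' he => ?_⟩
  · rintro _ ⟨y, rfl⟩ i
    exact ⟨Int.emod_nonneg _ hm'.ne', Int.emod_lt_of_pos _ hm'⟩
  · have := h (Multiplicative.ofAdd fun i =>
      (Multiplicative.toAdd y i - Multiplicative.toAdd y' i) / m)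
    convert this using 1
    apply Multiplicative.toAdd.injective
    funext i
    have h1 : (m : ℤ) ∣ Multiplicative.toAdd y i - Multiplicative.toAdd y' i :=
      Int.ModEq.dvd (congrFun he i).symm
    simp only [toAdd_mul, toAdd_inv, toAdd_pow, toAdd_ofAdd, Pi.add_apply, Pi.neg_apply,
      Pi.smul_apply, nsmul_eq_mul]
    rw [Int.mul_ediv_cancel' h1]; ring

theorem clear_den {n : ℕ} (a : Matrix (Fin n) (Fin n) ℚ) : ∃ m : ℕ, 0 < m ∧
    ∃ z : Matrix (Fin n) (Fin n) ℤ, ∀ i j, (z i j : ℚ) = m * a i j := by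
  refine ⟨∏ q : Fin n × Fin n, (a q.1 q.2).den, Finset.prod_pos fun q _ => (a q.1 q.2).den_pos, ?_⟩
  have : ∀ i j, ∃ z : ℤ, (z : ℚ) = (∏ q : Fin n × Fin n, (a q.1 q.2).den : ℕ) * a i j := by
    intro i j
    obtain ⟨k, hk⟩ := Finset.dvd_prod_of_mem (fun q : Fin n × Fin n => (a q.1 q.2).den)
      (Finset.mem_univ (i, j))
    refine ⟨k * (a i j).num, ?_⟩
    rw [hk]
    push_cast
    rw [← Rat.den_mul_eq_num]; ring
  choose z hz using this
  exact ⟨Matrix.of z, hz⟩

theorem hnn_no_ua {n : ℕ} (A : Matrix.GeneralLinearGroup (Fin n) ℚ)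
    (L' B : Subgroup (Multiplicative (Fin n → ℤ))) (φ : L' ≃* B) (hA : ¬ IsOfFinOrder A)
    (hi : L'.index ≠ 0)
    (hφ : ∀ x : L', ∀ i : Fin n,
      ((Multiplicative.toAdd ((φ x : Multiplicative (Fin n → ℤ))) i : ℤ) : ℚ) =
        (A : Matrix (Fin n) (Fin n) ℚ).mulVec
          (fun j => ((Multiplicative.toAdd ((x : Multiplicative (Fin n → ℤ))) j : ℤ) : ℚ)) i)
    (U : UA (HNNExtension (Multiplicative (Fin n → ℤ)) L' B φ)) : False := by
  let Ψ : Matrix.GeneralLinearGroup (Fin n) ℚ →* ((Fin n → ℂ) ≃ₗ[ℂ] (Fin n → ℂ)) :=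
    (LinearMap.GeneralLinearGroup.generalLinearEquiv ℂ (Fin n → ℂ)).toMonoidHom.comp
      ((Matrix.GeneralLinearGroup.toLin (n := Fin n) (R := ℂ)).toMonoidHom.comp
        (Matrix.GeneralLinearGroup.map (Rat.castHom ℂ)))
  have hΨ : ∀ (M : Matrix.GeneralLinearGroup (Fin n) ℚ) (v : Fin n → ℂ) (i : Fin n),
      Ψ M v i = ∑ j, ((M : Matrix (Fin n) (Fin n) ℚ) i j : ℂ) * v j := fun M v i => rfl
  let ι : Multiplicative (Fin n → ℤ) → (Fin n → ℂ) := fun z i => (Multiplicative.toAdd z i : ℂ)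
  have ι_mul : ∀ z z', ι (z * z') = ι z + ι z' := fun z z' => by
    funext i; simp [ι]
  have hιφ : ∀ x : L', ι (φ x) = Ψ A (ι x) := by
    intro x
    funext i
    have := congrArg (fun q : ℚ => (q : ℂ)) (hφ x i)
    simp only [Matrix.mulVec, dotProduct, Rat.cast_intCast, Rat.cast_sum, Rat.cast_mul] at this
    rw [hΨ]; exact this
  let tr : Multiplicative (Fin n → ℤ) →* Equiv.Perm (Fin n → ℂ) :=
    { toFun := fun z => Equiv.addLeft (ι z)
      map_one' := by ext v i; simp [ι]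
      map_mul' := fun z z' => by ext v i; simp [ι_mul] }
  let ρ : HNNExtension (Multiplicative (Fin n → ℤ)) L' B φ →* Equiv.Perm (Fin n → ℂ) :=
    HNNExtension.lift tr (Ψ A).toEquiv (fun a => by
      refine Equiv.ext fun v => ?_
      show Ψ A (ι a + v) = ι (φ a) + Ψ A v
      rw [map_add, hιφ])
  let η : HNNExtension (Multiplicative (Fin n → ℤ)) L' B φ →* Multiplicative ℤ :=
    HNNExtension.lift 1 (Multiplicative.ofAdd 1) (fun a => by simp)
  have ρ_of : ∀ z v, ρ (of z) v = ι z + v := fun z v => by simp only [ρ, lift_of]; rfl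
  have ρ_t : ∀ v, ρ t v = Ψ A v := fun v => by simp only [ρ, lift_t]; rfl
  have η_of : ∀ z, η (of z) = 1 := fun z => by simp only [η, lift_of]; rfl
  have η_t : η t = Multiplicative.ofAdd 1 := by simp only [η, lift_t]
  have hρ : ∀ x v, ρ x v = ρ x 0 + (Ψ A ^ Multiplicative.toAdd (η x)) v := by
    intro x
    refine hnn_gen φ (fun x => ∀ v, ρ x v = ρ x 0 + (Ψ A ^ Multiplicative.toAdd (η x)) v)
      ?_ ?_ ?_ ?_ x
    · intro v; simp
    · intro g z ih v
      simp only [map_mul, Equiv.Perm.mul_apply, ρ_of, η_of, mul_one, add_zero]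
      rw [ih (ι z + v), ih (ι z), map_add, add_assoc]
    · intro g ih v
      simp only [map_mul, Equiv.Perm.mul_apply, ρ_t, η_t, map_zero, toAdd_mul, toAdd_ofAdd]
      rw [ih (Ψ A v), zpow_app, zpow_one]
    · intro g ih v
      have e : ∀ v, ρ t⁻¹ v = (Ψ A)⁻¹ v := fun v => by
        rw [map_inv, Equiv.Perm.inv_eq_iff_eq, ρ_t]
        exact ((Ψ A).apply_symm_apply v).symm
      simp only [map_mul, Equiv.Perm.mul_apply, e, map_zero, toAdd_mul]
      rw [ih ((Ψ A)⁻¹ v), zpow_app, map_inv η, η_t, toAdd_inv, toAdd_ofAdd, zpow_neg_one]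
  obtain ⟨H, H1, H2, H3, H4, H5⟩ := exists_H φ
  obtain ⟨cA, a1, a2⟩ := fin_mod L' L'.index (Nat.pos_of_ne_zero hi) fun y => L'.pow_index_mem y
  obtain ⟨m, hm, z, hz⟩ := clear_den ((A⁻¹ : Matrix.GeneralLinearGroup (Fin n) ℚ) :
    Matrix (Fin n) (Fin n) ℚ)
  obtain ⟨cB, b1, b2⟩ := fin_mod B (m * L'.index) (Nat.mul_pos hm (Nat.pos_of_ne_zero hi)) (by
    intro y
    let x : L' := ⟨_, L'.pow_index_mem (Multiplicative.ofAdd (z.mulVec (Multiplicative.toAdd y)))⟩
    have e : (φ x : Multiplicative (Fin n → ℤ)) = y ^ (m * L'.index) := by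
      apply Multiplicative.toAdd.injective
      funext i
      apply Int.cast_injective (α := ℚ)
      rw [hφ x i]
      have e1 : (fun j => ((Multiplicative.toAdd (x : Multiplicative (Fin n → ℤ)) j : ℤ) : ℚ)) =
          ((A⁻¹ : Matrix.GeneralLinearGroup (Fin n) ℚ) : Matrix (Fin n) (Fin n) ℚ).mulVec
            (fun j => ((m * L'.index : ℕ) : ℚ) * (Multiplicative.toAdd y j : ℚ)) := by
        funext j
        simp only [x, toAdd_pow, toAdd_ofAdd, Pi.smul_apply, nsmul_eq_mul, Matrix.mulVec, dotProduct]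
        push_cast
        rw [Finset.mul_sum]
        refine Finset.sum_congr rfl fun k _ => ?_
        rw [hz]; push_cast; ring
      rw [e1, Matrix.mulVec_mulVec, ← Units.val_mul, mul_inv_cancel, Units.val_one,
        Matrix.one_mulVec]
      simp
    rw [← e]; exact (φ x).2)
  have inj := of_injective φ
  have cms1 : ∀ (c : Multiplicative (Fin n → ℤ) → (Fin n → ℤ)) (s), (Set.range c).Finite →
      (∀ y y', c y = c y' → s⁻¹ * of (y * y'⁻¹) * s ∈
        (of : _ →* HNNExtension (Multiplicative (Fin n → ℤ)) L' B φ).range) →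
      Cms (of : _ →* HNNExtension (Multiplicative (Fin n → ℤ)) L' B φ).range s := by
    intro c s h1 h2
    refine fi_choose _ (fun g => c (Function.invFun of g)) _ h1 (fun z _ => ⟨_, rfl⟩)
      (fun w => s⁻¹ * w * s ∈ _) ?_
    rintro _ ⟨y, rfl⟩ _ ⟨y', rfl⟩ he
    simp only [Function.leftInverse_invFun inj y, Function.leftInverse_invFun inj y'] at he
    have := h2 y y' he
    rwa [map_mul, map_inv] at this
  let X : Pre (HNNExtension (Multiplicative (Fin n → ℤ)) L' B φ) (Fin n → ℂ) :=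
    { L := (of : _ →* HNNExtension (Multiplicative (Fin n → ℤ)) L' B φ).range
      B := B.map of
      t := t
      H := H
      h := fun x => Multiplicative.toAdd (η x)
      A := Ψ A
      b := fun x => ρ x 0
      comm := by
        rintro _ ⟨x, rfl⟩ _ ⟨y, rfl⟩
        rw [← map_mul, ← map_mul, mul_comm]
      B_le := by rintro _ ⟨x, -, rfl⟩; exact ⟨x, rfl⟩
      P_le := by
        rintro _ ⟨x, hx, rfl⟩
        exact ⟨_, equiv_symm_eq_conj (φ := φ) ⟨x, hx⟩⟩
      gen := fun p h1 h2 h3 h4 => hnn_gen φ p h1 (fun g z => h2 g _ ⟨z, rfl⟩) h3 h4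
      cms := by
        intro g
        refine hnn_gen φ (Cms _) ?_ (fun g z h => h.mul ?_) (fun g h => h.mul ?_)
          (fun g h => h.mul ?_) g
        · exact cms1 cA 1 a1 fun y y' _ => by rw [inv_one, one_mul, mul_one]; exact ⟨_, rfl⟩
        · exact cms1 cA _ a1 fun y y' _ => by
            rw [← map_inv, ← map_mul, ← map_mul]; exact ⟨_, rfl⟩
        · exact cms1 cB _ b1 fun y y' h => ⟨_, equiv_symm_eq_conj (φ := φ) ⟨_, b2 y y' h⟩⟩
        · exact cms1 cA _ a1 fun y y' h => by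
            rw [inv_inv]; exact ⟨_, equiv_eq_conj (φ := φ) ⟨_, a2 y y' h⟩⟩
      H_L := by rintro x _ ⟨z, rfl⟩; exact H1 x z
      one_nH := H2
      t_H := H3
      H_t := H4
      H_exit := H5
      h_mul := fun x y => by rw [map_mul, toAdd_mul]
      h_L := by rintro _ ⟨z, rfl⟩; rw [η_of]; rfl
      h_t := by rw [η_t]; rfl
      b_mul := fun x y => by rw [map_mul, Equiv.Perm.mul_apply, hρ] }
  have hb : ∀ z, X.b (of z) = ι z := fun z => by
    show ρ (of z) 0 = _
    rw [ρ_of, add_zero]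
  obtain ⟨Y⟩ := build X inferInstance ⟨n, fun i => LinearMap.proj i, by
      rintro _ ⟨z, rfl⟩ h
      have : z = 1 := by
        apply Multiplicative.toAdd.injective
        funext i
        have := h i
        rw [hb] at this
        have h2 : ‖((Multiplicative.toAdd z i : ℤ) : ℂ)‖ < 1 := this
        rw [Complex.norm_intCast, ← Int.cast_abs] at h2
        have h3 : |Multiplicative.toAdd z i| < 1 := by exact_mod_cast h2
        exact Int.abs_lt_one_iff.1 h3
      rw [this, map_one]⟩ (by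
      intro f hf
      refine (Pi.basisFun ℂ (Fin n)).ext fun i => ?_
      have := hf _ ⟨Multiplicative.ofAdd (Pi.single i 1), rfl⟩
      rw [hb] at this
      rw [LinearMap.zero_apply, ← this, Pi.basisFun_apply]
      congr 1
      funext j
      simp only [ι, toAdd_ofAdd, Pi.single_apply]
      split_ifs <;> simp) (by
      intro j hj h
      apply hA
      rw [isOfFinOrder_iff_pow_eq_one]
      refine ⟨j, hj, ?_⟩
      have h1 : Ψ (A ^ j) = 1 := by rw [map_pow]; exact h
      ext i k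
      have h2 := hΨ (A ^ j) (Pi.single k 1) i
      rw [h1] at h2
      simp only [LinearEquiv.coe_one, id_eq, Pi.single_apply, mul_ite, mul_one, mul_zero,
        Finset.sum_ite_eq', Finset.mem_univ, if_true] at h2
      apply Rat.cast_injective (α := ℂ)
      rw [← h2, Units.val_one, Matrix.one_apply]
      split_ifs <;> simp)
  exact Y.no_ua U

end

end Pool.Agent.H870Z.LM
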